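import Mathlib

/-!
# Localisation at the polynomials `X` and `X ^ k - 1`
-/

set_option autoImplicit false

open Polynomial

namespace Pool.Agent.Helper84.Cm

/-- the generators -/
def gens : Set ℤ[X] := {X} ∪ {f | ∃ k : ℕ, 0 < k ∧ f = X ^ k - 1}

/-- the multiplicative set generated by `X` and the polynomials `X ^ k - 1` -/
noncomputable def S : Submonoid ℤ[X] := Submonoid.closure gens

theorem X_mem : (X : ℤ[X]) ∈ S := Submonoid.subset_closure (Or.inl rfl)

theorem Xk_mem {k : ℕ} (hk : 0 < k) : (X ^ k - 1 : ℤ[X]) ∈ S :=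
  Submonoid.subset_closure (Or.inr ⟨k, hk, rfl⟩)

/-- every element of `S` divides `X ^ e * (X ^ n - 1) ^ r` -/
theorem S_dvd {s : ℤ[X]} (hs : s ∈ S) : ∃ (e n r : ℕ) (_ : 0 < n), s ∣ X ^ e * (X ^ n - 1) ^ r := by
  induction hs using Submonoid.closure_induction with
  | mem s hs =>
    rcases hs with rfl | ⟨k, hk, rfl⟩
    · exact ⟨1, 1, 0, one_pos, by simp⟩
    · exact ⟨0, k, 1, hk, by simp⟩
  | one => exact ⟨0, 1, 0, one_pos, one_dvd _⟩
  | mul a b _ _ ha hb =>
    obtain ⟨e, n, r, hn, h1⟩ := ha
    obtain ⟨e', n', r', hn', h2⟩ := hb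
    refine ⟨e + e', n * n', r + r', Nat.mul_pos hn hn', ?_⟩
    have h3 : (X ^ n - 1 : ℤ[X]) ∣ X ^ (n * n') - 1 := by
      rw [pow_mul]
      exact sub_one_dvd_pow_sub_one _ _
    have h4 : (X ^ n' - 1 : ℤ[X]) ∣ X ^ (n * n') - 1 := by
      rw [mul_comm n n', pow_mul]
      exact sub_one_dvd_pow_sub_one _ _
    have h5 := mul_dvd_mul (h1.trans (mul_dvd_mul_left (X ^ e) (pow_dvd_pow_of_dvd h3 r)))
      (h2.trans (mul_dvd_mul_left (X ^ e') (pow_dvd_pow_of_dvd h4 r')))
    refine h5.trans (dvd_of_eq ?_)
    ring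

section ext

variable {W : Type} [AddCommGroup W]

/-- the group of the additive automorphisms -/
abbrev Au (W : Type) [AddCommGroup W] : Type := (Module.End ℤ W)ˣ

/-- an automorphism as a linear endomorphism -/
abbrev lin (u : Au W) : Module.End ℤ W := (u : Module.End ℤ W)

theorem lin_apply (u : Au W) (w : W) : lin u w = u • w := rfl

theorem lin_pow (u : Au W) (n : ℕ) (w : W) : (lin u ^ n) w = u ^ n • w := by
  change _ = ((u ^ n : Au W) : Module.End ℤ W) w
  rw [Units.val_pow_eq_pow_val]

theorem Au.bij (u : Au W) : Function.Bijective (fun w : W => u • w) := MulAction.bijective u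

theorem Au.add (u : Au W) (v w : W) : u • (v + w) = u • v + u • w := map_add (u : Module.End ℤ W) v w

theorem Au.sub (u : Au W) (v w : W) : u • (v - w) = u • v - u • w := map_sub (u : Module.End ℤ W) v w

/-- `u ^ k - 1` is bijective for all `k > 0` -/
def Reg (u : Au W) : Prop := ∀ k : ℕ, 0 < k → Function.Bijective (fun w : W => u ^ k • w - w)

theorem smul_bij {u : Au W} (hu : Reg u) {s : ℤ[X]} (hs : s ∈ S) :
    Function.Bijective (fun w : Module.AEval' (lin u) => s • w) := by
  induction hs using Submonoid.closure_induction with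
  | mem s hs =>
    rcases hs with rfl | ⟨k, hk, rfl⟩
    · have h1 : (fun w : Module.AEval' (lin u) => (X : ℤ[X]) • w) =
          (Module.AEval'.of (lin u)) ∘ (fun w => u • w) ∘ (Module.AEval'.of (lin u)).symm := by
        funext w
        obtain ⟨v, rfl⟩ := (Module.AEval'.of (lin u)).surjective w
        rw [Module.AEval'.X_smul_of, Function.comp_apply, Function.comp_apply,
          LinearEquiv.symm_apply_apply]
        rfl
      rw [h1]
      exact (Module.AEval'.of (lin u)).bijective.comp (u.bij.comp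
        (Module.AEval'.of (lin u)).symm.bijective)
    · have h1 : (fun w : Module.AEval' (lin u) => (X ^ k - 1 : ℤ[X]) • w) =
          (Module.AEval'.of (lin u)) ∘ (fun w => u ^ k • w - w) ∘
            (Module.AEval'.of (lin u)).symm := by
        funext w
        obtain ⟨v, rfl⟩ := (Module.AEval'.of (lin u)).surjective w
        rw [sub_smul, one_smul, Module.AEval'.X_pow_smul_of, Function.comp_apply,
          Function.comp_apply, LinearEquiv.symm_apply_apply, map_sub]
        congr 2
      rw [h1]
      exact (Module.AEval'.of (lin u)).bijective.comp ((hu k hk).comp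
        (Module.AEval'.of (lin u)).symm.bijective)
  | one =>
    have h1 : (fun w : Module.AEval' (lin u) => (1 : ℤ[X]) • w) = id := by
      funext w
      exact one_smul _ w
    rw [h1]
    exact Function.bijective_id
  | mul a b _ _ ha hb =>
    have h1 : (fun w : Module.AEval' (lin u) => (a * b) • w) =
        (fun w => a • w) ∘ (fun w => b • w) := by
      funext w
      exact mul_smul a b w
    rw [h1]
    exact ha.comp hb

/-- `((u ^ n - 1) ^ r) w` -/
def opr (u : Au W) (n r : ℕ) (w : W) : W := (fun w => u ^ n • w - w)^[r] w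

theorem opr_smul (u : Au W) (n r : ℕ) (w : W) :
    ((X ^ n - 1 : ℤ[X]) ^ r) • Module.AEval'.of (lin u) w = Module.AEval'.of (lin u) (opr u n r w) := by
  induction r generalizing w with
  | zero => rw [pow_zero, one_smul]; rfl
  | succ r ih =>
    have h1 : (X ^ n - 1 : ℤ[X]) • Module.AEval'.of (lin u) w =
        Module.AEval'.of (lin u) (u ^ n • w - w) := by
      rw [sub_smul, one_smul, Module.AEval'.X_pow_smul_of, map_sub]
      congr 2
    rw [pow_succ, mul_smul, h1, ih]
    rfl

theorem of_symm_smul {u : Au W} {M : AddSubgroup W} (hM : ∀ m ∈ M, u • m ∈ M) (f : ℤ[X])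
    (w : Module.AEval' (lin u)) (hw : (Module.AEval'.of (lin u)).symm w ∈ M) :
    (Module.AEval'.of (lin u)).symm (f • w) ∈ M := by
  obtain ⟨v, rfl⟩ := (Module.AEval'.of (lin u)).surjective w
  rw [LinearEquiv.symm_apply_apply] at hw
  have hp : ∀ n : ℕ, u ^ n • v ∈ M := by
    intro n
    induction n with
    | zero => exact hw
    | succ n ih =>
      rw [pow_succ', mul_smul]
      exact hM _ ih
  induction f using Polynomial.induction_on' with
  | add p q hp hq =>
    rw [add_smul, map_add]
    exact add_mem hp hq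
  | monomial n a =>
    rw [← C_mul_X_pow_eq_monomial, mul_smul, Module.AEval'.X_pow_smul_of]
    have h1 : (C a : ℤ[X]) • Module.AEval'.of (lin u) (lin u ^ n • v) =
        Module.AEval'.of (lin u) (a • (lin u ^ n • v)) := by
      rw [map_zsmul]
      have h2 : (C a : ℤ[X]) = (a : ℤ[X]) := by simp
      rw [h2, Int.cast_smul_eq_zsmul]
    rw [h1, LinearEquiv.symm_apply_apply]
    have h3 : (lin u ^ n • v : W) = u ^ n • v := lin_pow u n v
    rw [h3]
    exact zsmul_mem (hp n) a

/-- the submodule given by an invariant subgroup -/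
def sub (u : Au W) (M : AddSubgroup W) (hM : ∀ m ∈ M, u • m ∈ M) :
    Submodule ℤ[X] (Module.AEval' (lin u)) where
  carrier := {w | (Module.AEval'.of (lin u)).symm w ∈ M}
  add_mem' := by
    intro a b ha hb
    change (Module.AEval'.of (lin u)).symm (a + b) ∈ M
    rw [map_add]
    exact add_mem ha hb
  zero_mem' := by
    change (Module.AEval'.of (lin u)).symm 0 ∈ M
    rw [map_zero]
    exact zero_mem _
  smul_mem' := fun f w hw => of_symm_smul hM f w hw

theorem mem_sub {u : Au W} {M : AddSubgroup W} {hM : ∀ m ∈ M, u • m ∈ M}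
    {w : Module.AEval' (lin u)} : w ∈ sub u M hM ↔ (Module.AEval'.of (lin u)).symm w ∈ M := Iff.rfl

/-- additive maps which commute with the automorphisms are linear over the polynomials -/
theorem map_poly {W' V : Type} [AddCommGroup W'] [AddCommGroup V] [Module ℤ[X] V]
    (u' : Au W') (g : V →+ Module.AEval' (lin u'))
    (hg : ∀ v, g ((X : ℤ[X]) • v) = (X : ℤ[X]) • g v) (f : ℤ[X]) (v : V) :
    g (f • v) = f • g v := by
  induction f using Polynomial.induction_on' generalizing v with
  | add p q hp hq => rw [add_smul, map_add, hp, hq, add_smul]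
  | monomial n a =>
    rw [← C_mul_X_pow_eq_monomial, mul_smul, mul_smul]
    have h2 : (C a : ℤ[X]) = (a : ℤ[X]) := by simp
    rw [h2, Int.cast_smul_eq_zsmul, Int.cast_smul_eq_zsmul, map_zsmul]
    congr 1
    induction n generalizing v with
    | zero => rw [pow_zero, one_smul, one_smul]
    | succ n ih => rw [pow_succ, mul_smul, mul_smul, ih, hg]

/-- **Extension of isomorphisms to the localisations** -/
theorem ext_aux {W' : Type} [AddCommGroup W'] (u : Au W) (u' : Au W') (hu : Reg u)
    (hu' : Reg u') (M : AddSubgroup W) (hM : ∀ m ∈ M, u • m ∈ M) (g : M →+ W')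
    (hg : Function.Injective g) (hgu : ∀ m : M, g ⟨u • (m : W), hM m m.2⟩ = u' • (g m))
    (h1 : ∀ w : W, ∃ n r : ℕ, 0 < n ∧ opr u n r w ∈ M)
    (h2 : ∀ w : W', ∃ n r : ℕ, 0 < n ∧ ∃ m : M, opr u' n r w = g m) :
    ∃ B : W ≃+ W', (∀ m : M, B m = g m) ∧ ∀ w, B (u • w) = u' • (B w) := by
  classical
  let V := Module.AEval' (lin u)
  let V' := Module.AEval' (lin u')
  let N : Submodule ℤ[X] V := sub u M hM
  let g₀ : N →+ V' :=
    { toFun := fun x => Module.AEval'.of (lin u') (g ⟨(Module.AEval'.of (lin u)).symm x.1, x.2⟩)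
      map_zero' := by
        have h3 : (⟨(Module.AEval'.of (lin u)).symm (0 : N).1, (0 : N).2⟩ : M) = 0 := by
          apply Subtype.ext
          exact map_zero (Module.AEval'.of (lin u)).symm
        rw [h3, map_zero, map_zero]
      map_add' := by
        intro x y
        have h3 : (⟨(Module.AEval'.of (lin u)).symm (x + y : N).1, (x + y : N).2⟩ : M) =
            ⟨(Module.AEval'.of (lin u)).symm x.1, x.2⟩ +
              ⟨(Module.AEval'.of (lin u)).symm y.1, y.2⟩ := by
          apply Subtype.ext
          exact map_add (Module.AEval'.of (lin u)).symm x.1 y.1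
        rw [h3, map_add, map_add] }
  have hg₀ : ∀ x : N, g₀ x = Module.AEval'.of (lin u')
    (g ⟨(Module.AEval'.of (lin u)).symm x.1, x.2⟩) := fun _ => rfl
  have hg₀X : ∀ x : N, g₀ ((X : ℤ[X]) • x) = (X : ℤ[X]) • g₀ x := by
    intro x
    rw [hg₀, hg₀, Module.AEval'.X_smul_of]
    have h3 : (⟨(Module.AEval'.of (lin u)).symm ((X : ℤ[X]) • x : N).1, ((X : ℤ[X]) • x : N).2⟩ : M) =
        ⟨u • ((Module.AEval'.of (lin u)).symm x.1), hM _ x.2⟩ := by
      apply Subtype.ext
      exact Module.AEval'.of_symm_X_smul (lin u) x.1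
    rw [h3]
    congr 1
    exact hgu ⟨(Module.AEval'.of (lin u)).symm x.1, x.2⟩
  let g₁ : N →ₗ[ℤ[X]] V' :=
    { toFun := g₀
      map_add' := map_add g₀
      map_smul' := fun f x => map_poly u' g₀ hg₀X f x }
  have hg₁ : ∀ x : N, g₁ x = g₀ x := fun _ => rfl
  have hloc1 : IsLocalizedModule S N.subtype := by
    refine ⟨?_, ?_, ?_⟩
    · intro s
      rw [Module.End.isUnit_iff]
      exact smul_bij hu s.2
    · intro w
      obtain ⟨n, r, hn, h3⟩ := h1 ((Module.AEval'.of (lin u)).symm w)
      refine ⟨(⟨Module.AEval'.of (lin u) (opr u n r ((Module.AEval'.of (lin u)).symm w)), ?_⟩,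
        ⟨(X ^ n - 1) ^ r, pow_mem (Xk_mem hn) r⟩), ?_⟩
      · rw [mem_sub, LinearEquiv.symm_apply_apply]
        exact h3
      · change ((X ^ n - 1 : ℤ[X]) ^ r) • w = _
        have h4 := opr_smul u n r ((Module.AEval'.of (lin u)).symm w)
        rw [LinearEquiv.apply_symm_apply] at h4
        exact h4
    · intro x y hxy
      exact ⟨1, by rw [one_smul, one_smul]; exact Subtype.ext hxy⟩
  have hloc2 : IsLocalizedModule S g₁ := by
    refine ⟨?_, ?_, ?_⟩
    · intro s
      rw [Module.End.isUnit_iff]
      exact smul_bij hu' s.2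
    · intro w
      obtain ⟨n, r, hn, m, h3⟩ := h2 ((Module.AEval'.of (lin u')).symm w)
      refine ⟨(⟨Module.AEval'.of (lin u) m, ?_⟩,
        ⟨(X ^ n - 1) ^ r, pow_mem (Xk_mem hn) r⟩), ?_⟩
      · rw [mem_sub, LinearEquiv.symm_apply_apply]
        exact m.2
      · change ((X ^ n - 1 : ℤ[X]) ^ r) • w = _
        have h4 := opr_smul u' n r ((Module.AEval'.of (lin u')).symm w)
        rw [LinearEquiv.apply_symm_apply, h3] at h4
        rw [h4, hg₁, hg₀]
        congr 2
    · intro x y hxy
      refine ⟨1, ?_⟩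
      rw [one_smul, one_smul]
      have h3 := (Module.AEval'.of (lin u')).injective hxy
      have h4 := congrArg Subtype.val (hg h3)
      exact Subtype.ext ((Module.AEval'.of (lin u)).symm.injective h4)
  let e : V ≃ₗ[ℤ[X]] V' := IsLocalizedModule.linearEquiv S N.subtype g₁
  have he : ∀ x : N, e x.1 = g₁ x := by
    intro x
    exact IsLocalizedModule.linearEquiv_apply S N.subtype g₁ x
  refine ⟨((Module.AEval'.of (lin u)).toAddEquiv.trans e.toAddEquiv).trans
    (Module.AEval'.of (lin u')).symm.toAddEquiv, ?_, ?_⟩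
  · intro m
    change (Module.AEval'.of (lin u')).symm (e (Module.AEval'.of (lin u) m)) = g m
    have h3 := he ⟨Module.AEval'.of (lin u) m, by
      rw [mem_sub, LinearEquiv.symm_apply_apply]; exact m.2⟩
    change e (Module.AEval'.of (lin u) m) = _ at h3
    rw [h3, hg₁, hg₀, LinearEquiv.symm_apply_apply]
    congr 1
  · intro w
    change (Module.AEval'.of (lin u')).symm (e (Module.AEval'.of (lin u) (u • w))) =
      u' • ((Module.AEval'.of (lin u')).symm (e (Module.AEval'.of (lin u) w)))
    have h3 : Module.AEval'.of (lin u) (u • w) = (X : ℤ[X]) • Module.AEval'.of (lin u) w := by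
      rw [Module.AEval'.X_smul_of]
      rfl
    rw [h3, map_smul, Module.AEval'.of_symm_X_smul]
    rfl

end ext

end Pool.Agent.Helper84.Cm
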