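import Pool.Agent.Helper84.Cm.A
import Pool.Agent.Helper84.FJ.N

/-!
# Automorphisms which commute with a power of `t`
-/

set_option autoImplicit false

open Polynomial

namespace Pool.Agent.Helper84.Cm

open Pool.Agent.Helper84.FJ Pool.Agent.Y462.SS Pool.Agent.Q152.WP Pool.Agent.Q91.FJ

variable {C : ∀ (G : Type) [Group G], Prop}

theorem dim_zx (p : Ideal ℤ[X]) (hp : p ≠ ⊥) : ringKrullDim (ℤ[X] ⧸ p) ≤ 1 := by
  obtain ⟨f, hf, hf0⟩ := Submodule.exists_mem_ne_zero_of_ne_bot hp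
  have h1 : ringKrullDim ℤ[X] = 2 := by
    rw [Polynomial.ringKrullDim_of_isNoetherianRing,
      IsPrincipalIdealRing.ringKrullDim_eq_one ℤ Int.not_isField]
    rfl
  have h2 := ringKrullDim_quotient_succ_le_of_nonZeroDivisor (mem_nonZeroDivisors_of_ne_zero hf0)
  rw [h1] at h2
  have h3 : ringKrullDim (ℤ[X] ⧸ p) ≤ ringKrullDim (ℤ[X] ⧸ Ideal.span {f}) := by
    refine ringKrullDim_le_of_surjective (Ideal.Quotient.factor ?_) (Ideal.Quotient.factor_surjective ?_)
    · exact (Ideal.span_singleton_le_iff_mem _).2 hf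
    · exact (Ideal.span_singleton_le_iff_mem _).2 hf
  refine h3.trans ?_
  have h4 : ringKrullDim (ℤ[X] ⧸ Ideal.span {f}) + 1 ≤ 1 + 1 := h2.trans (le_of_eq rfl)
  revert h4
  generalize ringKrullDim (ℤ[X] ⧸ Ideal.span {f}) = d
  intro h4
  induction d using WithBot.recBotCoe with
  | bot => exact bot_le
  | coe d =>
    have h5 : ((d + 1 : ℕ∞) : WithBot ℕ∞) ≤ ((1 + 1 : ℕ∞) : WithBot ℕ∞) := h4
    have h6 : d + 1 ≤ 1 + 1 := WithBot.coe_le_coe.1 h5
    have h7 : d ≤ 1 := by
      exact (ENat.add_le_add_iff_right (ENat.natCast_ne_top 1)).1 h6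
    exact WithBot.coe_le_coe.2 h7

theorem ftx : @Algebra.FiniteType ℤ ℤ[X] _ _ (Ring.toIntAlgebra ℤ[X]) := by
  refine @Algebra.FiniteType.mk _ _ _ _ (Ring.toIntAlgebra ℤ[X]) ⟨{X}, ?_⟩
  rw [eq_top_iff]
  intro f _
  induction f using Polynomial.induction_on' with
  | add p q hp hq => exact add_mem (hp trivial) (hq trivial)
  | monomial n a =>
    rw [← C_mul_X_pow_eq_monomial]
    refine mul_mem ?_ (pow_mem (Algebra.subset_adjoin (by simp)) n)
    have h2 : (C a : ℤ[X]) = (a : ℤ[X]) := by simp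
    rw [h2]
    exact intCast_mem _ a

theorem ftq (q : Ideal ℤ[X]) :
    @Algebra.FiniteType ℤ (ℤ[X] ⧸ q) _ _ (Ring.toIntAlgebra (ℤ[X] ⧸ q)) :=
  @ft_of_surj ℤ[X] (ℤ[X] ⧸ q) _ _ ftx (Ideal.Quotient.mk q) Ideal.Quotient.mk_surjective

theorem frac_mem (hC : Closed C) (hQ : ∀ n : ℕ, C (Matrix.GeneralLinearGroup (Fin n) ℚ))
    (hF : ∀ (p : ℕ) [Fact p.Prime] (n : ℕ),
      C (Matrix.GeneralLinearGroup (Fin n) (RatFunc (ZMod p))))
    (P : Ideal (Localization S)) [hP : P.IsPrime]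
    (hne : P.comap (algebraMap ℤ[X] (Localization S)) ≠ ⊥) (n : ℕ) :
    C (Matrix.GeneralLinearGroup (Fin n) (FractionRing (Localization S ⧸ P))) := by
  classical
  set q : Ideal ℤ[X] := P.comap (algebraMap ℤ[X] (Localization S)) with hq
  have hqp : q.IsPrime := Ideal.IsPrime.comap _
  have hglob := (@dim_one_domain (ℤ[X] ⧸ q) _ _ (ftq q) (dim_zx q hne)).1
  have h1 := global_mem hC hQ hF _ hglob n
  let κ : ℤ[X] →+* FractionRing (ℤ[X] ⧸ q) :=
    (algebraMap (ℤ[X] ⧸ q) (FractionRing (ℤ[X] ⧸ q))).comp (Ideal.Quotient.mk q)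
  have hκ0 : ∀ f, κ f = 0 ↔ f ∈ q := by
    intro f
    rw [← Ideal.Quotient.eq_zero_iff_mem]
    constructor
    · intro h
      exact (IsFractionRing.injective (ℤ[X] ⧸ q) (FractionRing (ℤ[X] ⧸ q)))
        (by rw [map_zero]; exact h)
    · intro h
      change algebraMap (ℤ[X] ⧸ q) (FractionRing (ℤ[X] ⧸ q)) (Ideal.Quotient.mk q f) = 0
      rw [h, map_zero]
  have hκ : ∀ s : S, IsUnit (κ s) := by
    intro s
    rw [isUnit_iff_ne_zero]
    intro h0
    have h2 : algebraMap ℤ[X] (Localization S) s ∈ P := (hκ0 _).1 h0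
    exact hP.ne_top (P.eq_top_of_isUnit_mem h2 (IsLocalization.map_units _ s))
  let j0 : Localization S →+* FractionRing (ℤ[X] ⧸ q) := IsLocalization.lift (M := S) hκ
  have hj0 : ∀ x, j0 x = 0 ↔ x ∈ P := by
    intro x
    obtain ⟨f, s, rfl⟩ := IsLocalization.exists_mk'_eq S x
    have h3 : IsLocalization.mk' (Localization S) f s * algebraMap ℤ[X] (Localization S) s =
        algebraMap ℤ[X] (Localization S) f := IsLocalization.mk'_spec _ f s
    have h4 : j0 (IsLocalization.mk' (Localization S) f s) * κ s = κ f := by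
      have h5 := congrArg j0 h3
      rw [map_mul] at h5
      have h6 : ∀ g, j0 (algebraMap ℤ[X] (Localization S) g) = κ g := fun g =>
        IsLocalization.lift_eq hκ g
      rwa [h6, h6] at h5
    constructor
    · intro h0
      rw [h0, zero_mul] at h4
      have h5 : algebraMap ℤ[X] (Localization S) f ∈ P := (hκ0 f).1 h4.symm
      rw [← h3] at h5
      rcases hP.mem_or_mem h5 with h6 | h6
      · exact h6
      · exact absurd (P.eq_top_of_isUnit_mem h6 (IsLocalization.map_units _ s)) hP.ne_top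
    · intro h0
      have h5 : algebraMap ℤ[X] (Localization S) f ∈ P := by
        rw [← h3]
        exact P.mul_mem_right _ h0
      have h6 : κ f = 0 := (hκ0 f).2 h5
      rw [h6] at h4
      rcases mul_eq_zero.1 h4 with h7 | h7
      · exact h7
      · exact absurd h7 (hκ s).ne_zero
  let j1 : Localization S ⧸ P →+* FractionRing (ℤ[X] ⧸ q) :=
    Ideal.Quotient.lift P j0 (fun x hx => (hj0 x).2 hx)
  have hj1 : Function.Injective j1 := by
    rw [injective_iff_map_eq_zero]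
    intro x hx
    obtain ⟨x, rfl⟩ := Ideal.Quotient.mk_surjective x
    rw [Ideal.Quotient.eq_zero_iff_mem]
    exact (hj0 x).1 hx
  let j : FractionRing (Localization S ⧸ P) →+* FractionRing (ℤ[X] ⧸ q) :=
    IsFractionRing.lift (A := Localization S ⧸ P) (K := FractionRing (Localization S ⧸ P))
      (L := FractionRing (ℤ[X] ⧸ q)) (g := j1) hj1
  refine hC.of_injective _ _ (Matrix.GeneralLinearGroup.map j) ?_ h1
  intro a b hab
  apply Units.ext
  ext i k
  have h2 := congrArg (fun u : Matrix.GeneralLinearGroup (Fin n) (FractionRing (ℤ[X] ⧸ q)) =>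
    (u : Matrix (Fin n) (Fin n) (FractionRing (ℤ[X] ⧸ q))) i k) hab
  exact j.injective h2

section comm

variable {W : Type} [AddCommGroup W]

/-- finite generation after localisation -/
def FGen (t : Au W) : Prop := ∃ Z : Finset W, ∀ w : W, ∃ s ∈ S, ∃ c : W → ℤ[X],
  aeval (lin t) s w = ∑ z ∈ Z, aeval (lin t) (c z) z

/-- finite torsion-free rank -/
def FRank (W : Type) [AddCommGroup W] : Prop :=
  ∃ F : Finset W, ∀ w : W, ∃ n : ℕ, 0 < n ∧ n • w ∈ AddSubgroup.closure (F : Set W)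

theorem aeval_pow_apply (t : Au W) (a : ℕ) (f : ℤ[X]) :
    aeval (lin (t ^ a)) f = aeval (lin t) (expand ℤ a f) := by
  rw [expand_aeval]
  congr 1

theorem aeval_Xpow (t : Au W) (n : ℕ) (w : W) : aeval (lin t) (X ^ n : ℤ[X]) w = t ^ n • w := by
  rw [map_pow, aeval_X]
  exact lin_pow t n w

theorem reg_pow {t : Au W} (ht : Reg t) {a : ℕ} (ha : 0 < a) : Reg (t ^ a) := by
  intro k hk
  have h1 := ht (a * k) (Nat.mul_pos ha hk)
  rw [pow_mul] at h1
  exact h1

/-- the module where `X` acts as `t ^ a` -/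
theorem span_pow (t : Au W) (a : ℕ) (ha : 0 < a) (z : W) (g : ℤ[X]) (T : Set W)
    (hT : ∀ i < a, t ^ i • z ∈ T) :
    Module.AEval'.of (lin (t ^ a)) (aeval (lin t) g z) ∈
      Submodule.span ℤ[X] ((Module.AEval'.of (lin (t ^ a))) '' T) := by
  induction g using Polynomial.induction_on' with
  | add p q hp hq =>
    rw [map_add, LinearMap.add_apply, map_add]
    exact add_mem hp hq
  | monomial n c =>
    have h1 : aeval (lin t) (monomial n c : ℤ[X]) z = c • (t ^ n • z) := by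
      rw [← C_mul_X_pow_eq_monomial, map_mul, aeval_C, Module.End.mul_apply, aeval_Xpow]
      rfl
    rw [h1, map_zsmul]
    refine zsmul_mem ?_ c
    have h2 : t ^ n • z = (t ^ a) ^ (n / a) • (t ^ (n % a) • z) := by
      rw [← pow_mul, ← mul_smul, ← pow_add, Nat.div_add_mod]
    rw [h2, ← lin_pow]
    have h3 := Module.AEval'.X_pow_smul_of (lin (t ^ a)) (t ^ (n % a) • z) (n / a)
    have h4 : Module.AEval'.of (lin (t ^ a)) ((lin (t ^ a) ^ (n / a)) (t ^ (n % a) • z)) =
        (X ^ (n / a) : ℤ[X]) • Module.AEval'.of (lin (t ^ a)) (t ^ (n % a) • z) := h3.symm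
    rw [h4]
    exact Submodule.smul_mem _ _ (Submodule.subset_span ⟨_, hT _ (Nat.mod_lt _ ha), rfl⟩)

theorem fgen_pow {t : Au W} (h : FGen t) {a : ℕ} (ha : 0 < a) : ∃ Z : Finset W, ∀ w : W, ∃ s ∈ S,
    s • Module.AEval'.of (lin (t ^ a)) w ∈
      Submodule.span ℤ[X] ((Module.AEval'.of (lin (t ^ a))) '' (Z : Set W)) := by
  classical
  obtain ⟨Z, hZ⟩ := h
  refine ⟨(Finset.range a ×ˢ Z).image (fun x => t ^ x.1 • x.2), fun w => ?_⟩
  obtain ⟨s, hs, c, hc⟩ := hZ w
  obtain ⟨e, n, r, hn, hdvd⟩ := S_dvd hs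
  refine ⟨X ^ e * (X ^ n - 1) ^ r, mul_mem (pow_mem X_mem e) (pow_mem (Xk_mem hn) r), ?_⟩
  have h1 : s ∣ expand ℤ a (X ^ e * (X ^ n - 1) ^ r) := by
    refine hdvd.trans ?_
    rw [map_mul, map_pow, map_pow, map_sub, map_pow, map_one, expand_X]
    refine mul_dvd_mul ?_ (pow_dvd_pow_of_dvd ?_ r)
    · rw [← pow_mul, mul_comm, pow_mul]
      exact dvd_pow_self _ ha.ne'
    · rw [← pow_mul, mul_comm, pow_mul]
      exact sub_one_dvd_pow_sub_one _ _
  obtain ⟨q, hq⟩ := h1
  rw [← Module.AEval.of_aeval_smul]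
  have h2 : (aeval (lin (t ^ a)) (X ^ e * (X ^ n - 1) ^ r : ℤ[X])) • w =
      ∑ z ∈ Z, aeval (lin t) (q * c z) z := by
    change (aeval (lin (t ^ a)) (X ^ e * (X ^ n - 1) ^ r : ℤ[X])) w = _
    rw [aeval_pow_apply, hq, mul_comm s q, map_mul, Module.End.mul_apply, hc, map_sum]
    refine Finset.sum_congr rfl fun z _ => ?_
    rw [map_mul, Module.End.mul_apply]
  rw [h2]
  have h3 : ∀ z ∈ Z, Module.AEval'.of (lin (t ^ a)) (aeval (lin t) (q * c z) z) ∈
      Submodule.span ℤ[X] ((Module.AEval'.of (lin (t ^ a))) ''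
        (((Finset.range a ×ˢ Z).image (fun x => t ^ x.1 • x.2) : Finset W) : Set W)) := by
    intro z hz
    refine span_pow t a ha z _ _ (fun i hi => ?_)
    rw [Finset.mem_coe, Finset.mem_image]
    exact ⟨(i, z), Finset.mem_product.2 ⟨Finset.mem_range.2 hi, hz⟩, rfl⟩
  change Module.AEval'.of (lin (t ^ a)) (∑ z ∈ Z, aeval (lin t) (q * c z) z) ∈ _
  rw [map_sum]
  exact sum_mem h3

/-- finite rank gives polynomial relations -/
theorem exists_rel (hR : FRank W) (u : Au W) (w : W) : ∃ f : ℤ[X], f ≠ 0 ∧ aeval (lin u) f w = 0 := by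
  classical
  obtain ⟨F, hF⟩ := hR
  let N := F.card
  choose n hn hnF using fun i : Fin (N + 1) => hF (u ^ (i : ℕ) • w)
  -- coordinates
  have h1 : ∀ i : Fin (N + 1), ∃ c : F → ℤ, n i • (u ^ (i : ℕ) • w) = ∑ x : F, c x • (x : W) := by
    intro i
    have h2 := hnF i
    have h3 : n i • (u ^ (i : ℕ) • w) ∈ Submodule.span ℤ (F : Set W) := by
      rw [← Submodule.mem_toAddSubgroup, Submodule.span_int_eq_addSubgroupClosure]
      exact h2
    rw [Submodule.mem_span_finset] at h3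
    obtain ⟨c, -, hc⟩ := h3
    refine ⟨fun x => c x, ?_⟩
    rw [← hc, ← Finset.sum_coe_sort]
  choose c hc using h1
  -- a linear relation
  have h4 : ¬ LinearIndependent ℤ c := by
    intro hli
    have h5 := hli.fintype_card_le_finrank
    rw [Fintype.card_fin, Module.finrank_fintype_fun_eq_card, Fintype.card_coe] at h5
    omega
  rw [Fintype.not_linearIndependent_iff] at h4
  obtain ⟨g, hg, i₀, hi₀⟩ := h4
  refine ⟨∑ i : Fin (N + 1), C (g i * n i) * X ^ (i : ℕ), ?_, ?_⟩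
  · intro h0
    have h5 := congrArg (fun f : ℤ[X] => f.coeff (i₀ : ℕ)) h0
    simp only [finsetSum_coeff, coeff_C_mul, coeff_X_pow, coeff_zero] at h5
    rw [Finset.sum_eq_single i₀] at h5
    · rw [if_pos rfl, mul_one] at h5
      rcases mul_eq_zero.1 h5 with h6 | h6
      · exact hi₀ h6
      · exact (hn i₀).ne' (by exact_mod_cast h6)
    · intro b _ hb
      rw [if_neg (fun h => hb (Fin.ext h.symm)), mul_zero]
    · intro h; exact absurd (Finset.mem_univ _) h
  · rw [map_sum, LinearMap.sum_apply]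
    have h5 : ∀ i : Fin (N + 1), aeval (lin u) (C (g i * n i) * X ^ (i : ℕ) : ℤ[X]) w =
        ∑ x : F, (g i * c i x) • (x : W) := by
      intro i
      have h6 : aeval (lin u) (C (g i * n i) * X ^ (i : ℕ) : ℤ[X]) w =
          (g i * n i) • (u ^ (i : ℕ) • w) := by
        rw [map_mul, aeval_C, Module.End.mul_apply, aeval_Xpow]
        rfl
      rw [h6, mul_smul]
      have h7 : ((n i : ℤ)) • (u ^ (i : ℕ) • w) = n i • (u ^ (i : ℕ) • w) := natCast_zsmul _ _
      rw [h7, hc i, Finset.smul_sum]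
      refine Finset.sum_congr rfl fun x _ => ?_
      rw [mul_smul]
    rw [Finset.sum_congr rfl (fun i _ => h5 i), Finset.sum_comm]
    refine Finset.sum_eq_zero fun x _ => ?_
    rw [← Finset.sum_smul]
    have h6 := congrFun hg x
    simp only [Finset.sum_apply, Pi.smul_apply, smul_eq_mul, Pi.zero_apply] at h6
    rw [h6, zero_smul]

end comm

end Pool.Agent.Helper84.Cm
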