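import Pool.Agent.Helper84.Cm.B

/-!
# Groups of automorphisms which commute with a power of `t`
-/

set_option autoImplicit false

open Polynomial

namespace Pool.Agent.Helper84.Cm

open Pool.Agent.Helper84.FJ Pool.Agent.Y462.SS Pool.Agent.Q152.WP Pool.Agent.Q91.FJ

variable {C : ∀ (G : Type) [Group G], Prop} {W : Type} [AddCommGroup W]

/-- **linearity of the groups which commute with a power of `t`** -/
theorem lk_comm (hC : Closed C) (hQ : ∀ n : ℕ, C (Matrix.GeneralLinearGroup (Fin n) ℚ))
    (hF : ∀ (p : ℕ) [Fact p.Prime] (n : ℕ),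
      C (Matrix.GeneralLinearGroup (Fin n) (RatFunc (ZMod p))))
    {t : Au W} (ht : Reg t) (hG : FGen t) (hR : FRank W) {a : ℕ} (ha : 0 < a) {Γ : Type} [Group Γ]
    (θ : Γ →* Au W) (hθ : ∀ γ, θ γ * t ^ a = t ^ a * θ γ) :
    ∃ N : Subgroup Γ, LK (fun K _ => ∀ n : ℕ, C (Matrix.GeneralLinearGroup (Fin n) K)) N ∧
      SM N θ.ker := by
  classical
  have hta : Reg (t ^ a) := reg_pow ht ha
  let V := Module.AEval' (lin (t ^ a))
  let o : W ≃ₗ[ℤ] V := Module.AEval'.of (lin (t ^ a))
  have hloc : IsLocalizedModule S (LinearMap.id : V →ₗ[ℤ[X]] V) := by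
    refine ⟨?_, ?_, ?_⟩
    · intro s
      rw [Module.End.isUnit_iff]
      exact smul_bij hta s.2
    · intro w
      exact ⟨(w, 1), one_smul _ w⟩
    · intro x y hxy
      exact ⟨1, by rw [one_smul, one_smul]; exact hxy⟩
  let R := Localization S
  let V' := LocalizedModule S V
  have hRn : IsNoetherianRing R := IsLocalization.isNoetherianRing S R inferInstance
  let e : V' ≃ₗ[ℤ[X]] V := IsLocalizedModule.iso S (LinearMap.id : V →ₗ[ℤ[X]] V)
  have hsm : ∀ (f : ℤ[X]) (x : V'), (algebraMap ℤ[X] R f) • x = f • x := fun f x =>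
    algebraMap_smul R f x
  -- finiteness
  have hfin : Module.Finite R V' := by
    obtain ⟨Z, hZ⟩ := fgen_pow hG ha
    refine ⟨⟨Z.image (fun z => e.symm (o z)), ?_⟩⟩
    rw [eq_top_iff]
    rintro x -
    obtain ⟨w, hw⟩ := o.surjective (e x)
    obtain ⟨s, hs, h1⟩ := hZ w
    have h2 : ∀ y ∈ Submodule.span ℤ[X] ((Module.AEval'.of (lin (t ^ a))) '' (Z : Set W)),
        e.symm y ∈ Submodule.span R
          ((Z.image (fun z => e.symm (o z)) : Finset V') : Set V') := by
      intro y hy
      induction hy using Submodule.span_induction with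
      | mem y hy =>
        obtain ⟨z, hz, rfl⟩ := hy
        exact Submodule.subset_span (by
          rw [Finset.coe_image]
          exact ⟨z, hz, rfl⟩)
      | zero => rw [map_zero]; exact zero_mem _
      | add y z _ _ hy hz => rw [map_add]; exact add_mem hy hz
      | smul f y _ hy =>
        rw [map_smul, ← hsm]
        exact Submodule.smul_mem _ _ hy
    have h3 := h2 _ h1
    have h4 : (Module.AEval'.of (lin (t ^ a))) w = e x := hw
    rw [h4, map_smul, LinearEquiv.symm_apply_apply, ← hsm] at h3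
    have h5 : IsUnit (algebraMap ℤ[X] R s) := IsLocalization.map_units R (⟨s, hs⟩ : S)
    obtain ⟨v, hv⟩ := h5
    have h6 := Submodule.smul_mem _ ((v⁻¹ : Rˣ) : R) h3
    rw [← hv, smul_smul, Units.inv_mul, one_smul] at h6
    exact h6
  -- the action
  let E : V' ≃+ W := e.toAddEquiv.trans o.symm.toAddEquiv
  have hEX : ∀ x : V', E ((X : ℤ[X]) • x) = (t ^ a) • E x := by
    intro x
    change o.symm (e ((X : ℤ[X]) • x)) = _
    rw [map_smul]
    exact Module.AEval'.of_symm_X_smul (lin (t ^ a)) (e x)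
  let θ' : Γ →* AddMonoid.End V' :=
    { toFun := fun γ => (E.symm.toAddMonoidHom.comp
        ((θ γ : Module.End ℤ W).toAddMonoidHom)).comp E.toAddMonoidHom
      map_one' := by
        ext x
        change E.symm ((θ 1 : Au W) • E x) = x
        rw [map_one, one_smul, AddEquiv.symm_apply_apply]
      map_mul' := by
        intro γ δ
        ext x
        change E.symm ((θ (γ * δ) : Au W) • E x) = E.symm (θ γ • E (E.symm (θ δ • E x)))
        rw [map_mul, mul_smul, AddEquiv.apply_symm_apply] }
  have hθ' : ∀ γ x, θ' γ x = E.symm (θ γ • E x) := fun _ _ => rfl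
  have hX : ∀ γ x, θ' γ ((X : ℤ[X]) • x) = (X : ℤ[X]) • θ' γ x := by
    intro γ x
    apply E.injective
    rw [hθ', hθ', hEX, hEX, AddEquiv.apply_symm_apply, AddEquiv.apply_symm_apply, ← mul_smul,
      ← mul_smul, hθ]
  have hf : ∀ γ (f : ℤ[X]) x, θ' γ (f • x) = f • θ' γ x := by
    intro γ f
    induction f using Polynomial.induction_on' with
    | add p q hp hq => intro x; rw [add_smul, map_add, hp, hq, add_smul]
    | monomial n c =>
      intro x
      rw [← C_mul_X_pow_eq_monomial, mul_smul, mul_smul]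
      have h2 : (Polynomial.C c : ℤ[X]) = (c : ℤ[X]) := by simp
      have h7 : ∀ y : V', ((c : ℤ[X])) • y = c • y := fun y => Int.cast_smul_eq_zsmul ℤ[X] c y
      rw [h2, h7, h7, map_zsmul]
      congr 1
      induction n generalizing x with
      | zero => rw [pow_zero, one_smul, one_smul]
      | succ n ih => rw [pow_succ, mul_smul, mul_smul, ih, hX]
  have hr : ∀ γ (r : R) x, θ' γ (r • x) = r • θ' γ x := by
    intro γ r x
    obtain ⟨f, s, rfl⟩ := IsLocalization.exists_mk'_eq S r
    have h1 : algebraMap ℤ[X] R s * IsLocalization.mk' R f s = algebraMap ℤ[X] R f :=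
      IsLocalization.mk'_spec' R f s
    obtain ⟨v, hv⟩ := IsLocalization.map_units R s
    have h2 : (v : R) • θ' γ (IsLocalization.mk' R f s • x) =
        (v : R) • (IsLocalization.mk' R f s • θ' γ x) := by
      rw [smul_smul, hv, h1, hsm, hsm, ← hf, ← hf, ← hsm, smul_smul, h1, hsm]
    have h3 := congrArg (fun y => ((v⁻¹ : Rˣ) : R) • y) h2
    rwa [smul_smul, smul_smul _ _ (IsLocalization.mk' R f s • θ' γ x), Units.inv_mul, one_smul,
      one_smul] at h3
  obtain ⟨N, hN1, hN2⟩ := mod_ind
    (𝒦 := fun K _ => ∀ n : ℕ, C (Matrix.GeneralLinearGroup (Fin n) K)) (R := R) (A := V') θ'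
    (fun _ => RingEquiv.refl R) (fun γ r x => hr γ r x)
    (fun P _ γ r => by rw [RingEquiv.refl_apply, sub_self]; exact zero_mem _)
    (by
      intro P hP hass n
      obtain ⟨_, y, hy⟩ := hass
      refine frac_mem hC hQ hF P ?_ n
      obtain ⟨f, hf0, hf1⟩ := exists_rel hR (t ^ a) (E y)
      intro hbot
      apply hf0
      rw [← Ideal.mem_bot, ← hbot, Ideal.mem_comap, hy, hsm]
      apply E.injective
      rw [map_zero]
      change o.symm (e (f • y)) = 0
      rw [map_smul]
      exact hf1)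
    ⊥ (fun γ x hx => by
      rw [Submodule.mem_bot] at hx ⊢
      rw [hx, map_zero]) (by rw [assRel_bot])
  refine ⟨N, hN1, hN2.mono le_rfl ?_⟩
  intro γ hγ
  rw [mem_ker'] at hγ
  rw [MonoidHom.mem_ker]
  apply Units.ext
  apply LinearMap.ext
  intro w
  have h1 := hγ (E.symm w)
  rw [Submodule.mem_bot, sub_eq_zero, hθ', AddEquiv.apply_symm_apply] at h1
  exact E.symm.injective h1

end Pool.Agent.Helper84.Cm
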