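import Pool.Agent.Helper84.Cm.D

/-!
# The affine groups
-/

set_option autoImplicit false

open Polynomial

namespace Pool.Agent.Helper84.Cm

open Pool.Agent.Helper84.FJ Pool.Agent.Y462.SS Pool.Agent.Q152.WP Pool.Agent.Q91.FJ

variable {C : ∀ (G : Type) [Group G], Prop} {W : Type} [AddCommGroup W]

/-- the action of the automorphisms on the multiplicative group -/
def act (W : Type) [AddCommGroup W] : Au W →* MulAut (Multiplicative W) where
  toFun u := AddEquiv.toMultiplicative
    { toFun := fun w => u • w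
      invFun := fun w => u⁻¹ • w
      left_inv := fun w => inv_smul_smul u w
      right_inv := fun w => smul_inv_smul u w
      map_add' := fun v w => u.add v w }
  map_one' := by
    ext w
    change Multiplicative.ofAdd ((1 : Au W) • Multiplicative.toAdd w) = w
    rw [one_smul]
    rfl
  map_mul' u v := by
    ext w
    change Multiplicative.ofAdd ((u * v) • Multiplicative.toAdd w) =
      Multiplicative.ofAdd (u • v • Multiplicative.toAdd w)
    rw [mul_smul]

theorem act_apply (u : Au W) (w : W) : act W u (Multiplicative.ofAdd w) =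
    Multiplicative.ofAdd (u • w) := rfl

theorem act_injective : Function.Injective (act W) := by
  intro u v huv
  apply Units.ext
  apply LinearMap.ext
  intro w
  exact congrArg (fun f : MulAut (Multiplicative W) =>
    Multiplicative.toAdd (f (Multiplicative.ofAdd w))) huv

/-- the affine group -/
abbrev Aff (W : Type) [AddCommGroup W] : Type := Multiplicative W ⋊[act W] Au W

/-- the affine maps whose linear parts conjugate a power of `t` to a power of `t` -/
def 𝒢 (t : Au W) : Subgroup (Aff W) where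
  carrier := {g | ∃ a b : ℤ, 0 < a ∧ b ≠ 0 ∧ SemiconjBy g.right (t ^ a) (t ^ b)}
  one_mem' := ⟨1, 1, one_pos, one_ne_zero, SemiconjBy.one_left _⟩
  mul_mem' := by
    rintro g h ⟨a, b, ha, hb, h1⟩ ⟨c, d, hc, hd, h2⟩
    refine ⟨c * a, d * b, mul_pos hc ha, mul_ne_zero hd hb, ?_⟩
    have h3 := h2.zpow_right a
    have h4 := h1.zpow_right d
    rw [← zpow_mul, ← zpow_mul] at h3 h4
    rw [SemidirectProduct.mul_right]
    rw [mul_comm a d, mul_comm b d] at h4
    exact h4.mul_left h3
  inv_mem' := by
    rintro g ⟨a, b, ha, hb, h1⟩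
    have h2 : SemiconjBy g.right⁻¹ (t ^ b) (t ^ a) := h1.inv_symm_left
    rcases lt_or_gt_of_ne hb with h3 | h3
    · refine ⟨-b, -a, by omega, by omega, ?_⟩
      have h4 := h2.zpow_right (-1)
      rw [← zpow_mul, ← zpow_mul, mul_neg_one, mul_neg_one] at h4
      exact h4
    · exact ⟨b, a, h3, ha.ne', h2⟩

theorem mem_𝒢 {t : Au W} {g : Aff W} : g ∈ 𝒢 t ↔ ∃ a b : ℤ, 0 < a ∧ b ≠ 0 ∧
    SemiconjBy g.right (t ^ a) (t ^ b) := Iff.rfl

/-- the homomorphism to the linear parts has an abelian kernel -/
theorem ker_comm {Γ : Type} [Group Γ] (f : Γ →* Aff W) (hf : Function.Injective f) :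
    SM (SemidirectProduct.rightHom.comp f).ker ⊥ := by
  refine SM.of_comm ?_
  rw [Subgroup.commutator_le]
  intro x hx y hy
  rw [MonoidHom.mem_ker, MonoidHom.comp_apply] at hx hy
  rw [Subgroup.mem_bot, commutatorElement_eq_one_iff_mul_comm]
  apply hf
  rw [map_mul, map_mul]
  have hx' : (f x).right = 1 := hx
  have hy' : (f y).right = 1 := hy
  apply SemidirectProduct.ext
  · rw [SemidirectProduct.mul_left, SemidirectProduct.mul_left, hx', hy', map_one]
    exact mul_comm _ _
  · rw [SemidirectProduct.mul_right, SemidirectProduct.mul_right, hx', hy']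

theorem LV.of_finiteIndex {P : ∀ (K : Type) [Field K], Prop} {G : Type} [Group G]
    (A : Subgroup G) (hA : A.FiniteIndex) (h : LV P A) : LV P G := by
  intro L hL
  have hfg : Group.FG L := (Group.fg_iff_subgroup_fg L).2 hL
  have h1 : LV P (A.subgroupOf L) := by
    refine LV.of_injective ((L.subtype.comp (Subgroup.subtype _)).codRestrict A
      (fun x => Subgroup.mem_subgroupOf.1 x.2)) ?_ h
    intro x y hxy
    have h3 := congrArg Subtype.val hxy
    exact Subtype.ext (Subtype.ext h3)
  have h2 : (A.subgroupOf L).FiniteIndex := inferInstance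
  have h3 : Group.FG (A.subgroupOf L) := Subgroup.fg_of_index_ne_zero _
  have h4 := h1 ⊤ (Group.fg_def.1 h3)
  let e : (A.subgroupOf L) ≃* (⊤ : Subgroup (A.subgroupOf L)) := Subgroup.topEquiv.symm
  exact VSL.of_finiteIndex _ h2 (VSL.of_injective e.toMonoidHom e.injective h4)

/-- torsion-free modules of finite rank -/
theorem 𝒢_tf (hQ : ∀ n : ℕ, C (Matrix.GeneralLinearGroup (Fin n) ℚ)) (hR : FRank W)
    (htf : ∀ (n : ℕ) (w : W), 0 < n → n • w = 0 → w = 0) (t : Au W) :
    LV (fun K _ => ∀ n : ℕ, C (Matrix.GeneralLinearGroup (Fin n) K)) (𝒢 t) := by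
  have h1 : TFR (Multiplicative W) := by
    refine ⟨mul_comm, fun a n hn h => ?_, ?_⟩
    · exact htf n (Multiplicative.toAdd a) hn h
    · obtain ⟨F, hF⟩ := hR
      classical
      refine ⟨F.image Multiplicative.ofAdd, fun a => ?_⟩
      obtain ⟨n, hn, h⟩ := hF (Multiplicative.toAdd a)
      refine ⟨n, hn, ?_⟩
      have h3 : ∀ y : W, y ∈ AddSubgroup.closure (F : Set W) → Multiplicative.ofAdd y ∈
          Subgroup.closure ((F.image Multiplicative.ofAdd : Finset (Multiplicative W)) :
            Set (Multiplicative W)) := by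
        intro y hy
        induction hy using AddSubgroup.closure_induction with
        | mem y hy => exact Subgroup.subset_closure (by
            rw [Finset.coe_image]
            exact ⟨y, hy, rfl⟩)
        | zero => exact one_mem _
        | add a b _ _ ha hb => exact mul_mem ha hb
        | neg a _ ha => exact inv_mem ha
      exact h3 _ h
  have h2 := vsl_tfr (P := fun K _ => ∀ n : ℕ, C (Matrix.GeneralLinearGroup (Fin n) K)) _ h1 hQ
  have h3 := VSL.of_injective _ (act_injective (W := W)) h2
  refine LV.of_vsl (VSL.ext (SemidirectProduct.rightHom.comp (𝒢 t).subtype) ?_ h3)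
  exact VS.of_SM_ker _ (ker_comm _ (𝒢 t).subtype_injective)

/-- **the general case** -/
theorem 𝒢_mem (hC : Closed C)
    (hQ : ∀ n : ℕ, C (Matrix.GeneralLinearGroup (Fin n) ℚ))
    (hF : ∀ (p : ℕ) [Fact p.Prime] (n : ℕ),
      C (Matrix.GeneralLinearGroup (Fin n) (RatFunc (ZMod p))))
    {t : Au W} (ht : Reg t) (hG : FGen t) (hR : FRank W)
    (hab : ∀ (B : Au W) (a b : ℤ), 0 < a → b ≠ 0 → SemiconjBy B (t ^ a) (t ^ b) →
      b = a ∨ b = -a) :
    LV (fun K _ => ∀ n : ℕ, C (Matrix.GeneralLinearGroup (Fin n) K)) (𝒢 t) := by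
  classical
  let N : Subgroup (𝒢 t) :=
    { carrier := {g | ∃ a : ℕ, 0 < a ∧ Commute (g : Aff W).right (t ^ a)}
      one_mem' := ⟨1, one_pos, Commute.one_left _⟩
      mul_mem' := by
        rintro g h ⟨a, ha, h1⟩ ⟨b, hb, h2⟩
        refine ⟨a * b, Nat.mul_pos ha hb, ?_⟩
        have h3 := h1.pow_right b
        have h4 := h2.pow_right a
        rw [← pow_mul] at h3 h4
        rw [mul_comm b a] at h4
        exact h3.mul_left h4
      inv_mem' := by
        rintro g ⟨a, ha, h1⟩
        exact ⟨a, ha, h1.inv_left⟩ }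
  have hN : ∀ g, g ∈ N ↔ ∃ a : ℕ, 0 < a ∧ Commute (g : Aff W).right (t ^ a) := fun _ => Iff.rfl
  have hfi : N.FiniteIndex := by
    have h1 : ∀ g h : 𝒢 t, g ∉ N → h ∉ N → g⁻¹ * h ∈ N := by
      intro g h hg hh
      have hneg : ∀ g : 𝒢 t, g ∉ N → ∃ a : ℕ, 0 < a ∧
          SemiconjBy (g : Aff W).right (t ^ (a : ℤ)) (t ^ (-(a : ℤ))) := by
        intro g hg
        obtain ⟨a, b, ha, hb, h1⟩ := g.2
        lift a to ℕ using ha.le
        rcases hab _ a b ha hb h1 with rfl | rfl
        · exact absurd ((hN g).2 ⟨a, by exact_mod_cast ha, by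
            rw [zpow_natCast] at h1
            exact h1⟩) hg
        · exact ⟨a, by exact_mod_cast ha, h1⟩
      obtain ⟨a, ha, h1⟩ := hneg g hg
      obtain ⟨b, hb, h2⟩ := hneg h hh
      refine ⟨a * b, Nat.mul_pos ha hb, ?_⟩
      have h3 : SemiconjBy (g : Aff W).right (t ^ ((a * b : ℕ) : ℤ)) (t ^ (-((a * b : ℕ) : ℤ))) := by
        have := h1.zpow_right (b : ℤ)
        rw [← zpow_mul, ← zpow_mul] at this
        push_cast
        rw [← neg_mul]
        exact this
      have h4 : SemiconjBy (h : Aff W).right (t ^ ((a * b : ℕ) : ℤ)) (t ^ (-((a * b : ℕ) : ℤ))) := by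
        have := h2.zpow_right (a : ℤ)
        rw [← zpow_mul, ← zpow_mul] at this
        push_cast
        rw [mul_comm (a : ℤ) b, ← neg_mul]
        exact this
      have h5 := h3.inv_symm_left.mul_left h4
      rw [zpow_natCast] at h5
      exact h5
    have h2 : Finite (𝒢 t ⧸ N) := by
      refine Finite.of_injective (fun q : 𝒢 t ⧸ N => decide (q = ((1 : 𝒢 t) : 𝒢 t ⧸ N))) ?_
      intro q q' hqq
      induction q using QuotientGroup.induction_on with
      | H g =>
      induction q' using QuotientGroup.induction_on with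
      | H h =>
      have h3 : ∀ k : 𝒢 t, (k : 𝒢 t ⧸ N) = ((1 : 𝒢 t) : 𝒢 t ⧸ N) ↔ k ∈ N := by
        intro k
        rw [eq_comm, QuotientGroup.eq, inv_one, one_mul]
      simp only [h3] at hqq
      by_cases hg : g ∈ N
      · have hh : h ∈ N := by simpa [hg] using hqq
        rw [QuotientGroup.eq]
        exact mul_mem (inv_mem hg) hh
      · have hh : h ∉ N := by simpa [hg] using hqq
        rw [QuotientGroup.eq]
        exact h1 g h hg hh
    exact Subgroup.finiteIndex_of_finite_quotient
  refine LV.of_finiteIndex N hfi ?_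
  intro L hL
  obtain ⟨s, hs⟩ := hL
  -- a common exponent
  choose! a ha hcomm using fun g : N => (hN g).1 g.2
  have hprod : ∀ g ∈ s, ∃ k : ℕ, (∏ x ∈ s, a x) = a g * k := fun g hg =>
    Finset.dvd_prod_of_mem a hg
  have hpos : 0 < ∏ x ∈ s, a x := Finset.prod_pos (fun x _ => ha x)
  have hL' : ∀ g ∈ L, Commute ((g : 𝒢 t) : Aff W).right (t ^ (∏ x ∈ s, a x)) := by
    intro g hg
    rw [← hs] at hg
    induction hg using Subgroup.closure_induction with
    | mem g hg =>
      obtain ⟨k, hk⟩ := hprod g hg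
      rw [hk, pow_mul]
      exact (hcomm g).pow_right k
    | one => exact Commute.one_left _
    | mul g h _ _ hg hh => exact hg.mul_left hh
    | inv g _ hg => exact hg.inv_left
  let f : L →* Aff W := (𝒢 t).subtype.comp (N.subtype.comp L.subtype)
  have hf : Function.Injective f :=
    (𝒢 t).subtype_injective.comp (N.subtype_injective.comp L.subtype_injective)
  obtain ⟨M, hM1, hM2⟩ := lk_comm hC hQ hF ht hG hR hpos (SemidirectProduct.rightHom.comp f)
    (fun γ => hL' γ γ.2)
  exact SL.vsl ⟨M, hM1, hM2.trans (ker_comm f hf)⟩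

end Pool.Agent.Helper84.Cm
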