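import Pool.Agent.Helper84.Cm.B

/-!
# A counting argument: powers of `t` which are conjugate when there is torsion
-/

set_option autoImplicit false

open Polynomial

namespace Pool.Agent.Helper84.Cm

variable {W : Type} [AddCommGroup W]

/-- a nonzero polynomial over a finite prime field divides some `X ^ e * (X ^ k - 1)` -/
theorem exists_dvd_modp (p : ℕ) [Fact p.Prime] (F : (ZMod p)[X]) (hF : F ≠ 0) :
    ∃ e k : ℕ, 0 < k ∧ F ∣ X ^ e * (X ^ k - 1) := by
  have hfin : Finite (AdjoinRoot F) := by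
    have := (AdjoinRoot.powerBasis hF).finite
    exact Module.finite_of_finite (ZMod p)
  obtain ⟨x, y, hxy, h⟩ := Finite.exists_ne_map_eq_of_infinite
    (fun n : ℕ => (AdjoinRoot.root F) ^ n)
  wlog hlt : x < y generalizing x y
  · exact this y x hxy.symm h.symm (by omega)
  refine ⟨x, y - x, by omega, ?_⟩
  rw [← AdjoinRoot.mk_eq_zero, map_mul, map_sub, map_pow, map_pow, map_one, AdjoinRoot.mk_X,
    mul_sub, mul_one, ← pow_add, Nat.add_sub_cancel' hlt.le, sub_eq_zero]
  exact h.symm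

theorem aeval_modp (t : Au W) {p : ℕ} {P : ℤ[X]}
    (hP : P.map (Int.castRingHom (ZMod p)) = 0) {v : W} (hv : (p : ℤ) • v = 0) :
    aeval (lin t) P v = 0 := by
  have h1 : (C (p : ℤ)) ∣ P := by
    rw [C_dvd_iff_dvd_coeff]
    intro i
    have h2 := congrArg (fun f => f.coeff i) hP
    simp only [coeff_map, coeff_zero] at h2
    exact (ZMod.intCast_zmod_eq_zero_iff_dvd _ _).1 h2
  obtain ⟨Q, rfl⟩ := h1
  rw [mul_comm, map_mul, aeval_C, Module.End.mul_apply]
  have h2 : (algebraMap ℤ (Module.End ℤ W) (p : ℤ)) v = (p : ℤ) • v := rfl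
  rw [h2, hv, map_zero]

theorem inj_modp {t : Au W} (ht : Reg t) {p : ℕ} [Fact p.Prime] {F : ℤ[X]}
    (hF : F.map (Int.castRingHom (ZMod p)) ≠ 0) {v : W} (hv : (p : ℤ) • v = 0)
    (h : aeval (lin t) F v = 0) : v = 0 := by
  obtain ⟨e, k, hk, G, hG⟩ := exists_dvd_modp p _ hF
  obtain ⟨G, rfl⟩ := Polynomial.map_surjective (Int.castRingHom (ZMod p))
    (ZMod.intCast_surjective) G
  have h1 : (X ^ e * (X ^ k - 1) - F * G : ℤ[X]).map (Int.castRingHom (ZMod p)) = 0 := by
    rw [Polynomial.map_sub, Polynomial.map_mul, Polynomial.map_mul, Polynomial.map_pow,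
      Polynomial.map_sub, Polynomial.map_pow, Polynomial.map_X, Polynomial.map_one, hG, sub_self]
  have h2 := aeval_modp t h1 hv
  rw [map_sub, LinearMap.sub_apply, mul_comm F G, map_mul, map_mul, Module.End.mul_apply,
    Module.End.mul_apply, h, map_zero, sub_zero, aeval_Xpow, map_sub, map_one, LinearMap.sub_apply,
    aeval_Xpow] at h2
  have h3 : t ^ k • v - v = 0 := by
    have h4 := (t ^ e).bij.1
    apply h4
    change t ^ e • (t ^ k • v - v) = t ^ e • (0 : W)
    rw [smul_zero]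
    exact h2
  apply (ht k hk).1
  change t ^ k • v - v = t ^ k • (0 : W) - 0
  rw [h3, smul_zero, sub_zero]

/-- decomposition with respect to the residues of the exponents -/
theorem exists_decomp (N : ℕ) (hN : 0 < N) (g : ℤ[X]) : ∃ c : Fin N → ℤ[X],
    g = ∑ i : Fin N, X ^ (i : ℕ) * expand ℤ N (c i) := by
  classical
  induction g using Polynomial.induction_on' with
  | add p q hp hq =>
    obtain ⟨c, hc⟩ := hp
    obtain ⟨d, hd⟩ := hq
    refine ⟨c + d, ?_⟩
    conv_lhs => rw [hc, hd]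
    rw [← Finset.sum_add_distrib]
    refine Finset.sum_congr rfl fun i _ => ?_
    rw [Pi.add_apply, map_add, mul_add]
  | monomial n a =>
    refine ⟨Pi.single ⟨n % N, Nat.mod_lt _ hN⟩ (monomial (n / N) a), ?_⟩
    rw [Finset.sum_eq_single ⟨n % N, Nat.mod_lt _ hN⟩]
    · rw [Pi.single_eq_same, expand_monomial, X_pow_mul_monomial]
      exact congrArg (fun m : ℕ => (monomial m) a) (Nat.div_add_mod' n N).symm
    · intro b _ hb
      rw [Pi.single_eq_of_ne hb, map_zero, mul_zero]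
    · intro h; exact absurd (Finset.mem_univ _) h

theorem coeff_decomp {R : Type} [CommRing R] (N : ℕ) (hN : 0 < N) (c : Fin N → R[X]) (i : Fin N)
    (k : ℕ) : (∑ j : Fin N, X ^ (j : ℕ) * expand R N (c j)).coeff (k * N + i) = (c i).coeff k := by
  rw [finsetSum_coeff, Finset.sum_eq_single i]
  · rw [coeff_X_pow_mul', if_pos (Nat.le_add_left _ _), Nat.add_sub_cancel, coeff_expand hN,
      if_pos (dvd_mul_left _ _), Nat.mul_div_cancel _ hN]
  · intro j _ hj
    rw [coeff_X_pow_mul']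
    split_ifs with h1
    · rw [coeff_expand hN, if_neg]
      rintro ⟨q, hq⟩
      apply hj
      apply Fin.ext
      have h2 : k * N + (i : ℕ) = N * q + j := by omega
      have h3 : (k * N + (i : ℕ)) % N = (N * q + j) % N := by rw [h2]
      rw [mul_comm k N, Nat.mul_add_mod, Nat.mul_add_mod, Nat.mod_eq_of_lt i.2,
        Nat.mod_eq_of_lt j.2] at h3
      exact h3.symm
    · rfl
  · intro h; exact absurd (Finset.mem_univ _) h

/-- **lower bound** -/
theorem lower {t : Au W} (ht : Reg t) {p : ℕ} [Fact p.Prime] {v : W} (hv : (p : ℤ) • v = 0)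
    (hv0 : v ≠ 0) (N : ℕ) (hN : 0 < N) (f : Fin N → ℤ[X])
    (hf : ∃ i, (f i).map (Int.castRingHom (ZMod p)) ≠ 0) :
    ∑ i : Fin N, aeval (lin (t ^ N)) (f i) (t ^ (i : ℕ) • v) ≠ 0 := by
  intro h0
  obtain ⟨i, hi⟩ := hf
  have h1 : aeval (lin t) (∑ i : Fin N, X ^ (i : ℕ) * expand ℤ N (f i)) v = 0 := by
    rw [map_sum, LinearMap.sum_apply, ← h0]
    refine Finset.sum_congr rfl fun i _ => ?_
    rw [mul_comm, map_mul, Module.End.mul_apply, aeval_Xpow, aeval_pow_apply]
  refine hv0 (inj_modp ht ?_ hv h1)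
  intro h2
  apply hi
  ext k
  rw [coeff_zero]
  have h3 := congrArg (fun g => g.coeff (k * N + i)) h2
  simp only [coeff_zero, coeff_map] at h3
  rw [coeff_decomp N hN] at h3
  rw [coeff_map]
  exact h3

/-- dividing a relation by powers of `p` -/
theorem purify {ι J : Type} [Fintype ι] (p : ℕ) [Fact p.Prime] (γ : ι → J → ℤ[X]) :
    ∀ (m : ℕ) (f : ι → ℤ[X]) (i₀ : ι) (k₀ : ℕ), (f i₀).coeff k₀ ≠ 0 →
      ((f i₀).coeff k₀).natAbs ≤ m → (∀ j, ∑ i, f i * γ i j = 0) →
      ∃ g : ι → ℤ[X], (∃ i, (g i).map (Int.castRingHom (ZMod p)) ≠ 0) ∧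
        ∀ j, ∑ i, g i * γ i j = 0 := by
  intro m
  induction m with
  | zero =>
    intro f i₀ k₀ h1 h2 _
    exact absurd (Int.natAbs_eq_zero.1 (Nat.le_zero.1 h2)) h1
  | succ m ih =>
    intro f i₀ k₀ h1 h2 h3
    by_cases h4 : ∃ i, (f i).map (Int.castRingHom (ZMod p)) ≠ 0
    · exact ⟨f, h4, h3⟩
    push Not at h4
    have h5 : ∀ i, ∃ g : ℤ[X], f i = C (p : ℤ) * g := by
      intro i
      have h1 : (C (p : ℤ)) ∣ f i := by
        rw [C_dvd_iff_dvd_coeff]
        intro k
        have h2 := congrArg (fun f => f.coeff k) (h4 i)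
        simp only [coeff_map, coeff_zero] at h2
        exact (ZMod.intCast_zmod_eq_zero_iff_dvd _ _).1 h2
      exact h1
    choose g hg using h5
    have hp : (p : ℤ) ≠ 0 := by exact_mod_cast (Fact.out : p.Prime).ne_zero
    have h6 : (f i₀).coeff k₀ = p * (g i₀).coeff k₀ := by rw [hg, coeff_C_mul]
    refine ih g i₀ k₀ ?_ ?_ ?_
    · intro h7
      rw [h7, mul_zero] at h6
      exact h1 h6
    · have h7 : 0 < ((g i₀).coeff k₀).natAbs := by
        rw [Int.natAbs_pos]
        intro h7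
        rw [h7, mul_zero] at h6
        exact h1 h6
      rw [h6, Int.natAbs_mul, Int.natAbs_natCast] at h2
      have h8 : 2 ≤ p := (Fact.out : p.Prime).two_le
      nlinarith
    · intro j
      have h7 := h3 j
      have h8 : ∑ i, f i * γ i j = C (p : ℤ) * ∑ i, g i * γ i j := by
        rw [Finset.mul_sum]
        refine Finset.sum_congr rfl fun i _ => ?_
        rw [hg, mul_assoc]
      rw [h8] at h7
      rcases mul_eq_zero.1 h7 with h9 | h9
      · exact absurd (C_eq_zero.1 h9) hp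
      · exact h9

theorem aeval_inj {t : Au W} (ht : Reg t) {s : ℤ[X]} (hs : s ∈ S) {w : W}
    (h : aeval (lin t) s w = 0) : w = 0 := by
  have h1 := (smul_bij ht hs).1
  have h2 : s • Module.AEval'.of (lin t) w = s • (0 : Module.AEval' (lin t)) := by
    rw [smul_zero, ← Module.AEval.of_aeval_smul]
    change Module.AEval'.of (lin t) (aeval (lin t) s w) = 0
    rw [h, map_zero]
  exact (Module.AEval'.of (lin t)).map_eq_zero_iff.1 (h1 h2)

/-- **upper bound** -/
theorem upper {t : Au W} (ht : Reg t) (p : ℕ) [Fact p.Prime] {Z : Finset W}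
    (hZ : ∀ w : W, ∃ s ∈ S, ∃ c : W → ℤ[X],
      aeval (lin t) s w = ∑ z ∈ Z, aeval (lin t) (c z) z) (N : ℕ) (hN : 0 < N) (n : ℕ)
    (hn : Z.card * N < n) (v : Fin n → W) : ∃ f : Fin n → ℤ[X],
      (∃ i, (f i).map (Int.castRingHom (ZMod p)) ≠ 0) ∧
        ∑ i, aeval (lin (t ^ N)) (f i) (v i) = 0 := by
  classical
  choose s hs c hc using fun i => hZ (v i)
  have hdvd : ∀ i, s i ∣ ∏ i, s i := fun i => Finset.dvd_prod_of_mem s (Finset.mem_univ i)
  choose s' hs' using hdvd
  have hsS : ∏ i, s i ∈ S := Submonoid.prod_mem S (fun i _ => hs i)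
  have h1 : ∀ i, aeval (lin t) (∏ i, s i) (v i) =
      ∑ z ∈ Z, aeval (lin t) (s' i * c i z) z := by
    intro i
    rw [hs' i, mul_comm, map_mul, Module.End.mul_apply, hc, map_sum]
    refine Finset.sum_congr rfl fun z _ => ?_
    rw [map_mul, Module.End.mul_apply]
  choose γ hγ using fun (i : Fin n) (z : W) => exists_decomp N hN (s' i * c i z)
  -- a relation
  let vec : Fin n → (Z × Fin N → ℤ[X]) := fun i x => γ i x.1 x.2
  have h2 : ¬ LinearIndependent ℤ[X] vec := by
    intro hli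
    have h5 := hli.fintype_card_le_finrank
    rw [Fintype.card_fin, Module.finrank_fintype_fun_eq_card, Fintype.card_prod, Fintype.card_coe,
      Fintype.card_fin] at h5
    omega
  rw [Fintype.not_linearIndependent_iff] at h2
  obtain ⟨f₀, hf₀, i₀, hi₀⟩ := h2
  obtain ⟨k₀, hk₀⟩ : ∃ k, (f₀ i₀).coeff k ≠ 0 := by
    by_contra h
    push Not at h
    exact hi₀ (Polynomial.ext h)
  obtain ⟨f, hf, hfrel⟩ := purify p vec _ f₀ i₀ k₀ hk₀ le_rfl (by
    intro j
    have := congrFun hf₀ j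
    simpa only [Finset.sum_apply, Pi.smul_apply, smul_eq_mul, Pi.zero_apply] using this)
  refine ⟨f, hf, aeval_inj ht hsS ?_⟩
  rw [map_sum]
  have h3 : ∀ i, aeval (lin t) (∏ i, s i) (aeval (lin (t ^ N)) (f i) (v i)) =
      ∑ z ∈ Z, aeval (lin t) (expand ℤ N (f i) * (s' i * c i z)) z := by
    intro i
    rw [aeval_pow_apply, ← Module.End.mul_apply, ← map_mul, mul_comm, map_mul,
      Module.End.mul_apply, h1, map_sum]
    refine Finset.sum_congr rfl fun z _ => ?_
    rw [map_mul (aeval (lin t)) (expand ℤ N (f i)), Module.End.mul_apply]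
  rw [Finset.sum_congr rfl (fun i _ => h3 i), Finset.sum_comm]
  refine Finset.sum_eq_zero fun z hz => ?_
  rw [← LinearMap.sum_apply, ← map_sum]
  have h4 : ∑ i, expand ℤ N (f i) * (s' i * c i z) = 0 := by
    have h5 : ∀ i, expand ℤ N (f i) * (s' i * c i z) =
        ∑ j : Fin N, X ^ (j : ℕ) * expand ℤ N (f i * γ i z j) := by
      intro i
      rw [hγ i z, Finset.mul_sum]
      refine Finset.sum_congr rfl fun j _ => ?_
      rw [map_mul]
      ring
    rw [Finset.sum_congr rfl (fun i _ => h5 i), Finset.sum_comm]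
    refine Finset.sum_eq_zero fun j _ => ?_
    rw [← Finset.mul_sum, ← map_sum]
    have h6 := hfrel (⟨z, hz⟩, j)
    rw [h6, map_zero, mul_zero]
  rw [h4, map_zero, LinearMap.zero_apply]

theorem semi_pow {B t : Au W} {a b : ℕ} (h : SemiconjBy B (t ^ a) (t ^ b)) (n : ℕ) :
    SemiconjBy (B ^ n) (t ^ a ^ n) (t ^ b ^ n) := by
  induction n with
  | zero => rw [pow_zero, pow_zero, pow_zero]; exact SemiconjBy.one_left _
  | succ n ih =>
    have h1 := ih.pow_right a
    have h2 := h.pow_right (b ^ n)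
    rw [← pow_mul, ← pow_mul] at h1 h2
    rw [pow_succ', pow_succ, pow_succ']
    rw [mul_comm a (b ^ n)] at h2
    exact h2.mul_left h1

theorem semi_aeval {B x y : Au W} (h : SemiconjBy B x y) (f : ℤ[X]) (w : W) :
    B • (aeval (lin x) f w) = aeval (lin y) f (B • w) := by
  induction f using Polynomial.induction_on' with
  | add p q hp hq =>
    rw [map_add, map_add, LinearMap.add_apply, LinearMap.add_apply, B.add, hp, hq]
  | monomial n a =>
    rw [← C_mul_X_pow_eq_monomial, map_mul, map_mul, aeval_C, aeval_C, Module.End.mul_apply,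
      Module.End.mul_apply, aeval_Xpow, aeval_Xpow]
    change B • (a • (x ^ n • w)) = a • (y ^ n • (B • w))
    have h1 : B • (a • (x ^ n • w)) = a • (B • (x ^ n • w)) :=
      map_zsmul (B : Module.End ℤ W) a (x ^ n • w)
    rw [h1, ← mul_smul, ← mul_smul, (h.pow_right n).eq]

/-- **positive powers of `t` which are conjugate are equal if there is torsion** -/
theorem le_of_semi {t : Au W} (ht : Reg t) (hG : FGen t) {p : ℕ} [Fact p.Prime] {v : W}
    (hv : (p : ℤ) • v = 0) (hv0 : v ≠ 0) {B : Au W} {a b : ℕ} (ha : 0 < a) (hb : 0 < b)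
    (h : SemiconjBy B (t ^ a) (t ^ b)) : b ≤ a := by
  by_contra hlt
  push Not at hlt
  obtain ⟨Z, hZ⟩ := hG
  have h1 : (1 : ℚ) < (b : ℚ) / a := by
    rw [lt_div_iff₀ (by exact_mod_cast ha), one_mul]
    exact_mod_cast hlt
  obtain ⟨n, hn⟩ := pow_unbounded_of_one_lt (Z.card : ℚ) h1
  have h2 : Z.card * a ^ n < b ^ n := by
    rw [div_pow, lt_div_iff₀ (by positivity)] at hn
    exact_mod_cast hn
  have h3 := semi_pow h n
  obtain ⟨f, hf, hsum⟩ := upper ht p hZ (a ^ n) (Nat.pow_pos ha) (b ^ n) h2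
    (fun i => (B ^ n)⁻¹ • (t ^ (i : ℕ) • v))
  refine lower ht hv hv0 (b ^ n) (Nat.pow_pos hb) f hf ?_
  have h4 := congrArg (fun w => (B ^ n) • w) hsum
  simp only [smul_zero] at h4
  have h5 : (B ^ n) • (∑ i, aeval (lin (t ^ a ^ n)) (f i) ((B ^ n)⁻¹ • (t ^ (i : ℕ) • v))) =
      ∑ i, (B ^ n) • (aeval (lin (t ^ a ^ n)) (f i) ((B ^ n)⁻¹ • (t ^ (i : ℕ) • v))) :=
    map_sum ((B ^ n : Au W) : Module.End ℤ W) _ _
  rw [h5] at h4
  rw [← h4]
  refine Finset.sum_congr rfl fun i _ => ?_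
  rw [semi_aeval h3, smul_inv_smul]

/-- **the exponents** -/
theorem hab {t : Au W} (ht : Reg t) (hG : FGen t) {p : ℕ} [Fact p.Prime] {v : W}
    (hv : (p : ℤ) • v = 0) (hv0 : v ≠ 0) (B : Au W) (a b : ℤ) (ha : 0 < a) (hb : b ≠ 0)
    (h : SemiconjBy B (t ^ a) (t ^ b)) : b = a ∨ b = -a := by
  have h1 : SemiconjBy (B * B) (t ^ (a * a)) (t ^ (b * b)) := by
    have h2 := h.zpow_right a
    have h3 := h.zpow_right b
    rw [← zpow_mul, ← zpow_mul] at h2 h3
    rw [mul_comm b a] at h2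
    exact h3.mul_left h2
  have h4 : ((a.natAbs * a.natAbs : ℕ) : ℤ) = a * a := Int.natAbs_mul_self
  have h5 : ((b.natAbs * b.natAbs : ℕ) : ℤ) = b * b := Int.natAbs_mul_self
  rw [← h4, ← h5, zpow_natCast, zpow_natCast] at h1
  have ha' : 0 < a.natAbs * a.natAbs := by
    have := Int.natAbs_pos.2 ha.ne'
    positivity
  have hb' : 0 < b.natAbs * b.natAbs := by
    have := Int.natAbs_pos.2 hb
    positivity
  have h6 := le_of_semi ht hG hv hv0 ha' hb' h1
  have h7 := le_of_semi ht hG hv hv0 hb' ha' h1.inv_symm_left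
  have h8 : b.natAbs = a.natAbs := Nat.mul_self_inj.1 (le_antisymm h6 h7)
  exact Int.natAbs_eq_natAbs_iff.1 h8

end Pool.Agent.Helper84.Cm
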