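import Pool.Graph.R_pool_sql_team_seeded_64922ed1.X201.FJ.AComm

/-!
# Embedding the abstract commensurator
-/

set_option autoImplicit false

namespace Pool.Agent.Helper84.Cm

open Pool.Agent.X201.FJ Pool.Agent.X201.FJ.AC

section emb

variable {E P : Type} [Group E] [Group P] (E₀ : Subgroup E) (ρ : E₀ →* P)

/-- `g` intertwines `f` on a subgroup of finite index -/
def Tw (f : E → E) (g : P) : Prop := ∃ L : Subgroup E, L.FiniteIndex ∧ ∀ x ∈ L,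
  ∃ (h : x ∈ E₀) (h' : f x ∈ E₀), g * ρ ⟨x, h⟩ = ρ ⟨f x, h'⟩ * g

variable {E₀ ρ}

theorem Tw.uniq {𝒢 : Subgroup P}
    (U : ∀ g ∈ 𝒢, (∃ L : Subgroup E, L.FiniteIndex ∧ ∀ x ∈ L, ∃ h : x ∈ E₀,
      g * ρ ⟨x, h⟩ = ρ ⟨x, h⟩ * g) → g = 1)
    {f f' : E → E} {g g' : P} (h : Tw E₀ ρ f g) (h' : Tw E₀ ρ f' g') (hg : g ∈ 𝒢) (hg' : g' ∈ 𝒢)
    (hff : ∃ A : Subgroup E, A.FiniteIndex ∧ ∀ a ∈ A, f a = f' a) : g = g' := by
  obtain ⟨L, hL, h⟩ := h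
  obtain ⟨L', hL', h'⟩ := h'
  obtain ⟨A, hA, hff⟩ := hff
  have h1 : g'⁻¹ * g = 1 := by
    refine U _ (mul_mem (inv_mem hg') hg) ⟨L ⊓ L' ⊓ A, inferInstance, ?_⟩
    intro x hx
    obtain ⟨h1, h2, h3⟩ := h x hx.1.1
    obtain ⟨h4, h5, h6⟩ := h' x hx.1.2
    refine ⟨h1, ?_⟩
    have h7 : (⟨f x, h2⟩ : E₀) = ⟨f' x, h5⟩ := Subtype.ext (hff x hx.2)
    rw [h7] at h3
    rw [mul_assoc, h3]
    have h8 : ρ ⟨f' x, h5⟩ = g' * ρ ⟨x, h4⟩ * g'⁻¹ := by rw [h6]; group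
    rw [h8]
    group
  exact (inv_mul_eq_one.1 h1).symm

theorem Tw.comp {f f' : E → E} {g g' : P} (hf' : IsVA f') (h : Tw E₀ ρ f g)
    (h' : Tw E₀ ρ f' g') : Tw E₀ ρ (f ∘ f') (g * g') := by
  obtain ⟨L, hL, h⟩ := h
  obtain ⟨L', hL', h'⟩ := h'
  obtain ⟨A, hA, hAL⟩ := isVA_pre hf' L hL
  refine ⟨A ⊓ L', inferInstance, ?_⟩
  intro x hx
  obtain ⟨h1, h2, h3⟩ := h' x hx.2
  obtain ⟨h4, h5, h6⟩ := h (f' x) (hAL x hx.1)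
  refine ⟨h1, h5, ?_⟩
  rw [mul_assoc, h3, ← mul_assoc, h6, mul_assoc]
  rfl

theorem Tw.one (hfi : E₀.FiniteIndex) : Tw E₀ ρ id 1 :=
  ⟨E₀, hfi, fun x hx => ⟨hx, hx, by rw [one_mul, mul_one]; rfl⟩⟩

/-- **the abstract commensurator embeds** -/
theorem emb (hfi : E₀.FiniteIndex) (hρ : Function.Injective ρ) {𝒢 : Subgroup P}
    (U : ∀ g ∈ 𝒢, (∃ L : Subgroup E, L.FiniteIndex ∧ ∀ x ∈ L, ∃ h : x ∈ E₀,
      g * ρ ⟨x, h⟩ = ρ ⟨x, h⟩ * g) → g = 1)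
    (Ex : ∀ f : E → E, IsVA f → ∃ g ∈ 𝒢, Tw E₀ ρ f g) :
    ∃ j : AbsComm E →* 𝒢, Function.Injective j := by
  classical
  have h1 : ∀ x : AbsComm E, ∃ g ∈ 𝒢, ∀ (f : E → E) (hf : IsVA f), AbsComm.mk f hf = x →
      Tw E₀ ρ f g := by
    intro x
    induction x using AbsComm.ind with
    | h f₀ hf₀ =>
    obtain ⟨g, hg, L, hL, h⟩ := Ex f₀ hf₀
    refine ⟨g, hg, fun f hf hff => ?_⟩
    obtain ⟨A, hA, h2⟩ := AbsComm.mk_eq.1 hff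
    refine ⟨L ⊓ A, inferInstance, fun x hx => ?_⟩
    obtain ⟨h3, h4, h5⟩ := h x hx.1
    have h6 : f x = f₀ x := h2 x hx.2
    refine ⟨h3, by rw [h6]; exact h4, ?_⟩
    rw [h5]
    congr 3
    exact h6.symm
  choose J hJ𝒢 hJ using h1
  refine ⟨{ toFun := fun x => ⟨J x, hJ𝒢 x⟩, map_one' := ?_, map_mul' := ?_ }, ?_⟩
  · apply Subtype.ext
    exact (hJ 1 id isVA_one rfl).uniq U (Tw.one hfi) (hJ𝒢 1) (one_mem _)
      ⟨⊤, inferInstance, fun _ _ => rfl⟩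
  · intro x y
    apply Subtype.ext
    induction x using AbsComm.ind with
    | h f hf =>
    induction y using AbsComm.ind with
    | h f' hf' =>
    exact (hJ _ (f ∘ f') (isVA_comp hf' hf) rfl).uniq U
      ((hJ _ f hf rfl).comp hf' (hJ _ f' hf' rfl)) (hJ𝒢 _) (mul_mem (hJ𝒢 _) (hJ𝒢 _))
      ⟨⊤, inferInstance, fun _ _ => rfl⟩
  · rw [injective_iff_map_eq_one]
    intro x hx
    have h2 : J x = 1 := congrArg Subtype.val hx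
    induction x using AbsComm.ind with
    | h f hf =>
    obtain ⟨L, hL, h3⟩ := hJ _ f hf rfl
    rw [h2] at h3
    rw [AbsComm.one_def, AbsComm.mk_eq]
    refine ⟨L, hL, fun a ha => ?_⟩
    obtain ⟨h4, h5, h6⟩ := h3 a ha
    rw [one_mul, mul_one] at h6
    exact (congrArg Subtype.val (hρ h6)).symm

end emb

end Pool.Agent.Helper84.Cm
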