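import Pool.Agent.Helper84.Cm.G

/-!
# The module of fractions of a group which is abelian-by-(infinite cyclic)
-/

set_option autoImplicit false

open Polynomial

namespace Pool.Agent.Helper84.Cm

/-- finite rank gives polynomial relations -/
theorem exists_rel' {W : Type} [AddCommGroup W] (hR : FRank W) (u : Module.End ℤ W) (w : W) :
    ∃ f : ℤ[X], f ≠ 0 ∧ aeval u f w = 0 := by
  classical
  obtain ⟨F, hF⟩ := hR
  let N := F.card
  choose n hn hnF using fun i : Fin (N + 1) => hF ((u ^ (i : ℕ)) w)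
  have h1 : ∀ i : Fin (N + 1), ∃ c : F → ℤ, n i • ((u ^ (i : ℕ)) w) = ∑ x : F, c x • (x : W) := by
    intro i
    have h2 := hnF i
    have h3 : n i • ((u ^ (i : ℕ)) w) ∈ Submodule.span ℤ (F : Set W) := by
      rw [← Submodule.mem_toAddSubgroup, Submodule.span_int_eq_addSubgroupClosure]
      exact h2
    rw [Submodule.mem_span_finset] at h3
    obtain ⟨c, -, hc⟩ := h3
    refine ⟨fun x => c x, ?_⟩
    rw [← hc, ← Finset.sum_coe_sort]
  choose c hc using h1
  have h4 : ¬ LinearIndependent ℤ c := by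
    intro hli
    have h5 := hli.fintype_card_le_finrank
    rw [Fintype.card_fin, Module.finrank_fintype_fun_eq_card, Fintype.card_coe] at h5
    omega
  rw [Fintype.not_linearIndependent_iff] at h4
  obtain ⟨g, hg, i₀, hi₀⟩ := h4
  refine ⟨∑ i : Fin (N + 1), C (g i * n i) * X ^ (i : ℕ), ?_, ?_⟩
  · intro h0
    have h5 := congrArg (fun f : ℤ[X] => f.coeff (i₀ : ℕ)) h0
    simp only [finsetSum_coeff, coeff_C_mul, coeff_X_pow, coeff_zero] at h5
    rw [Finset.sum_eq_single i₀] at h5
    · rw [if_pos rfl, mul_one] at h5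
      rcases mul_eq_zero.1 h5 with h6 | h6
      · exact hi₀ h6
      · exact (hn i₀).ne' (by exact_mod_cast h6)
    · intro b _ hb
      rw [if_neg (fun h => hb (Fin.ext h.symm)), mul_zero]
    · intro h; exact absurd (Finset.mem_univ _) h
  · rw [map_sum, LinearMap.sum_apply]
    have h5 : ∀ i : Fin (N + 1), aeval u (C (g i * n i) * X ^ (i : ℕ) : ℤ[X]) w =
        ∑ x : F, (g i * c i x) • (x : W) := by
      intro i
      have h6 : aeval u (C (g i * n i) * X ^ (i : ℕ) : ℤ[X]) w =
          (g i * n i) • ((u ^ (i : ℕ)) w) := by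
        rw [map_mul, aeval_C, Module.End.mul_apply, map_pow, aeval_X]
        rfl
      rw [h6, mul_smul]
      have h7 : ((n i : ℤ)) • ((u ^ (i : ℕ)) w) = n i • ((u ^ (i : ℕ)) w) := natCast_zsmul _ _
      rw [h7, hc i, Finset.smul_sum]
      refine Finset.sum_congr rfl fun x _ => ?_
      rw [mul_smul]
    rw [Finset.sum_congr rfl (fun i _ => h5 i), Finset.sum_comm]
    refine Finset.sum_eq_zero fun x _ => ?_
    rw [← Finset.sum_smul]
    have h6 := congrFun hg x
    simp only [Finset.sum_apply, Pi.smul_apply, smul_eq_mul, Pi.zero_apply] at h6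
    rw [h6, zero_smul]

/-- injective endomorphisms of groups of finite rank are surjective up to torsion -/
theorem inj_endo {W : Type} [AddCommGroup W] (hR : FRank W) (u : Module.End ℤ W)
    (hu : ∀ w, u w = 0 → w = 0) (w : W) : ∃ n : ℕ, 0 < n ∧ ∃ w', n • w = u w' := by
  have key : ∀ (d : ℕ) (f : ℤ[X]), f ≠ 0 → f.natDegree ≤ d → aeval u f w = 0 →
      ∃ n : ℕ, 0 < n ∧ ∃ w', n • w = u w' := by
    intro d
    induction d with
    | zero =>
      intro f hf hd h
      obtain ⟨c, rfl⟩ := natDegree_eq_zero.1 (Nat.le_zero.1 hd)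
      have hc : c ≠ 0 := fun h => hf (by rw [h, C_0])
      have h1 : c • w = 0 := by
        rw [aeval_C] at h
        exact h
      refine ⟨c.natAbs, Int.natAbs_pos.2 hc, 0, ?_⟩
      rw [map_zero, ← natCast_zsmul]
      rcases Int.natAbs_eq c with h2 | h2
      · rw [← h2, h1]
      · have h3 : ((c.natAbs : ℕ) : ℤ) = -c := by omega
        rw [h3, neg_smul, h1, neg_zero]
    | succ d ih =>
      intro f hf hd h
      by_cases hc : f.coeff 0 = 0
      · have h1 := divX_mul_X_add f
        rw [hc, C_0, add_zero] at h1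
        have h2 : divX f ≠ 0 := by
          intro h3
          rw [h3, zero_mul] at h1
          exact hf h1.symm
        refine ih (divX f) h2 ?_ ?_
        · rw [natDegree_divX_eq_natDegree_tsub_one]
          omega
        · apply hu
          rw [← h1, mul_comm, map_mul, aeval_X, Module.End.mul_apply] at h
          exact h
      · have h1 := divX_mul_X_add f
        rw [← h1, map_add, LinearMap.add_apply, mul_comm, map_mul, aeval_X, Module.End.mul_apply,
          aeval_C] at h
        have h2 : f.coeff 0 • w = - u (aeval u (divX f) w) := by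
          rw [eq_neg_iff_add_eq_zero, add_comm]
          exact h
        refine ⟨(f.coeff 0).natAbs, Int.natAbs_pos.2 hc, ?_⟩
        rcases Int.natAbs_eq (f.coeff 0) with h3 | h3
        · refine ⟨- aeval u (divX f) w, ?_⟩
          rw [← natCast_zsmul, ← h3, h2, map_neg]
        · refine ⟨aeval u (divX f) w, ?_⟩
          have h4 : (((f.coeff 0).natAbs : ℕ) : ℤ) = -(f.coeff 0) := by omega
          rw [← natCast_zsmul, h4, neg_smul, h2, neg_neg]
  obtain ⟨f, hf, h⟩ := exists_rel' hR u w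
  exact key _ f hf le_rfl h

/-- the data of an abelian normal subgroup with infinite cyclic quotient -/
structure Dat (Q : Type) [Group Q] where
  /-- the normal subgroup -/
  M : Subgroup Q
  normal : M.Normal
  comm : ∀ x ∈ M, ∀ y ∈ M, x * y = y * x
  /-- the element -/
  t : Q
  gen : ∀ g : Q, ∃ m ∈ M, ∃ k : ℤ, g = m * t ^ k
  nt : ∀ k : ℤ, k ≠ 0 → t ^ k ∉ M
  reg : ∀ k : ℤ, k ≠ 0 → ∀ m ∈ M, t ^ k * m = m * t ^ k → m = 1
  ne : ∃ m ∈ M, m ≠ 1

namespace Dat

variable {Q : Type} [Group Q] (D : Dat Q)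

/-- the abelian group -/
def A : Type := Additive D.M

instance : AddGroup D.A := inferInstanceAs (AddGroup (Additive D.M))

instance : AddCommGroup D.A :=
  { add_comm := fun x y => by
      apply (Additive.toMul (α := D.M)).injective
      exact Subtype.ext (D.comm _ (Additive.toMul (α := D.M) x).2 _
        (Additive.toMul (α := D.M) y).2) }

/-- the element of the group -/
def val (x : D.A) : Q := ((Additive.toMul (α := D.M) x : D.M) : Q)

/-- the element of the module -/
def el (q : Q) (h : q ∈ D.M) : D.A := Additive.ofMul (⟨q, h⟩ : D.M)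

theorem val_el (q : Q) (h : q ∈ D.M) : D.val (D.el q h) = q := rfl

theorem val_mem (x : D.A) : D.val x ∈ D.M := (Additive.toMul (α := D.M) x).2

theorem val_inj {x y : D.A} (h : D.val x = D.val y) : x = y :=
  (Additive.toMul (α := D.M)).injective (Subtype.ext h)

theorem val_add (x y : D.A) : D.val (x + y) = D.val x * D.val y := rfl

theorem val_zero : D.val 0 = 1 := rfl

theorem val_neg (x : D.A) : D.val (-x) = (D.val x)⁻¹ := rfl

/-- conjugation -/
def cj (g : Q) : D.A →+ D.A where
  toFun x := D.el (g * D.val x * g⁻¹) (D.normal.conj_mem _ (D.val_mem x) g)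
  map_zero' := D.val_inj (by rw [val_el, val_zero, mul_one, mul_inv_cancel])
  map_add' x y := D.val_inj (by rw [val_el, val_add, val_add, val_el, val_el]; group)

theorem val_cj (g : Q) (x : D.A) : D.val (D.cj g x) = g * D.val x * g⁻¹ := rfl

theorem cj_mul (g h : Q) (x : D.A) : D.cj (g * h) x = D.cj g (D.cj h x) :=
  D.val_inj (by simp only [val_cj]; group)

theorem cj_one (x : D.A) : D.cj 1 x = x := D.val_inj (by simp only [val_cj]; group)

/-- the action of `t` -/
def τ : Module.End ℤ D.A := (D.cj D.t).toIntLinearMap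

theorem τ_apply (x : D.A) : D.τ x = D.cj D.t x := rfl

theorem τ_pow (n : ℕ) (x : D.A) : (D.τ ^ n) x = D.cj (D.t ^ n) x := by
  induction n generalizing x with
  | zero => rw [pow_zero, pow_zero, cj_one]; rfl
  | succ n ih => rw [pow_succ, pow_succ, cj_mul, ← ih]; rfl

theorem cj_reg {k : ℤ} (hk : k ≠ 0) {x : D.A} (h : D.cj (D.t ^ k) x = x) : x = 0 := by
  apply D.val_inj
  rw [val_zero]
  refine D.reg k hk _ (D.val_mem x) ?_
  have h1 := congrArg D.val h
  rw [val_cj] at h1
  exact mul_inv_eq_iff_eq_mul.1 h1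

/-- the module -/
abbrev V : Type := Module.AEval' D.τ

theorem V_inj {s : ℤ[X]} (hs : s ∈ S) : ∀ v : D.V, s • v = 0 → v = 0 := by
  induction hs using Submonoid.closure_induction with
  | mem s hs =>
    rcases hs with rfl | ⟨k, hk, rfl⟩
    · intro v hv
      obtain ⟨x, rfl⟩ := (Module.AEval'.of D.τ).surjective v
      rw [Module.AEval'.X_smul_of] at hv
      have h1 := (Module.AEval'.of D.τ).map_eq_zero_iff.1 hv
      have h2 : D.cj D.t x = 0 := h1
      have h3 : x = 0 := by
        have h4 : D.cj (D.t⁻¹ * D.t) x = 0 := by rw [cj_mul, h2, map_zero]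
        rwa [inv_mul_cancel, cj_one] at h4
      rw [h3, map_zero]
    · intro v hv
      obtain ⟨x, rfl⟩ := (Module.AEval'.of D.τ).surjective v
      rw [sub_smul, one_smul, Module.AEval'.X_pow_smul_of, ← map_sub] at hv
      have h1 := (Module.AEval'.of D.τ).map_eq_zero_iff.1 hv
      have h2 : (D.τ ^ k) x = x := sub_eq_zero.1 h1
      rw [τ_pow, ← zpow_natCast] at h2
      rw [D.cj_reg (by omega) h2, map_zero]
  | one =>
    intro v hv
    rwa [one_smul] at hv
  | mul a b _ _ ha hb =>
    intro v hv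
    rw [mul_smul] at hv
    exact hb v (ha _ hv)

/-- the localisation -/
def W : Type := LocalizedModule S D.V

noncomputable instance : AddCommGroup D.W := inferInstanceAs (AddCommGroup (LocalizedModule S D.V))
noncomputable instance : Module ℤ[X] D.W := inferInstanceAs (Module ℤ[X] (LocalizedModule S D.V))

/-- the map to the localisation -/
noncomputable def ιV : D.V →ₗ[ℤ[X]] D.W := LocalizedModule.mkLinearMap S D.V

instance : IsLocalizedModule S D.ιV :=
  inferInstanceAs (IsLocalizedModule S (LocalizedModule.mkLinearMap S D.V))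

theorem ιV_inj {v : D.V} (h : D.ιV v = 0) : v = 0 := by
  have h1 : D.ιV v = D.ιV 0 := by rw [h, map_zero]
  obtain ⟨s, hs⟩ := (IsLocalizedModule.eq_iff_exists S D.ιV).1 h1
  rw [smul_zero] at hs
  exact D.V_inj s.2 v hs

/-- the map from the group -/
noncomputable def ι : D.A →+ D.W :=
  D.ιV.toAddMonoidHom.comp (Module.AEval'.of D.τ).toLinearMap.toAddMonoidHom

theorem ι_apply (x : D.A) : D.ι x = D.ιV (Module.AEval'.of D.τ x) := rfl

theorem ι_inj : Function.Injective D.ι := by
  rw [injective_iff_map_eq_zero]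
  intro x hx
  exact (Module.AEval'.of D.τ).map_eq_zero_iff.1 (D.ιV_inj hx)

theorem W_bij {s : ℤ[X]} (hs : s ∈ S) : Function.Bijective (fun w : D.W => s • w) := by
  have h1 := IsLocalizedModule.map_units D.ιV (⟨s, hs⟩ : S)
  rw [Module.End.isUnit_iff] at h1
  exact h1

/-- multiplication by `X` -/
noncomputable def mulX : Module.End ℤ D.W :=
  AddMonoidHom.toIntLinearMap (DistribSMul.toAddMonoidHom D.W (X : ℤ[X]))

theorem mulX_apply (w : D.W) : D.mulX w = (X : ℤ[X]) • w := rfl

/-- the automorphism given by `t` -/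
noncomputable def tW : Au D.W := ((Module.End.isUnit_iff D.mulX).2 (D.W_bij X_mem)).unit

theorem tW_smul (w : D.W) : D.tW • w = (X : ℤ[X]) • w := rfl

theorem tW_pow (n : ℕ) (w : D.W) : D.tW ^ n • w = (X ^ n : ℤ[X]) • w := by
  induction n generalizing w with
  | zero => rw [pow_zero, pow_zero, one_smul, one_smul]
  | succ n ih => rw [pow_succ, pow_succ, mul_smul, mul_smul, ih, tW_smul]

theorem ι_t (x : D.A) : D.ι (D.cj D.t x) = D.tW • D.ι x := by
  rw [tW_smul, ι_apply, ι_apply, ← map_smul, Module.AEval'.X_smul_of]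
  rfl

theorem ι_tpow (n : ℕ) (x : D.A) : D.ι (D.cj (D.t ^ n) x) = (X ^ n : ℤ[X]) • D.ι x := by
  rw [ι_apply, ι_apply, ← map_smul, Module.AEval'.X_pow_smul_of, ← τ_pow]
  rfl

theorem aeval_smul (f : ℤ[X]) (w : D.W) : aeval (lin D.tW) f w = f • w := by
  induction f using Polynomial.induction_on' with
  | add p q hp hq => rw [map_add, LinearMap.add_apply, hp, hq, add_smul]
  | monomial n a =>
    rw [← C_mul_X_pow_eq_monomial, map_mul, aeval_C, Module.End.mul_apply, aeval_Xpow, tW_pow,
      mul_smul]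
    have h2 : (Polynomial.C a : ℤ[X]) = (a : ℤ[X]) := by simp
    rw [h2, Int.cast_smul_eq_zsmul]
    rfl

theorem reg_tW : Reg D.tW := by
  intro k hk
  have h1 := D.W_bij (Xk_mem hk)
  have h2 : (fun w : D.W => D.tW ^ k • w - w) = fun w => (X ^ k - 1 : ℤ[X]) • w := by
    funext w
    rw [tW_pow, sub_smul, one_smul]
  rw [h2]
  exact h1

theorem opr_eq (n r : ℕ) (w : D.W) : opr D.tW n r w = ((X ^ n - 1) ^ r : ℤ[X]) • w := by
  induction r generalizing w with
  | zero => rw [pow_zero, one_smul]; rfl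
  | succ r ih =>
    have h1 : opr D.tW n (r + 1) w = opr D.tW n r (D.tW ^ n • w - w) := rfl
    rw [h1, ih, pow_succ, mul_smul, sub_smul (X ^ n : ℤ[X]), one_smul, tW_pow]

theorem exists_smul (w : D.W) : ∃ s ∈ S, ∃ x : D.A, s • w = D.ι x := by
  obtain ⟨⟨v, s⟩, h⟩ := IsLocalizedModule.surj S D.ιV w
  obtain ⟨x, rfl⟩ := (Module.AEval'.of D.τ).surjective v
  exact ⟨s, s.2, x, h⟩

theorem ι_range_smul (f : ℤ[X]) (x : D.A) : ∃ y : D.A, f • D.ι x = D.ι y := by
  refine ⟨(Module.AEval'.of D.τ).symm (f • Module.AEval'.of D.τ x), ?_⟩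
  rw [ι_apply, ι_apply, LinearEquiv.apply_symm_apply, map_smul]

theorem absorb (w : D.W) : ∃ n r : ℕ, 0 < n ∧ ∃ x : D.A, opr D.tW n r w = D.ι x := by
  obtain ⟨s, hs, x, hx⟩ := D.exists_smul w
  obtain ⟨e, n, r, hn, c, hc⟩ := S_dvd hs
  refine ⟨n, r, hn, ?_⟩
  obtain ⟨y, hy⟩ := D.ι_range_smul c x
  rw [← hx, ← mul_smul, mul_comm, ← hc, mul_smul] at hy
  refine ⟨D.cj (D.t ^ (-(e : ℤ))) y, ?_⟩
  apply (D.W_bij (pow_mem X_mem e)).1
  change (X ^ e : ℤ[X]) • opr D.tW n r w = (X ^ e : ℤ[X]) • D.ι (D.cj (D.t ^ (-(e : ℤ))) y)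
  rw [opr_eq, hy, ← ι_tpow, ← cj_mul, ← zpow_natCast, ← zpow_add, add_neg_cancel, zpow_zero, cj_one]

theorem frank (hR : FRank D.A) : FRank D.W := by
  classical
  have hR' := hR
  obtain ⟨F, hF⟩ := hR
  refine ⟨F.image D.ι, fun w => ?_⟩
  obtain ⟨s, hs, x, hx⟩ := D.exists_smul w
  let u : Module.End ℤ D.A := AddMonoidHom.toIntLinearMap
    (((Module.AEval'.of D.τ).symm.toLinearMap.toAddMonoidHom).comp
      ((DistribSMul.toAddMonoidHom D.V s).comp
        (Module.AEval'.of D.τ).toLinearMap.toAddMonoidHom))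
  have hu : ∀ x, u x = (Module.AEval'.of D.τ).symm (s • Module.AEval'.of D.τ x) := fun _ => rfl
  obtain ⟨n, hn, y, hy⟩ := inj_endo hR' u (by
    intro x hx
    rw [hu] at hx
    have h1 := (Module.AEval'.of D.τ).symm.map_eq_zero_iff.1 hx
    exact (Module.AEval'.of D.τ).map_eq_zero_iff.1 (D.V_inj hs _ h1)) x
  have h1 : n • w = D.ι y := by
    apply (D.W_bij hs).1
    change s • (n • w) = s • D.ι y
    rw [smul_comm, hx, ← map_nsmul, hy, hu, ι_apply, LinearEquiv.apply_symm_apply, map_smul,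
      ← ι_apply]
  obtain ⟨m, hm, h2⟩ := hF y
  refine ⟨m * n, Nat.mul_pos hm hn, ?_⟩
  rw [mul_smul, h1, ← map_nsmul]
  have h3 : ∀ y ∈ AddSubgroup.closure (F : Set D.A), D.ι y ∈
      AddSubgroup.closure ((F.image D.ι : Finset D.W) : Set D.W) := by
    intro y hy
    induction hy using AddSubgroup.closure_induction with
    | mem y hy => exact AddSubgroup.subset_closure (by
        rw [Finset.coe_image]
        exact ⟨y, hy, rfl⟩)
    | zero => rw [map_zero]; exact zero_mem _
    | add a b _ _ ha hb => rw [map_add]; exact add_mem ha hb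
    | neg a _ ha => rw [map_neg]; exact neg_mem ha
  exact h3 _ h2

/-- finite generation -/
theorem exists_gens (hfg : Group.FG Q) : ∃ Z : Finset D.A, ∀ x : D.A,
    x ∈ AddSubgroup.closure {y | ∃ z ∈ Z, ∃ j : ℤ, y = D.cj (D.t ^ j) z} := by
  classical
  obtain ⟨G, hG⟩ := Group.fg_def.1 hfg
  choose m hm k hk using D.gen
  let Z : Finset D.A := G.image (fun g => D.el (m g) (hm g))
  refine ⟨Z, ?_⟩
  set P := AddSubgroup.closure {y | ∃ z ∈ Z, ∃ j : ℤ, y = D.cj (D.t ^ j) z} with hP
  have hst : ∀ (i : ℤ) (x : D.A), x ∈ P → D.cj (D.t ^ i) x ∈ P := by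
    intro i x hx
    rw [hP] at hx
    induction hx using AddSubgroup.closure_induction with
    | mem y hy =>
      obtain ⟨z, hz, j, rfl⟩ := hy
      refine AddSubgroup.subset_closure ⟨z, hz, i + j, ?_⟩
      rw [← cj_mul, ← zpow_add]
    | zero => rw [map_zero]; exact zero_mem _
    | add a b _ _ ha hb => rw [map_add]; exact add_mem ha hb
    | neg a _ ha => rw [map_neg]; exact neg_mem ha
  let H : Subgroup Q :=
    { carrier := {q | ∃ v ∈ P, ∃ k : ℤ, q = D.val v * D.t ^ k}
      one_mem' := ⟨0, zero_mem _, 0, by rw [val_zero, zpow_zero, mul_one]⟩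
      mul_mem' := by
        rintro _ _ ⟨v, hv, k, rfl⟩ ⟨v', hv', k', rfl⟩
        refine ⟨v + D.cj (D.t ^ k) v', add_mem hv (hst k _ hv'), k + k', ?_⟩
        rw [val_add, val_cj, zpow_add]
        group
      inv_mem' := by
        rintro _ ⟨v, hv, k, rfl⟩
        refine ⟨D.cj (D.t ^ (-k)) (-v), hst _ _ (neg_mem hv), -k, ?_⟩
        rw [val_cj, val_neg]
        group }
  have hH : H = ⊤ := by
    rw [eq_top_iff, ← hG, Subgroup.closure_le]
    intro g hg
    refine ⟨D.el (m g) (hm g), AddSubgroup.subset_closure ⟨_, Finset.mem_image_of_mem _ hg, 0, ?_⟩,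
      k g, ?_⟩
    · rw [zpow_zero, cj_one]
    · rw [val_el]
      exact hk g
  intro x
  obtain ⟨v, hv, j, hj⟩ : D.val x ∈ H := by rw [hH]; trivial
  have hj0 : j = 0 := by
    by_contra h0
    apply D.nt j h0
    have h1 : D.t ^ j = (D.val v)⁻¹ * D.val x := by rw [hj, inv_mul_cancel_left]
    rw [h1]
    exact mul_mem (inv_mem (D.val_mem v)) (D.val_mem x)
  rw [hj0, zpow_zero, mul_one] at hj
  rw [D.val_inj hj]
  exact hv

theorem fgen (hfg : Group.FG Q) : FGen D.tW := by
  classical
  obtain ⟨Z, hZ⟩ := D.exists_gens hfg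
  refine ⟨Z.image D.ι, fun w => ?_⟩
  obtain ⟨s, hs, x, hx⟩ := D.exists_smul w
  have h1 : ∀ x : D.A, ∃ e : ℕ, (X ^ e : ℤ[X]) • D.ι x ∈
      Submodule.span ℤ[X] ((Z.image D.ι : Finset D.W) : Set D.W) := by
    intro x
    have hx := hZ x
    induction hx using AddSubgroup.closure_induction with
    | mem y hy =>
      obtain ⟨z, hz, j, rfl⟩ := hy
      have hzs : D.ι z ∈ Submodule.span ℤ[X] ((Z.image D.ι : Finset D.W) : Set D.W) :=
        Submodule.subset_span (by
          rw [Finset.coe_image]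
          exact ⟨z, hz, rfl⟩)
      refine ⟨(-j).toNat, ?_⟩
      rw [← ι_tpow, ← cj_mul, ← zpow_natCast, ← zpow_add]
      have h2 : (((-j).toNat : ℕ) : ℤ) + j = ((((-j).toNat : ℕ) : ℤ) + j).toNat := by omega
      rw [h2, zpow_natCast, ι_tpow]
      exact Submodule.smul_mem _ _ hzs
    | zero => exact ⟨0, by rw [map_zero, smul_zero]; exact zero_mem _⟩
    | add a b _ _ ha hb =>
      obtain ⟨e, he⟩ := ha
      obtain ⟨e', he'⟩ := hb
      refine ⟨e + e', ?_⟩
      rw [map_add, smul_add]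
      refine add_mem ?_ ?_
      · rw [pow_add, mul_comm, mul_smul]
        exact Submodule.smul_mem _ _ he
      · rw [pow_add, mul_smul]
        exact Submodule.smul_mem _ _ he'
    | neg a _ ha =>
      obtain ⟨e, he⟩ := ha
      refine ⟨e, ?_⟩
      rw [map_neg, smul_neg]
      exact neg_mem he
  obtain ⟨e, he⟩ := h1 x
  refine ⟨X ^ e * s, mul_mem (pow_mem X_mem e) hs, ?_⟩
  rw [← hx, ← mul_smul] at he
  obtain ⟨c, -, hc⟩ := Submodule.mem_span_finset.1 he
  refine ⟨c, ?_⟩
  rw [aeval_smul, ← hc]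
  refine Finset.sum_congr rfl fun z _ => ?_
  rw [aeval_smul]

end Dat

end Pool.Agent.Helper84.Cm
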