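import Pool.Agent.Helper84.Cm.I
import Pool.Agent.Helper84.Cm.F
import Pool.Agent.Helper84.Cm.H

/-!
# The representation by affine maps
-/

set_option autoImplicit false

open Polynomial

namespace Pool.Agent.Helper84.Cm

section opr

variable {W : Type} [AddCommGroup W]

theorem opr_succ' (u : Au W) (n r : ℕ) (w : W) :
    opr u n (r + 1) w = u ^ n • opr u n r w - opr u n r w :=
  Function.iterate_succ_apply' _ _ _

theorem opr_zpow (u : Au W) (n : ℕ) (b : ℤ) : ∀ (r : ℕ) (P : AddSubgroup W),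
    (∀ (k : ℤ), ∀ p ∈ P, u ^ k • p ∈ P) → ∀ w, opr u n r w ∈ P → opr (u ^ b) n r w ∈ P := by
  intro r
  induction r with
  | zero => intro P _ w hw; exact hw
  | succ r ih =>
    intro P hP w hw
    rw [opr_succ'] at hw ⊢
    let P₁ : AddSubgroup W :=
      { carrier := {v | u ^ n • v - v ∈ P}
        zero_mem' := by
          change u ^ n • (0 : W) - 0 ∈ P
          rw [smul_zero, sub_zero]
          exact zero_mem _
        add_mem' := by
          intro x y hx hy
          change u ^ n • (x + y) - (x + y) ∈ P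
          rw [(u ^ n).add, add_sub_add_comm]
          exact add_mem hx hy
        neg_mem' := by
          intro x hx
          change u ^ n • (-x) - (-x) ∈ P
          rw [smul_neg, ← neg_sub', neg_mem_iff]
          exact hx }
    have h1 : opr (u ^ b) n r w ∈ P₁ := by
      refine ih P₁ ?_ w hw
      intro k p hp
      change u ^ n • (u ^ k • p) - u ^ k • p ∈ P
      have h2 : u ^ n • (u ^ k • p) = u ^ k • (u ^ n • p) := by
        rw [← mul_smul, ← mul_smul, ← zpow_natCast, ← zpow_add, ← zpow_add, add_comm]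
      rw [h2, ← (u ^ k).sub]
      exact hP k _ hp
    generalize opr (u ^ b) n r w = v at h1
    have h2 : u ^ n • v - v ∈ P := h1
    have h3 : ∀ k : ℤ, (u ^ n) ^ k • v - v ∈ P := by
      intro k
      have h4 : ∀ k : ℤ, (u ^ n) ^ k • (u ^ n • v - v) ∈ P := by
        intro k
        rw [← zpow_natCast, ← zpow_mul]
        refine hP _ _ ?_
        rw [zpow_natCast]
        exact h2
      induction k using Int.induction_on with
      | zero => rw [zpow_zero, one_smul, sub_self]; exact zero_mem _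
      | succ k ih =>
        have h5 : (u ^ n) ^ ((k : ℤ) + 1) • v - v =
            (u ^ n) ^ (k : ℤ) • (u ^ n • v - v) + ((u ^ n) ^ (k : ℤ) • v - v) := by
          rw [((u ^ n) ^ (k : ℤ)).sub, ← mul_smul, zpow_add_one]
          abel
        rw [h5]
        exact add_mem (h4 _) ih
      | pred k ih =>
        have h5 : (u ^ n) ^ (-(k : ℤ) - 1) • v - v =
            ((u ^ n) ^ (-(k : ℤ)) • v - v) - (u ^ n) ^ (-(k : ℤ) - 1) • (u ^ n • v - v) := by
          rw [((u ^ n) ^ (-(k : ℤ) - 1)).sub, ← mul_smul, zpow_sub_one, mul_assoc, inv_mul_cancel,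
            mul_one]
          abel
        rw [h5]
        exact sub_mem ih (h4 _)
    have h4 : (u ^ b) ^ n = (u ^ n) ^ b := by
      rw [← zpow_natCast, ← zpow_natCast, ← zpow_mul, ← zpow_mul, mul_comm]
    rw [h4]
    exact h3 b

theorem reg_zpow {u : Au W} (hu : Reg u) {b : ℤ} (hb : b ≠ 0) : Reg (u ^ b) := by
  rcases lt_or_gt_of_ne hb with h | h
  · obtain ⟨c, hc⟩ : ∃ c : ℕ, b = -(c : ℤ) := ⟨b.natAbs, by omega⟩
    have hc0 : 0 < c := by omega
    intro k hk
    have h1 := hu (c * k) (Nat.mul_pos hc0 hk)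
    have h2 : (fun w : W => (u ^ b) ^ k • w - w) =
        (fun w => (u ^ (c * k))⁻¹ • w) ∘ (fun w => -w) ∘ (fun w => u ^ (c * k) • w - w) := by
      funext w
      simp only [Function.comp_apply]
      have h3 : (u ^ b) ^ k = (u ^ (c * k))⁻¹ := by
        rw [hc, ← zpow_natCast, ← zpow_mul, ← zpow_natCast, ← zpow_neg]
        congr 1
        push_cast
        ring
      rw [h3, neg_sub, ((u ^ (c * k))⁻¹).sub, inv_smul_smul]
    rw [h2]
    exact ((u ^ (c * k))⁻¹).bij.comp (neg_bijective.comp h1)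
  · obtain ⟨c, hc⟩ : ∃ c : ℕ, b = (c : ℤ) := ⟨b.natAbs, by omega⟩
    rw [hc, zpow_natCast]
    exact reg_pow hu (by omega)

theorem opr_inj {u : Au W} (hu : Reg u) {n : ℕ} (hn : 0 < n) (r : ℕ) :
    Function.Injective (opr u n r) := (hu n hn).1.iterate r

theorem opr_semi {B u u' : Au W} (h : SemiconjBy B u u') (n r : ℕ) (w : W) :
    B • opr u n r w = opr u' n r (B • w) := by
  induction r with
  | zero => rfl
  | succ r ih =>
    rw [opr_succ', opr_succ', B.sub, ← mul_smul, (h.pow_right n).eq, mul_smul, ih]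

theorem opr_mul (u : Au W) (c n r : ℕ) (w : W) : opr u (c * n) r w = opr (u ^ c) n r w := by
  unfold opr
  rw [pow_mul]

/-- an additive automorphism -/
def ofAE (B : W ≃+ W) : Au W where
  val := B.toAddMonoidHom.toIntLinearMap
  inv := B.symm.toAddMonoidHom.toIntLinearMap
  val_inv := by
    apply LinearMap.ext
    intro w
    exact B.apply_symm_apply w
  inv_val := by
    apply LinearMap.ext
    intro w
    exact B.symm_apply_apply w

theorem ofAE_smul (B : W ≃+ W) (w : W) : ofAE B • w = B w := rfl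

theorem Au.ext {u v : Au W} (h : ∀ w : W, u • w = v • w) : u = v := by
  apply Units.ext
  apply LinearMap.ext
  exact h

end opr

theorem exists_pow_mem {Q : Type} [Group Q] (L : Subgroup Q) (hL : L.FiniteIndex) (t : Q) :
    ∃ c : ℕ, 0 < c ∧ t ^ c ∈ L.normalCore := by
  have h1 : L.normalCore.FiniteIndex := inferInstance
  exact ⟨L.normalCore.index, Nat.pos_of_ne_zero h1.index_ne_zero, Subgroup.pow_index_mem _ _⟩

namespace Dat

variable {Q : Type} [Group Q] (D : Dat Q)

theorem exists_exp (g : Q) : ∃ k : ℤ, g * D.t ^ (-k) ∈ D.M := by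
  obtain ⟨m, hm, k, rfl⟩ := D.gen g
  refine ⟨k, ?_⟩
  rw [mul_assoc, ← zpow_add, add_neg_cancel, zpow_zero, mul_one]
  exact hm

/-- the exponent -/
noncomputable def κ (g : Q) : ℤ := (D.exists_exp g).choose

theorem κ_spec (g : Q) : g * D.t ^ (-D.κ g) ∈ D.M := (D.exists_exp g).choose_spec

theorem κ_uniq {g : Q} {k : ℤ} (h : g * D.t ^ (-k) ∈ D.M) : D.κ g = k := by
  by_contra h0
  apply D.nt (D.κ g - k) (sub_ne_zero.2 h0)
  have h1 : D.t ^ (D.κ g - k) = (g * D.t ^ (-D.κ g))⁻¹ * (g * D.t ^ (-k)) := by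
    rw [zpow_sub, zpow_neg, zpow_neg]
    group
  rw [h1]
  exact mul_mem (inv_mem (D.κ_spec g)) h

theorem κ_mul (g h : Q) : D.κ (g * h) = D.κ g + D.κ h := by
  apply D.κ_uniq
  have h1 : g * h * D.t ^ (-(D.κ g + D.κ h)) = (g * D.t ^ (-D.κ g)) *
      (D.t ^ (D.κ g) * (h * D.t ^ (-D.κ h)) * (D.t ^ (D.κ g))⁻¹) := by
    rw [neg_add, add_comm, zpow_add]
    group
  rw [h1]
  exact mul_mem (D.κ_spec g) (D.normal.conj_mem _ (D.κ_spec h) _)

theorem κ_t (k : ℤ) : D.κ (D.t ^ k) = k := by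
  apply D.κ_uniq
  rw [← zpow_add, add_neg_cancel, zpow_zero]
  exact one_mem _

theorem κ_M {m : Q} (hm : m ∈ D.M) : D.κ m = 0 := by
  apply D.κ_uniq
  rw [neg_zero, zpow_zero, mul_one]
  exact hm

theorem mem_M {g : Q} (h : D.κ g = 0) : g ∈ D.M := by
  have h1 := D.κ_spec g
  rwa [h, neg_zero, zpow_zero, mul_one] at h1

/-- the component in the module -/
noncomputable def mp (g : Q) : D.A := D.el (g * D.t ^ (-D.κ g)) (D.κ_spec g)

theorem val_mp (g : Q) : D.val (D.mp g) = g * D.t ^ (-D.κ g) := rfl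

theorem eq_mp (g : Q) : g = D.val (D.mp g) * D.t ^ D.κ g := by
  rw [val_mp, mul_assoc, ← zpow_add, neg_add_cancel, zpow_zero, mul_one]

theorem mp_mul (g h : Q) : D.mp (g * h) = D.mp g + D.cj (D.t ^ D.κ g) (D.mp h) := by
  apply D.val_inj
  rw [val_add, val_cj, val_mp, val_mp, val_mp, κ_mul, neg_add, add_comm, zpow_add]
  group

theorem mp_val (x : D.A) : D.mp (D.val x) = x := by
  apply D.val_inj
  rw [val_mp, D.κ_M (D.val_mem x), neg_zero, zpow_zero, mul_one]

theorem mp_t (k : ℤ) : D.mp (D.t ^ k) = 0 := by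
  apply D.val_inj
  rw [val_mp, κ_t, ← zpow_add, add_neg_cancel, zpow_zero, val_zero]

theorem cj_M {m : Q} (hm : m ∈ D.M) (x : D.A) : D.cj m x = x := by
  apply D.val_inj
  rw [val_cj, D.comm m hm _ (D.val_mem x), mul_inv_cancel_right]

theorem cj_eq (g : Q) (x : D.A) : D.cj g x = D.cj (D.t ^ D.κ g) x := by
  conv_lhs => rw [D.eq_mp g]
  rw [cj_mul, D.cj_M (D.val_mem _)]

theorem ι_npow (n : ℕ) (x : D.A) : D.ι (D.cj (D.t ^ n) x) = D.tW ^ n • D.ι x := by
  rw [ι_tpow, tW_pow]

theorem ι_zpow (k : ℤ) (x : D.A) : D.ι (D.cj (D.t ^ k) x) = D.tW ^ k • D.ι x := by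
  rcases Int.eq_nat_or_neg k with ⟨n, rfl | rfl⟩
  · rw [zpow_natCast, zpow_natCast, ι_npow]
  · have h1 := D.ι_npow n (D.cj (D.t ^ (-(n : ℤ))) x)
    rw [← cj_mul, ← zpow_natCast, ← zpow_add, add_neg_cancel, zpow_zero, cj_one] at h1
    have h2 : D.tW ^ (-(n : ℤ)) = (D.tW ^ n)⁻¹ := by rw [zpow_neg, zpow_natCast]
    rw [h2, h1, inv_smul_smul]

/-- the representation -/
noncomputable def ρ : Q →* Aff D.W where
  toFun g := ⟨Multiplicative.ofAdd (D.ι (D.mp g)), D.tW ^ D.κ g⟩
  map_one' := by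
    have h1 : D.κ 1 = 0 := D.κ_M (one_mem _)
    have h2 : D.mp 1 = 0 := by
      have := D.mp_t 0
      rwa [zpow_zero] at this
    rw [h1, h2, map_zero, zpow_zero]
    rfl
  map_mul' g h := by
    apply SemidirectProduct.ext
    · rw [SemidirectProduct.mul_left, act_apply, ← ofAdd_add, mp_mul, map_add, ι_zpow]
    · rw [SemidirectProduct.mul_right, κ_mul, zpow_add]

theorem ρ_left (g : Q) : (D.ρ g).left = Multiplicative.ofAdd (D.ι (D.mp g)) := rfl
theorem ρ_right (g : Q) : (D.ρ g).right = D.tW ^ D.κ g := rfl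

theorem exists_ne : ∃ x : D.A, x ≠ 0 := by
  obtain ⟨m, hm, h⟩ := D.ne
  exact ⟨D.el m hm, fun h0 => h (congrArg D.val h0)⟩

theorem ρ_inj : Function.Injective D.ρ := by
  rw [injective_iff_map_eq_one]
  intro g hg
  have h1 : D.ι (D.mp g) = 0 := congrArg (fun y : Aff D.W => Multiplicative.toAdd y.left) hg
  have h2 : D.tW ^ D.κ g = 1 := congrArg (fun y : Aff D.W => y.right) hg
  have h3 : D.mp g = 0 := D.ι_inj (by rw [h1, map_zero])
  obtain ⟨x, hx⟩ := D.exists_ne
  have h4 : D.κ g = 0 := by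
    by_contra h0
    apply hx
    apply D.cj_reg h0
    apply D.ι_inj
    rw [ι_zpow, h2, one_smul]
  rw [D.eq_mp g, h3, h4, zpow_zero, mul_one, val_zero]

/-- **absorption** -/
theorem absorb_fi (L : Subgroup Q) (hL : L.FiniteIndex) (b : ℤ) (w : D.W) :
    ∃ n r : ℕ, 0 < n ∧ ∃ x : D.A, D.val x ∈ L ∧ opr (D.tW ^ b) n r w = D.ι x := by
  obtain ⟨c, hc, htc⟩ := exists_pow_mem L hL D.t
  obtain ⟨n, r, hn, x, hx⟩ := D.absorb w
  have h1 : opr (D.tW ^ (b * c)) n r w ∈ D.ι.range := by
    refine opr_zpow D.tW n (b * c) r D.ι.range ?_ w ⟨x, hx.symm⟩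
    rintro k _ ⟨y, rfl⟩
    exact ⟨_, D.ι_zpow k y⟩
  obtain ⟨y, hy⟩ := h1
  refine ⟨c * n, r + 1, Nat.mul_pos hc hn, D.cj (D.t ^ (b * c * n)) y - y, ?_, ?_⟩
  · apply L.normalCore_le
    have h2 : D.val (D.cj (D.t ^ (b * c * n)) y - y) =
        D.t ^ (b * c * n) * (D.val y * (D.t ^ (b * c * n))⁻¹ * (D.val y)⁻¹) := by
      rw [sub_eq_add_neg, val_add, val_neg, val_cj]
      group
    have h3 : D.t ^ (b * c * n) ∈ L.normalCore := by
      rw [mul_comm b, mul_assoc, zpow_mul, zpow_natCast]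
      exact zpow_mem htc _
    rw [h2]
    exact mul_mem h3 (Subgroup.Normal.conj_mem inferInstance _ (inv_mem h3) _)
  · have h5 : (D.tW ^ b) ^ c = D.tW ^ (b * c) := by rw [zpow_mul, zpow_natCast]
    rw [opr_mul, h5, opr_succ', ← hy, ← zpow_natCast, ← zpow_mul, map_sub, ι_zpow]

/-- **uniqueness** -/
theorem uniq (g : Aff D.W) (L : Subgroup Q) (hL : L.FiniteIndex)
    (h : ∀ x ∈ L, g * D.ρ x = D.ρ x * g) : g = 1 := by
  obtain ⟨c, hc, htc⟩ := exists_pow_mem L hL D.t
  have htc := L.normalCore_le htc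
  have h1 := h _ htc
  have hc' : (c : ℤ) ≠ 0 := by omega
  have hκ : D.κ (D.t ^ c) = c := by rw [← zpow_natCast, κ_t]
  have hmp : D.mp (D.t ^ c) = 0 := by rw [← zpow_natCast, mp_t]
  have hleft : g.left = 1 := by
    have h2 := congrArg (fun y : Aff D.W => Multiplicative.toAdd y.left) h1
    simp only [SemidirectProduct.mul_left, toAdd_mul] at h2
    rw [ρ_left, ρ_right, hmp, hκ, map_zero] at h2
    have h3 : Multiplicative.toAdd g.left = D.tW ^ (c : ℤ) • Multiplicative.toAdd g.left := by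
      have h4 : Multiplicative.toAdd ((act D.W g.right) (Multiplicative.ofAdd (0 : D.W))) = 0 := by
        rw [act_apply, smul_zero]
        rfl
      rw [h4, add_zero] at h2
      change Multiplicative.toAdd g.left = 0 + D.tW ^ (c : ℤ) • Multiplicative.toAdd g.left at h2
      rwa [zero_add] at h2
    have h4 := (D.reg_tW c hc).1
    have h5 : Multiplicative.toAdd g.left = 0 := by
      apply h4
      change D.tW ^ c • Multiplicative.toAdd g.left - Multiplicative.toAdd g.left =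
        D.tW ^ c • (0 : D.W) - 0
      rw [zpow_natCast] at h3
      rw [← h3, sub_self, smul_zero, sub_zero]
    exact Multiplicative.toAdd.injective h5
  have hcomm : SemiconjBy g.right (D.tW ^ (c : ℤ)) (D.tW ^ (c : ℤ)) := by
    have h2 := congrArg (fun y : Aff D.W => y.right) h1
    simp only [SemidirectProduct.mul_right] at h2
    rw [ρ_right, hκ] at h2
    exact h2
  have hfix : ∀ x : D.A, D.val x ∈ L → g.right • D.ι x = D.ι x := by
    intro x hx
    have h2 := congrArg (fun y : Aff D.W => Multiplicative.toAdd y.left) (h _ hx)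
    simp only [SemidirectProduct.mul_left] at h2
    rw [hleft, ρ_left, map_one, one_mul, mul_one, mp_val] at h2
    exact h2
  apply SemidirectProduct.ext
  · exact hleft
  · apply Au.ext
    intro w
    obtain ⟨n, r, hn, x, hx, hw⟩ := D.absorb_fi L hL c w
    have hreg := reg_zpow D.reg_tW hc'
    apply opr_inj hreg hn r
    rw [← opr_semi hcomm, hw, hfix x hx]
    change D.ι x = opr (D.tW ^ (c : ℤ)) n r ((1 : Au D.W) • w)
    rw [one_smul, hw]

end Dat

end Pool.Agent.Helper84.Cm
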