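import Pool.Agent.Helper84.Cm.J

/-!
# Virtual automorphisms are induced by affine maps
-/

set_option autoImplicit false

open Polynomial

namespace Pool.Agent.Helper84.Cm

namespace Dat

variable {Q : Type} [Group Q] (D : Dat Q)

/-- isomorphisms between subgroups of finite index respect the abelian subgroup -/
theorem claim {H K : Subgroup Q} (hK : K.FiniteIndex) (φ : H ≃* K) (m : H) (hm : (m : Q) ∈ D.M) :
    (φ m : Q) ∈ D.M := by
  by_contra hz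
  have hj : D.κ (φ m : Q) ≠ 0 := fun h => hz (D.mem_M h)
  -- the subgroup `M ∩ K` is trivial
  have h1 : ∀ x : D.A, D.val x ∈ K → x = 0 := by
    intro v hv
    obtain ⟨x, hx⟩ := φ.surjective ⟨D.val v, hv⟩
    -- the commutators in the domain commute
    have h2 : (x * m * x⁻¹ * m⁻¹) * m = m * (x * m * x⁻¹ * m⁻¹) := by
      apply Subtype.ext
      have h3 : (x : Q) * m * (x : Q)⁻¹ * (m : Q)⁻¹ ∈ D.M :=
        mul_mem (D.normal.conj_mem _ hm _) (inv_mem hm)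
      exact D.comm _ h3 _ hm
    have h3 := congrArg (fun y : H => (φ y : Q)) h2
    simp only [map_mul, map_inv, hx, Subgroup.coe_mul, Subgroup.coe_inv] at h3
    set z : Q := (φ m : Q) with hz'
    have h4 : D.cj z (v - D.cj z v) = v - D.cj z v := by
      apply D.val_inj
      have h5 : D.val (v - D.cj z v) = D.val v * z * (D.val v)⁻¹ * z⁻¹ := by
        rw [sub_eq_add_neg, val_add, val_neg, val_cj]
        group
      rw [val_cj, h5, ← h3]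
      group
    rw [D.cj_eq z (v - D.cj z v)] at h4
    have h5 := D.cj_reg hj h4
    rw [D.cj_eq z v] at h5
    exact D.cj_reg hj (sub_eq_zero.1 h5).symm
  obtain ⟨c, hc, htc⟩ := exists_pow_mem K hK D.t
  obtain ⟨x, hx⟩ := D.exists_ne
  apply hx
  have h2 : D.cj (D.t ^ c) x - x = 0 := by
    apply h1
    apply K.normalCore_le
    have h3 : D.val (D.cj (D.t ^ c) x - x) = D.t ^ c * (D.val x * (D.t ^ c)⁻¹ * (D.val x)⁻¹) := by
      rw [sub_eq_add_neg, val_add, val_neg, val_cj]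
      group
    rw [h3]
    exact mul_mem htc (Subgroup.Normal.conj_mem inferInstance _ (inv_mem htc) _)
  have hc' : (c : ℤ) ≠ 0 := by omega
  refine D.cj_reg hc' ?_
  rw [zpow_natCast]
  exact sub_eq_zero.1 h2

/-- the elements of the module which lie in a subgroup -/
def AH (H : Subgroup Q) : AddSubgroup D.A where
  carrier := {x | D.val x ∈ H}
  zero_mem' := by
    change D.val 0 ∈ H
    rw [val_zero]
    exact one_mem _
  add_mem' := by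
    intro x y hx hy
    change D.val (x + y) ∈ H
    rw [val_add]
    exact mul_mem hx hy
  neg_mem' := by
    intro x hx
    change D.val (-x) ∈ H
    rw [val_neg]
    exact inv_mem hx

theorem mem_AH {H : Subgroup Q} {x : D.A} : x ∈ D.AH H ↔ D.val x ∈ H := Iff.rfl

/-- the isomorphism on the module -/
def φA {H K : Subgroup Q} (hK : K.FiniteIndex) (φ : H ≃* K) : D.AH H →+ D.A where
  toFun x := D.el (φ ⟨D.val x, x.2⟩ : Q) (D.claim hK φ _ (D.val_mem x))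
  map_zero' := by
    apply D.val_inj
    rw [val_el, val_zero]
    have h1 : (⟨D.val ((0 : D.AH H) : D.A), (0 : D.AH H).2⟩ : H) = 1 := rfl
    rw [h1, map_one]
    rfl
  map_add' := by
    intro x y
    apply D.val_inj
    rw [val_el, val_add, val_el, val_el]
    have h1 : (⟨D.val ((x + y : D.AH H) : D.A), (x + y : D.AH H).2⟩ : H) =
        ⟨D.val x, x.2⟩ * ⟨D.val y, y.2⟩ := rfl
    rw [h1, map_mul]
    rfl

theorem val_φA {H K : Subgroup Q} (hK : K.FiniteIndex) (φ : H ≃* K) (x : D.AH H) :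
    D.val (D.φA hK φ x) = (φ ⟨D.val x, x.2⟩ : Q) := rfl

theorem φA_inj {H K : Subgroup Q} (hK : K.FiniteIndex) (φ : H ≃* K) :
    Function.Injective (D.φA hK φ) := by
  rw [injective_iff_map_eq_zero]
  intro x hx
  have h1 : (φ ⟨D.val x, x.2⟩ : Q) = 1 := by rw [← val_φA D hK, hx, val_zero]
  have h2 : φ ⟨D.val x, x.2⟩ = 1 := Subtype.ext h1
  have h3 : (⟨D.val x, x.2⟩ : H) = 1 := by
    apply φ.injective
    rw [h2, map_one]
  apply Subtype.ext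
  have h4 : D.val (x : D.A) = 1 := congrArg Subtype.val h3
  exact D.val_inj h4

theorem cj_mem_AH {H : Subgroup Q} {a : ℤ} (hta : D.t ^ a ∈ H) (x : D.AH H) :
    D.cj (D.t ^ a) (x : D.A) ∈ D.AH H := by
  rw [mem_AH, val_cj]
  exact mul_mem (mul_mem hta x.2) (inv_mem hta)

theorem φA_t {H K : Subgroup Q} (hK : K.FiniteIndex) (φ : H ≃* K) {a : ℤ} (hta : D.t ^ a ∈ H)
    (x : D.AH H) : D.φA hK φ ⟨D.cj (D.t ^ a) (x : D.A), D.cj_mem_AH hta x⟩ =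
      D.cj (D.t ^ D.κ (φ ⟨D.t ^ a, hta⟩ : Q)) (D.φA hK φ x) := by
  rw [← D.cj_eq (φ ⟨D.t ^ a, hta⟩ : Q)]
  apply D.val_inj
  have h1 : (⟨D.val (D.cj (D.t ^ a) (x : D.A)), D.cj_mem_AH hta x⟩ : H) =
      ⟨D.t ^ a, hta⟩ * ⟨D.val x, x.2⟩ * ⟨D.t ^ a, hta⟩⁻¹ := by
    apply Subtype.ext
    rfl
  change (φ ⟨D.val (D.cj (D.t ^ a) (x : D.A)), D.cj_mem_AH hta x⟩ : Q) =
    (φ ⟨D.t ^ a, hta⟩ : Q) * (φ ⟨D.val x, x.2⟩ : Q) * (φ ⟨D.t ^ a, hta⟩ : Q)⁻¹
  rw [h1, map_mul, map_mul, map_inv]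
  rfl

/-- the linear part -/
theorem exists_B {H K : Subgroup Q} (hH : H.FiniteIndex) (hK : K.FiniteIndex) (φ : H ≃* K)
    {a : ℤ} (ha : a ≠ 0) (hta : D.t ^ a ∈ H) {b : ℤ} (hb : b = D.κ (φ ⟨D.t ^ a, hta⟩ : Q))
    (hb0 : b ≠ 0) :
    ∃ B : D.W ≃+ D.W, (∀ x : D.AH H, B (D.ι x) = D.ι (D.φA hK φ x)) ∧
      ∀ w, B (D.tW ^ a • w) = D.tW ^ b • B w := by
  classical
  let e := AddSubgroup.equivMapOfInjective (D.AH H) D.ι D.ι_inj
  have he : ∀ x : D.AH H, ((e x : (D.AH H).map D.ι) : D.W) = D.ι x := fun _ => rfl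
  let g₀ : (D.AH H).map D.ι →+ D.W := (D.ι.comp (D.φA hK φ)).comp e.symm.toAddMonoidHom
  have hg₀ : ∀ x : D.AH H, g₀ (e x) = D.ι (D.φA hK φ x) := by
    intro x
    change D.ι (D.φA hK φ (e.symm (e x))) = _
    rw [AddEquiv.symm_apply_apply]
  have hinj : Function.Injective g₀ :=
    D.ι_inj.comp ((D.φA_inj hK φ).comp e.symm.injective)
  clear_value g₀
  have hmem : ∀ m ∈ (D.AH H).map D.ι, D.tW ^ a • m ∈ (D.AH H).map D.ι := by
    rintro _ ⟨x, hx, rfl⟩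
    exact ⟨_, D.cj_mem_AH hta ⟨x, hx⟩, D.ι_zpow a x⟩
  obtain ⟨B, hB1, hB2⟩ := ext_aux (D.tW ^ a) (D.tW ^ b) (reg_zpow D.reg_tW ha)
    (reg_zpow D.reg_tW hb0) ((D.AH H).map D.ι) hmem g₀ hinj
    (by
      intro m
      obtain ⟨x, rfl⟩ := e.surjective m
      have h1 : (⟨D.tW ^ a • ((e x : (D.AH H).map D.ι) : D.W), hmem _ (e x).2⟩ :
          (D.AH H).map D.ι) = e ⟨D.cj (D.t ^ a) (x : D.A), D.cj_mem_AH hta x⟩ := by
        apply Subtype.ext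
        change D.tW ^ a • D.ι x = D.ι (D.cj (D.t ^ a) (x : D.A))
        exact (D.ι_zpow a x).symm
      rw [h1, hg₀, hg₀, D.φA_t hK φ hta, ι_zpow, ← hb])
    (by
      intro w
      obtain ⟨n, r, hn, x, hx, hw⟩ := D.absorb_fi H hH a w
      exact ⟨n, r, hn, by rw [hw]; exact ⟨x, hx, rfl⟩⟩)
    (by
      intro w
      obtain ⟨n, r, hn, y, hy, hw⟩ := D.absorb_fi K hK b w
      have h1 := D.claim hH φ.symm ⟨D.val y, hy⟩ (D.val_mem y)
      refine ⟨n, r, hn, e ⟨D.el (φ.symm ⟨D.val y, hy⟩ : Q) h1, (φ.symm ⟨D.val y, hy⟩).2⟩, ?_⟩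
      rw [hg₀, hw]
      congr 1
      apply D.val_inj
      rw [val_φA]
      change D.val y = (φ (φ.symm ⟨D.val y, hy⟩) : Q)
      rw [MulEquiv.apply_symm_apply])
  refine ⟨B, fun x => ?_, hB2⟩
  rw [← hg₀, ← hB1, he]

/-- the affine map -/
theorem exists_g {H K : Subgroup Q} (hK : K.FiniteIndex) (φ : H ≃* K)
    {a : ℤ} (ha : 0 < a) (hta : D.t ^ a ∈ H) {b : ℤ} (hb : b = D.κ (φ ⟨D.t ^ a, hta⟩ : Q))
    (hb0 : b ≠ 0) (B : D.W ≃+ D.W) (hB1 : ∀ x : D.AH H, B (D.ι x) = D.ι (D.φA hK φ x))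
    (hB2 : ∀ w, B (D.tW ^ a • w) = D.tW ^ b • B w) :
    ∃ g ∈ 𝒢 D.tW, g * D.ρ (D.t ^ a) = D.ρ (φ ⟨D.t ^ a, hta⟩ : Q) * g ∧
      ∀ x : D.AH H, g * D.ρ (D.val x) = D.ρ (D.val (D.φA hK φ x)) * g := by
  generalize (φ ⟨D.t ^ a, hta⟩ : Q) = z at *
  obtain ⟨β, hβ⟩ := (reg_zpow D.reg_tW hb0 1 one_pos).2 (-(D.ι (D.mp z)))
  have hβ' : β = D.ι (D.mp z) + D.tW ^ b • β := by
    have h1 : D.tW ^ b • β - β = -(D.ι (D.mp z)) := by
      have h2 := hβ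
      simp only [pow_one] at h2
      exact h2
    rw [sub_eq_iff_eq_add] at h1
    rw [h1]
    abel
  have hsemi : SemiconjBy (ofAE B) (D.tW ^ a) (D.tW ^ b) := by
    apply Au.ext
    intro w
    rw [mul_smul, mul_smul, ofAE_smul, ofAE_smul]
    exact hB2 w
  refine ⟨⟨Multiplicative.ofAdd β, ofAE B⟩, ⟨a, b, ha, hb0, hsemi⟩, ?_, ?_⟩
  · apply SemidirectProduct.ext
    · rw [SemidirectProduct.mul_left, SemidirectProduct.mul_left, ρ_left, ρ_left, ρ_right, mp_t,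
        map_zero, act_apply, smul_zero]
      change Multiplicative.ofAdd β * 1 = Multiplicative.ofAdd (D.ι (D.mp z)) *
        act D.W (D.tW ^ D.κ z) (Multiplicative.ofAdd β)
      rw [mul_one, act_apply, ← ofAdd_add, ← hb, ← hβ']
    · rw [SemidirectProduct.mul_right, SemidirectProduct.mul_right, ρ_right, ρ_right, κ_t, ← hb]
      exact hsemi
  · intro x
    apply SemidirectProduct.ext
    · rw [SemidirectProduct.mul_left, SemidirectProduct.mul_left, ρ_left, ρ_left, ρ_right,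
        mp_val, mp_val, D.κ_M (D.val_mem (D.φA hK φ x)), zpow_zero, map_one]
      change Multiplicative.ofAdd β * Multiplicative.ofAdd (B (D.ι x)) =
        Multiplicative.ofAdd (D.ι (D.φA hK φ x)) * Multiplicative.ofAdd β
      rw [hB1, mul_comm]
    · rw [SemidirectProduct.mul_right, SemidirectProduct.mul_right, ρ_right, ρ_right,
        D.κ_M (D.val_mem _), D.κ_M (D.val_mem _), zpow_zero, mul_one, one_mul]

/-- the exponents modulo a number -/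
noncomputable def κh (a : ℕ) : Q →* Multiplicative (ZMod a) where
  toFun x := Multiplicative.ofAdd ((D.κ x : ℤ) : ZMod a)
  map_one' := by
    rw [D.κ_M (one_mem _)]
    simp
  map_mul' := by
    intro x y
    rw [κ_mul, ← ofAdd_add, Int.cast_add]

theorem mem_κh {a : ℕ} {x : Q} : x ∈ (D.κh a).ker ↔ (a : ℤ) ∣ D.κ x := by
  rw [← ZMod.intCast_zmod_eq_zero_iff_dvd]
  exact Iff.rfl


theorem exists_tw1 {H K : Subgroup Q} (hH : H.FiniteIndex) (hK : K.FiniteIndex) (φ : H ≃* K) :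
    ∃ (a : ℤ) (hta : D.t ^ a ∈ H), 0 < a ∧ ∃ g ∈ 𝒢 D.tW,
      g * D.ρ (D.t ^ a) = D.ρ (φ ⟨D.t ^ a, hta⟩ : Q) * g ∧
      ∀ x : D.AH H, g * D.ρ (D.val x) = D.ρ (D.val (D.φA hK φ x)) * g := by
  obtain ⟨a', ha, hta'⟩ := exists_pow_mem H hH D.t
  obtain ⟨a, haa⟩ : ∃ a : ℤ, a = a' := ⟨_, rfl⟩
  have hta : D.t ^ a ∈ H := by
    rw [haa, zpow_natCast]
    exact H.normalCore_le hta'
  have ha0 : 0 < a := by omega
  have hb0 : D.κ (φ ⟨D.t ^ a, hta⟩ : Q) ≠ 0 := by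
    intro h0
    have h1 := D.claim hH φ.symm (φ ⟨D.t ^ a, hta⟩) (D.mem_M h0)
    rw [MulEquiv.symm_apply_apply] at h1
    exact D.nt a ha0.ne' h1
  obtain ⟨B, hB1, hB2⟩ := D.exists_B hH hK φ ha0.ne' hta rfl hb0
  obtain ⟨g, hg, hg1, hg2⟩ := D.exists_g hK φ ha0 hta rfl hb0 B hB1 hB2
  exact ⟨a, hta, ha0, g, hg, hg1, hg2⟩

theorem tw2 {H K : Subgroup Q} (hK : K.FiniteIndex) (φ : H ≃* K)
    (a : ℤ) (hta : D.t ^ a ∈ H) (g : Aff D.W)
    (hg1 : g * D.ρ (D.t ^ a) = D.ρ (φ ⟨D.t ^ a, hta⟩ : Q) * g)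
    (hg2 : ∀ x : D.AH H, g * D.ρ (D.val x) = D.ρ (D.val (D.φA hK φ x)) * g)
    (x : Q) (hx : x ∈ H) (hq : a ∣ D.κ x) :
      g * D.ρ x = D.ρ (φ ⟨x, hx⟩) * g := by
  obtain ⟨q, hq⟩ := hq
  have h2 : x = D.val (D.mp x) * (D.t ^ a) ^ q := by
    rw [← zpow_mul, ← hq]
    exact D.eq_mp x
  have h3 : D.val (D.mp x) ∈ H := by
    have h4 : D.val (D.mp x) = x * ((D.t ^ a) ^ q)⁻¹ := by
      rw [eq_mul_inv_iff_mul_eq]
      exact h2.symm
    rw [h4]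
    exact mul_mem hx (inv_mem (zpow_mem hta _))
  have h4 : (⟨x, hx⟩ : H) = ⟨D.val (D.mp x), h3⟩ * ⟨D.t ^ a, hta⟩ ^ q := by
    apply Subtype.ext
    rw [Subgroup.coe_mul, Subgroup.coe_zpow]
    exact h2
  have h5 : SemiconjBy g (D.ρ (D.t ^ a)) (D.ρ (φ ⟨D.t ^ a, hta⟩ : Q)) := hg1
  have h6 : SemiconjBy g (D.ρ (D.val (D.mp x))) (D.ρ (φ ⟨D.val (D.mp x), h3⟩ : Q)) :=
    hg2 ⟨D.mp x, h3⟩
  have h7 := h6.mul_right (h5.zpow_right q)
  rw [← map_zpow, ← map_zpow, ← map_mul, ← map_mul, ← h2, ← Subgroup.coe_zpow, ← map_zpow,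
    ← Subgroup.coe_mul, ← map_mul, ← h4] at h7
  exact h7

theorem κh_fi (a : ℕ) (ha : 0 < a) : (D.κh a).ker.FiniteIndex := by
  have hne : NeZero a := ⟨ha.ne'⟩
  have hfin : Finite (Multiplicative (ZMod a)) := inferInstance
  exact Subgroup.finiteIndex_ker _

/-- **existence** -/
theorem exists_tw {H K : Subgroup Q} (hH : H.FiniteIndex) (hK : K.FiniteIndex) (φ : H ≃* K) :
    ∃ g ∈ 𝒢 D.tW, ∃ L : Subgroup Q, L.FiniteIndex ∧ ∀ x ∈ L, ∃ h : x ∈ H,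
      g * D.ρ x = D.ρ (φ ⟨x, h⟩) * g := by
  obtain ⟨a, hta, ha, g, hg, hg1, hg2⟩ := D.exists_tw1 hH hK φ
  have hfi := D.κh_fi a.natAbs (by omega)
  refine ⟨g, hg, H ⊓ (D.κh a.natAbs).ker, inferInstance, ?_⟩
  intro x hx
  have h3 : a ∣ D.κ x := Int.natAbs_dvd.1 (D.mem_κh.1 hx.2)
  exact ⟨hx.1, D.tw2 hK φ a hta g hg1 hg2 x hx.1 h3⟩

end Dat

end Pool.Agent.Helper84.Cm
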