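import Pool.Agent.Helper84.Cm.K
import Pool.Graph.R_pool_sql_team_seeded_2aa45f1a.Q152.TA.Comm
import Pool.Graph.R_pool_sql_team_seeded_64922ed1.X201.FJ.TreeComm

/-!
# Abstract commensurators
-/

set_option autoImplicit false

open Polynomial

namespace Pool.Agent.Helper84.Cm

open Pool.Agent.Helper84.FJ Pool.Agent.Y462.SS Pool.Agent.Q152.WP Pool.Agent.Q91.FJ
open Pool.Agent.X201.FJ Pool.Agent.X201.FJ.AC

variable {C : ∀ (G : Type) [Group G], Prop}

/-- virtual automorphisms restrict to subgroups of finite index -/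
theorem exists_φ {E : Type} [Group E] (E₀ : Subgroup E) (hE₀ : E₀.FiniteIndex) {f : E → E}
    (hf : IsVA f) : ∃ (H K : Subgroup E₀) (φ : H ≃* K), H.FiniteIndex ∧ K.FiniteIndex ∧
      ∀ x : H, f ((x : E₀) : E) = ((φ x : E₀) : E) := by
  obtain ⟨A, ψ, hA, hψ, hψr, hf⟩ := hf
  let H : Subgroup E₀ := (dom A ψ E₀).subgroupOf E₀
  have hH : ∀ x : H, ∃ h : ((x : E₀) : E) ∈ A, ψ ⟨_, h⟩ ∈ E₀ := fun x =>
    mem_dom.1 (Subgroup.mem_subgroupOf.1 x.2)
  have hdfi := dom_finiteIndex A ψ E₀ hA hE₀
  let χ : H →* E₀ :=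
    { toFun := fun x => ⟨ψ ⟨((x : E₀) : E), (hH x).1⟩, (hH x).2⟩
      map_one' := by
        apply Subtype.ext
        exact map_one ψ
      map_mul' := by
        intro x y
        apply Subtype.ext
        exact map_mul ψ ⟨((x : E₀) : E), (hH x).1⟩ ⟨((y : E₀) : E), (hH y).1⟩ }
  have hχ : ∀ x, ((χ x : E₀) : E) = ψ ⟨((x : E₀) : E), (hH x).1⟩ := fun _ => rfl
  have hχi : Function.Injective χ := by
    intro x y hxy
    have h1 := congrArg (fun z : E₀ => (z : E)) hxy
    simp only [hχ] at h1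
    have h2 := congrArg (fun z : A => (z : E)) (hψ h1)
    exact Subtype.ext (Subtype.ext h2)
  have hK : χ.range.FiniteIndex := by
    have h1 : (((E₀.subgroupOf A).map ψ) ⊓ E₀).subgroupOf E₀ ≤ χ.range := by
      intro y hy
      obtain ⟨a, ha, hay⟩ := (Subgroup.mem_subgroupOf.1 hy).1
      have ha' : (a : E) ∈ E₀ := Subgroup.mem_subgroupOf.1 ha
      have h2 : (⟨(a : E), ha'⟩ : E₀) ∈ H := by
        rw [Subgroup.mem_subgroupOf, mem_dom]
        refine ⟨a.2, ?_⟩
        change ψ a ∈ E₀
        rw [hay]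
        exact y.2
      refine ⟨⟨_, h2⟩, ?_⟩
      apply Subtype.ext
      rw [hχ]
      exact hay
    have h2 : ((E₀.subgroupOf A).map ψ).FiniteIndex := by
      constructor
      rw [Subgroup.index_map, (MonoidHom.ker_eq_bot_iff ψ).2 hψ, sup_bot_eq]
      refine mul_ne_zero ?_ hψr.index_ne_zero
      have : (E₀.subgroupOf A).FiniteIndex := inferInstance
      exact this.index_ne_zero
    exact Subgroup.finiteIndex_of_le h1
  refine ⟨H, χ.range, MonoidHom.ofInjective hχi, inferInstance, hK, fun x => ?_⟩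
  rw [hf ⟨((x : E₀) : E), (hH x).1⟩, ← hχ]
  rfl

/-- **the abstract commensurator embeds into the affine group** -/
theorem emb_dat {E : Type} [Group E] (E₀ : Subgroup E) (hE₀ : E₀.FiniteIndex) (D : Dat E₀) :
    ∃ j : AbsComm E →* 𝒢 D.tW, Function.Injective j := by
  refine emb (ρ := D.ρ) hE₀ D.ρ_inj ?_ ?_
  · rintro g - ⟨L, hL, h⟩
    have h1 : (L.subgroupOf E₀).FiniteIndex := inferInstance
    refine D.uniq g (L.subgroupOf E₀) h1 (fun x hx => ?_)
    obtain ⟨h2, h3⟩ := h x hx
    exact h3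
  · intro f hf
    obtain ⟨H, K, φ, hH, hK, hφ⟩ := exists_φ E₀ hE₀ hf
    obtain ⟨g, hg, L, hL, h⟩ := D.exists_tw hH hK φ
    refine ⟨g, hg, L.map E₀.subtype, ?_, ?_⟩
    · constructor
      rw [Subgroup.index_map_subtype]
      exact mul_ne_zero hL.index_ne_zero hE₀.index_ne_zero
    · rintro _ ⟨x, hx, rfl⟩
      obtain ⟨h1, h2⟩ := h x hx
      have h3 : f (x : E) = ((φ ⟨x, h1⟩ : E₀) : E) := hφ ⟨x, h1⟩
      have h4 : f (E₀.subtype x) ∈ E₀ := by
        change f (x : E) ∈ E₀
        rw [h3]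
        exact (φ ⟨x, h1⟩ : E₀).2
      refine ⟨x.2, h4, ?_⟩
      have h5 : (⟨f (E₀.subtype x), h4⟩ : E₀) = (φ ⟨x, h1⟩ : E₀) := Subtype.ext h3
      rw [h5]
      exact h2

/-- the affine groups are in the class -/
theorem 𝒢_dat (hC : Closed C)
    (hQ : ∀ n : ℕ, C (Matrix.GeneralLinearGroup (Fin n) ℚ))
    (hF : ∀ (p : ℕ) [Fact p.Prime] (n : ℕ),
      C (Matrix.GeneralLinearGroup (Fin n) (RatFunc (ZMod p))))
    {Q : Type} [Group Q] (D : Dat Q) (hfg : Group.FG Q) (hR : FRank D.A) :
    LV (fun K _ => ∀ n : ℕ, C (Matrix.GeneralLinearGroup (Fin n) K)) (𝒢 D.tW) := by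
  have hRW := D.frank hR
  by_cases htf : ∀ (n : ℕ) (w : D.W), 0 < n → n • w = 0 → w = 0
  · exact 𝒢_tf hQ hRW htf D.tW
  · push Not at htf
    obtain ⟨n, w, hn, hw, hw0⟩ := htf
    have h1 : addOrderOf w ≠ 0 := by
      intro h0
      have h2 := addOrderOf_dvd_of_nsmul_eq_zero hw
      rw [h0, zero_dvd_iff] at h2
      omega
    have h2 : addOrderOf w ≠ 1 := fun h => hw0 (AddMonoid.addOrderOf_eq_one_iff.1 h)
    obtain ⟨p, hp, q, hq⟩ := Nat.exists_prime_and_dvd h2
    have hpf : Fact p.Prime := ⟨hp⟩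
    have h3 : (p : ℤ) • (q • w) = 0 := by
      rw [natCast_zsmul, ← mul_smul, ← hq]
      exact addOrderOf_nsmul_eq_zero w
    have h4 : q • w ≠ 0 := by
      intro h5
      have h6 := addOrderOf_dvd_of_nsmul_eq_zero h5
      rw [hq] at h6
      have hq0 : 0 < q := by
        rcases Nat.eq_zero_or_pos q with h | h
        · rw [h, mul_zero] at hq
          exact absurd hq h1
        · exact h
      have h7 := Nat.le_of_dvd hq0 h6
      have h8 := hp.two_le
      nlinarith
    exact 𝒢_mem hC hQ hF D.reg_tW (D.fgen hfg) hRW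
      (fun B a b ha hb h => hab D.reg_tW (D.fgen hfg) h3 h4 B a b ha hb h)

/-- the condition: a subgroup `E₀` of finite index which is finitely generated, has no element `≠ 1`
which commutes with the elements of a subgroup of finite index, and is the product of an abelian normal
subgroup `M` of finite torsion-free rank and a cyclic subgroup -/
def AbCyc (E : Type) [Group E] : Prop :=
  ∃ (E₀ M : Subgroup E) (t : E), E₀.FiniteIndex ∧ E₀.FG ∧ M ≤ E₀ ∧ t ∈ E₀ ∧
    (∀ g ∈ E₀, ∀ m ∈ M, g * m * g⁻¹ ∈ M) ∧ (∀ x ∈ M, ∀ y ∈ M, x * y = y * x) ∧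
    (∀ g ∈ E₀, ∃ m ∈ M, ∃ k : ℤ, g = m * t ^ k) ∧
    (∃ s : Finset E, (∀ x ∈ s, x ∈ M) ∧
      ∀ m ∈ M, ∃ n : ℕ, 0 < n ∧ m ^ n ∈ Subgroup.closure (s : Set E)) ∧
    (∀ g ∈ E₀, (∃ A : Subgroup E, A.FiniteIndex ∧ ∀ a ∈ A, g * a = a * g) → g = 1)

theorem abs_trivial {P : ∀ (K : Type) [Field K], Prop} {E : Type} [Group E] (hE : Finite E) :
    LV P (AbsComm E) := by
  have h1 : ∀ x y : AbsComm E, x = y := by
    intro x y
    induction x using AbsComm.ind with
    | h f hf =>
    induction y using AbsComm.ind with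
    | h g hg =>
    rw [AbsComm.mk_eq]
    refine ⟨⊥, inferInstance, fun a ha => ?_⟩
    rw [Subgroup.mem_bot] at ha
    rw [ha]
    obtain ⟨A, φ, -, -, -, hf⟩ := hf
    obtain ⟨B, ψ, -, -, -, hg⟩ := hg
    have h2 := hf 1
    have h3 := hg 1
    rw [map_one] at h2 h3
    exact h2.trans h3.symm
  exact LV.of_vsl (VSL.of_vs (VS.of_solvable (Group.isSolvable_of_comm (fun a b => h1 _ _))))

/-- **abstract commensurators of finitely generated (abelian of finite rank)-by-cyclic groups** -/
theorem abs_lv (hC : Closed C)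
    (hQ : ∀ n : ℕ, C (Matrix.GeneralLinearGroup (Fin n) ℚ))
    (hF : ∀ (p : ℕ) [Fact p.Prime] (n : ℕ),
      C (Matrix.GeneralLinearGroup (Fin n) (RatFunc (ZMod p))))
    {E : Type} [Group E] (h : AbCyc E) :
    LV (fun K _ => ∀ n : ℕ, C (Matrix.GeneralLinearGroup (Fin n) K)) (AbsComm E) := by
  classical
  obtain ⟨E₀, M, t, hfi, hfg, hM, ht, hnorm, hcomm, hgen, ⟨s, hsM, hs⟩, hicc⟩ := h
  -- elements which commute with a power of `t`
  have hreg : ∀ k : ℤ, k ≠ 0 → ∀ m ∈ M, t ^ k * m = m * t ^ k → m = 1 := by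
    intro k hk m hm hkm
    refine hicc m (hM hm) ⟨(Subgroup.centralizer {m}) ⊓ E₀, ?_, ?_⟩
    · -- finite index
      let N : Subgroup E₀ := ((Subgroup.centralizer {m}) ⊓ E₀).subgroupOf E₀
      have h1 : ∀ g : E₀, ∃ i : Fin k.natAbs, ((⟨t, ht⟩ : E₀) ^ (i : ℕ))⁻¹ * g ∈ N := by
        intro g
        obtain ⟨x, hx, j, hj⟩ := hgen g g.2
        -- `g = x t ^ j = t ^ j x'`
        have hx' : (t ^ j)⁻¹ * x * t ^ j ∈ M := by
          have := hnorm (t ^ (-j)) (zpow_mem ht _) x hx
          rw [zpow_neg, inv_inv] at this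
          exact this
        have hkpos : 0 < k.natAbs := Int.natAbs_pos.2 hk
        refine ⟨⟨(j % (k.natAbs : ℤ)).toNat, ?_⟩, ?_⟩
        · have h2 := Int.emod_lt_of_pos j (by omega : (0 : ℤ) < k.natAbs)
          have h3 := Int.emod_nonneg j (by omega : (k.natAbs : ℤ) ≠ 0)
          omega
        · rw [Subgroup.mem_subgroupOf]
          refine ⟨Subgroup.mem_centralizer_singleton_iff.2 ?_, ?_⟩
          · have h3 := Int.emod_nonneg j (by omega : (k.natAbs : ℤ) ≠ 0)
            have h4 : ((((⟨t, ht⟩ : E₀) ^ ((j % (k.natAbs : ℤ)).toNat : ℕ))⁻¹ * g : E₀) : E) =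
                (t ^ k.natAbs) ^ (j / (k.natAbs : ℤ)) * ((t ^ j)⁻¹ * x * t ^ j) := by
              rw [Subgroup.coe_mul, Subgroup.coe_inv, Subgroup.coe_pow]
              change (t ^ ((j % (k.natAbs : ℤ)).toNat : ℕ))⁻¹ * (g : E) = _
              rw [← zpow_natCast t ((j % (k.natAbs : ℤ)).toNat), Int.toNat_of_nonneg h3, hj,
                ← zpow_natCast t k.natAbs, ← zpow_mul]
              have h5 : (k.natAbs : ℤ) * (j / (k.natAbs : ℤ)) = j - j % (k.natAbs : ℤ) := by
                have := Int.emod_add_mul_ediv j (k.natAbs : ℤ)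
                omega
              rw [h5, sub_eq_neg_add, zpow_add, zpow_neg]
              group
            have h5 : Commute (t ^ k.natAbs) m := by
              have h6 : Commute (t ^ k) m := hkm
              rcases Int.natAbs_eq k with h7 | h7
              · rw [h7, zpow_natCast] at h6
                exact h6
              · rw [h7, zpow_neg, zpow_natCast] at h6
                exact Commute.inv_left_iff.1 h6
            have h6 : Commute ((t ^ j)⁻¹ * x * t ^ j) m := hcomm _ hx' _ hm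
            rw [h4]
            exact ((h5.zpow_left _).mul_left h6)
          · exact (((⟨t, ht⟩ : E₀) ^ ((j % (k.natAbs : ℤ)).toNat : ℕ))⁻¹ * g : E₀).2
      have h2 : N.FiniteIndex := by
        have h3 : Finite (E₀ ⧸ N) := by
          refine Finite.of_surjective (fun i : Fin k.natAbs =>
            (((⟨t, ht⟩ : E₀) ^ (i : ℕ) : E₀) : E₀ ⧸ N)) ?_
          intro q
          induction q using QuotientGroup.induction_on with
          | H g =>
          obtain ⟨i, hi⟩ := h1 g
          exact ⟨i, QuotientGroup.eq.2 hi⟩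
        exact Subgroup.finiteIndex_of_finite_quotient
      constructor
      have h3 : (Subgroup.centralizer {m} ⊓ E₀).relIndex E₀ ≠ 0 := h2.index_ne_zero
      have h4 := Subgroup.relIndex_mul_index (inf_le_right : Subgroup.centralizer {m} ⊓ E₀ ≤ E₀)
      rw [← h4]
      exact mul_ne_zero h3 hfi.index_ne_zero
    · intro a ha
      exact (Subgroup.mem_centralizer_singleton_iff.1 ha.1).symm
  by_cases hnt : ∀ k : ℤ, k ≠ 0 → t ^ k ∉ M
  · by_cases hne : ∃ m ∈ M, m ≠ 1
    · -- the main case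
      let D : Dat E₀ :=
        { M := M.subgroupOf E₀
          normal := ⟨fun m hm g => hnorm g g.2 m hm⟩
          comm := fun x hx y hy => Subtype.ext (hcomm x hx y hy)
          t := ⟨t, ht⟩
          gen := by
            intro g
            obtain ⟨m, hm, k, hk⟩ := hgen g g.2
            refine ⟨⟨m, hM hm⟩, hm, k, ?_⟩
            apply Subtype.ext
            rw [Subgroup.coe_mul, Subgroup.coe_zpow]
            exact hk
          nt := by
            intro k hk h
            apply hnt k hk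
            have h1 := Subgroup.mem_subgroupOf.1 h
            rwa [Subgroup.coe_zpow] at h1
          reg := by
            intro k hk m hm h
            apply Subtype.ext
            refine hreg k hk m hm ?_
            have h1 := congrArg Subtype.val h
            rw [Subgroup.coe_mul, Subgroup.coe_mul, Subgroup.coe_zpow] at h1
            exact h1
          ne := by
            obtain ⟨m, hm, h⟩ := hne
            exact ⟨⟨m, hM hm⟩, hm, fun h0 => h (congrArg Subtype.val h0)⟩ }
      have hR : FRank D.A := by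
        refine ⟨s.attach.image (fun x => D.el ⟨x.1, hM (hsM x.1 x.2)⟩ (hsM x.1 x.2)),
          fun w => ?_⟩
        obtain ⟨n, hn, h1⟩ := hs (D.val w : E) (D.val_mem w)
        refine ⟨n, hn, ?_⟩
        have h2 : ∀ y ∈ Subgroup.closure (s : Set E), ∃ (h : y ∈ M),
            D.el ⟨y, hM h⟩ h ∈ AddSubgroup.closure
              ((s.attach.image (fun x => D.el ⟨x.1, hM (hsM x.1 x.2)⟩ (hsM x.1 x.2)) :
                Finset D.A) : Set D.A) := by
          intro y hy
          induction hy using Subgroup.closure_induction with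
          | mem y hy =>
            refine ⟨hsM y hy, AddSubgroup.subset_closure ?_⟩
            rw [Finset.coe_image]
            exact ⟨⟨y, hy⟩, Finset.mem_coe.2 (Finset.mem_attach _ _), rfl⟩
          | one => exact ⟨one_mem _, zero_mem _⟩
          | mul a b _ _ ha hb =>
            obtain ⟨ha1, ha2⟩ := ha
            obtain ⟨hb1, hb2⟩ := hb
            exact ⟨mul_mem ha1 hb1, add_mem ha2 hb2⟩
          | inv a _ ha =>
            obtain ⟨ha1, ha2⟩ := ha
            exact ⟨inv_mem ha1, neg_mem ha2⟩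
        obtain ⟨h3, h4⟩ := h2 _ h1
        have h5 : ∀ n : ℕ, D.val (n • w) = D.val w ^ n := by
          intro n
          induction n with
          | zero => rw [zero_smul, pow_zero]; rfl
          | succ n ih => rw [add_smul, one_smul, D.val_add, ih, pow_succ]
        have h6 : n • w = D.el ⟨(D.val w : E) ^ n, hM h3⟩ h3 := by
          apply D.val_inj
          rw [h5]
          apply Subtype.ext
          exact Subgroup.coe_pow _ _ _
        rw [h6]
        exact h4
      have hfg' : Group.FG E₀ := (Group.fg_iff_subgroup_fg E₀).2 hfg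
      obtain ⟨j, hj⟩ := emb_dat E₀ hfi D
      exact LV.of_injective j hj (𝒢_dat hC hQ hF D hfg' hR)
    · -- `M` is trivial
      push Not at hne
      have h1 : t = 1 := by
        refine hicc t ht ⟨E₀, hfi, fun a ha => ?_⟩
        obtain ⟨m, hm, k, rfl⟩ := hgen a ha
        rw [hne m hm, one_mul]
        exact (Commute.self_zpow t k).eq
      exact absurd (by rw [h1, one_zpow]; exact one_mem _) (hnt 1 one_ne_zero)
  · -- virtually abelian
    push Not at hnt
    obtain ⟨k, hk, htk⟩ := hnt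
    have hMt : ∀ m ∈ M, m = 1 := fun m hm => hreg k hk m hm (hcomm _ htk _ hm)
    have ht1 : t = 1 := by
      refine hicc t ht ⟨E₀, hfi, fun a ha => ?_⟩
      obtain ⟨m, hm, k, rfl⟩ := hgen a ha
      rw [hMt m hm, one_mul]
      exact (Commute.self_zpow t k).eq
    have hE₀ : E₀ = ⊥ := by
      rw [eq_bot_iff]
      intro g hg
      obtain ⟨m, hm, k, rfl⟩ := hgen g hg
      rw [Subgroup.mem_bot, hMt m hm, ht1, one_zpow, one_mul]
    have hfin : Finite E := by
      rw [hE₀] at hfi
      have h1 : Finite (E ⧸ (⊥ : Subgroup E)) := inferInstance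
      exact Finite.of_equiv _ (QuotientGroup.quotientBot (G := E)).toEquiv
    exact abs_trivial hfin

/-- **quotients of subgroups by virtually solvable normal subgroups** -/
theorem lv_quot (hC : Closed C) (hE : ExtClosed C) (hS : HasSolvable C) {G : Type} [Group G]
    (h : LV (fun K _ => ∀ n : ℕ, C (Matrix.GeneralLinearGroup (Fin n) K)) G)
    (H : Subgroup G) (S : Subgroup H) [S.Normal] (hVS : VSolv S) : C (H ⧸ S) := by
  have hGL : HasLinear (fun K _ => ∀ n : ℕ, C (Matrix.GeneralLinearGroup (Fin n) K)) C :=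
    fun K _ h => h
  refine LV.mem hC hE hS hGL (LV.quot (QuotientGroup.mk' S) (QuotientGroup.mk'_surjective S) ?_
    (LV.of_injective H.subtype H.subtype_injective h))
  intro L _
  rw [QuotientGroup.ker_mk']
  exact VS.of_injective (Subgroup.inclusion (inf_le_left : S ⊓ L ≤ S))
    (Subgroup.inclusion_injective _) (vs_iff.2 hVS)

/-- **abstract commensurators** -/
theorem abs_mem (hC : Closed C) (hE : ExtClosed C) (hS : HasSolvable C)
    (hQ : ∀ n : ℕ, C (Matrix.GeneralLinearGroup (Fin n) ℚ))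
    (hF : ∀ (p : ℕ) [Fact p.Prime] (n : ℕ),
      C (Matrix.GeneralLinearGroup (Fin n) (RatFunc (ZMod p))))
    {E : Type} [Group E] (h : AbCyc E) : C (AbsComm E) :=
  LV.mem hC hE hS (fun _ _ h => h) (abs_lv hC hQ hF h)

end Pool.Agent.Helper84.Cm
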