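import Pool.Agent.Helper84.Cm.L

/-!
# Actions on trees with commensurable stabilizers
-/

set_option autoImplicit false

namespace Pool.Agent.Helper84.Cm

open Pool.Agent.Helper84.FJ Pool.Agent.Y462.SS Pool.Agent.Q152.WP Pool.Agent.Q91.FJ
open Pool.Agent.X201.FJ Pool.Agent.X201.FJ.AC Pool.Agent.Q152.TA

variable {C : ∀ (G : Type) [Group G], Prop}

theorem rk_of_finite {Γ : Type} [Group Γ] (N : Subgroup Γ) (hN : Finite N) : Rk 0 N := by
  intro N' hN'
  refine ⟨⊥, bot_le, ?_, ?_, ?_, ?_⟩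
  · rw [Subgroup.relIndex_bot_left]
    have h1 : Finite N' := Finite.of_injective _ (Subgroup.inclusion_injective hN')
    exact Nat.card_pos.ne'
  · intro a ha b hb
    rw [Subgroup.mem_bot] at ha hb
    rw [ha, hb]
  · intro n _ a ha
    exact ⟨1, one_mem _, by rw [one_pow, Subgroup.mem_bot.1 ha]⟩
  · intro a ha
    exact ⟨1, one_ne_zero, by rw [Subgroup.mem_bot.1 ha, one_pow]⟩

theorem comm_inf {Γ : Type} [Group Γ] (F A B : Subgroup Γ) (h : Comm A B) :
    Comm (F ⊓ A) (F ⊓ B) := by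
  have key : ∀ A B : Subgroup Γ, A.relIndex B ≠ 0 → (F ⊓ A).relIndex (F ⊓ B) ≠ 0 := by
    intro A B h
    have h1 : (F ⊓ A).relIndex (F ⊓ B) = A.relIndex (F ⊓ B) := by
      rw [← Subgroup.inf_relIndex_right (F ⊓ A) (F ⊓ B), ← Subgroup.inf_relIndex_right A (F ⊓ B)]
      congr 1
      ext x
      simp only [Subgroup.mem_inf]
      tauto
    rw [h1]
    intro h0
    exact h (Subgroup.relIndex_eq_zero_of_le_right inf_le_right h0)
  exact ⟨key A B h.1, key B A h.2⟩

/-- **trees with commensurable vertex stabilizers** -/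
theorem tree_mem (hC : Closed C) (hE : ExtClosed C) (hS : HasSolvable C) {Γ V : Type} [Group Γ]
    [MulAction Γ V] {T : SimpleGraph V} (hT : T.IsTree)
    (hadj : ∀ (γ : Γ) (x y : V), T.Adj x y → T.Adj (γ • x) (γ • y))
    (hcomm : ∀ v w : V, T.Adj v w → Comm (MulAction.stabilizer Γ v) (MulAction.stabilizer Γ w))
    (v : V) (hv : C (AbsComm (MulAction.stabilizer Γ v)))
    (hfc : ∃ E₀ : Subgroup (MulAction.stabilizer Γ v), E₀.FiniteIndex ∧
      ∀ g ∈ E₀, (∃ A : Subgroup (MulAction.stabilizer Γ v), A.FiniteIndex ∧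
        ∀ a ∈ A, g * a = a * g) → g = 1) : C Γ := by
  have hidx : ∀ u w : V, T.Adj u w →
      (MulAction.stabilizer Γ w).relIndex (MulAction.stabilizer Γ u) ≠ 0 :=
    fun u w h => (hcomm u w h).2
  have hK := stab_comm hT.connected hidx v
  let f := commMap hK
  have hfin : Finite (f.ker ⊓ MulAction.stabilizer Γ v : Subgroup Γ) := by
    obtain ⟨E₀, hE₀, h⟩ := hfc
    let N : Subgroup (MulAction.stabilizer Γ v) :=
      (f.ker ⊓ MulAction.stabilizer Γ v).subgroupOf (MulAction.stabilizer Γ v)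
    have h1 : N ⊓ E₀ = ⊥ := by
      rw [eq_bot_iff]
      intro x hx
      rw [Subgroup.mem_bot]
      refine h x hx.2 ?_
      have h2 : f (x : Γ) = 1 := (Subgroup.mem_subgroupOf.1 hx.1).1
      obtain ⟨A, hAK, hA, hA'⟩ := commMap_eq_one hK x h2
      refine ⟨A.subgroupOf (MulAction.stabilizer Γ v), ⟨hA⟩, fun a ha => ?_⟩
      apply Subtype.ext
      exact hA' a (Subgroup.mem_subgroupOf.1 ha)
    have h2 : Finite N := by
      have h3 : Function.Injective (fun x : N => ((x : MulAction.stabilizer Γ v) :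
          MulAction.stabilizer Γ v ⧸ E₀)) := by
        intro x y hxy
        have h4 : (x : MulAction.stabilizer Γ v)⁻¹ * y ∈ E₀ := QuotientGroup.eq.1 hxy
        have h5 : (x : MulAction.stabilizer Γ v)⁻¹ * y ∈ N ⊓ E₀ :=
          ⟨N.mul_mem (N.inv_mem x.2) y.2, h4⟩
        rw [h1, Subgroup.mem_bot] at h5
        exact Subtype.ext (inv_mul_eq_one.1 h5)
      have h4 : Finite (MulAction.stabilizer Γ v ⧸ E₀) := inferInstance
      exact Finite.of_injective _ h3
    refine Finite.of_injective (fun x : (f.ker ⊓ MulAction.stabilizer Γ v : Subgroup Γ) =>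
      (⟨⟨x.1, x.2.2⟩, Subgroup.mem_subgroupOf.2 x.2⟩ : N)) ?_
    intro x y hxy
    apply Subtype.ext
    exact congrArg (fun z : N => ((z : MulAction.stabilizer Γ v) : Γ)) hxy
  have h3' : ∀ (u w : V), T.Walk u w → Rk 0 (f.ker ⊓ MulAction.stabilizer Γ u) →
      Rk 0 (f.ker ⊓ MulAction.stabilizer Γ w) := by
    intro u w p
    induction p with
    | nil => exact id
    | @cons a b c hab p ih => exact fun h => ih (h.comm (comm_inf f.ker _ _ (hcomm a b hab)))
  have h3 : ∀ w : V, Rk 0 (f.ker ⊓ MulAction.stabilizer Γ w) := by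
    intro w
    obtain ⟨p⟩ := hT.connected.preconnected v w
    exact h3' v w p (rk_of_finite _ hfin)
  exact tree_comm hT hadj hC hE hS hv f 0 (Or.inr h3)
    (fun u w h => Or.inr ⟨comm_inf f.ker _ _ (hcomm u w h), h3 u⟩)

end Pool.Agent.Helper84.Cm
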