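import Pool.Agent.Helper84.Cm.M

/-!
# Lamplighter groups
-/

set_option autoImplicit false

namespace Pool.Agent.Helper84.Cm

section lamp

variable (F : Type) [AddCommGroup F]

/-- the shift of the finitely supported functions on the integers -/
noncomputable def shift : Multiplicative ℤ →* MulAut (Multiplicative (ℤ →₀ F)) where
  toFun k := AddEquiv.toMultiplicative (Finsupp.domCongr (Equiv.addLeft (Multiplicative.toAdd k)))
  map_one' := by
    apply MulEquiv.ext
    intro f
    apply Multiplicative.toAdd.injective
    change (Finsupp.domCongr (Equiv.addLeft (0 : ℤ)) (Multiplicative.toAdd f) : ℤ →₀ F) =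
      Multiplicative.toAdd f
    ext i
    rw [Finsupp.domCongr_apply, Finsupp.equivMapDomain_apply]
    simp only [Equiv.addLeft_symm, Equiv.coe_addLeft, neg_zero, zero_add]
  map_mul' j k := by
    apply MulEquiv.ext
    intro f
    apply Multiplicative.toAdd.injective
    change (Finsupp.domCongr (Equiv.addLeft (Multiplicative.toAdd j +
      Multiplicative.toAdd k)) (Multiplicative.toAdd f) : ℤ →₀ F) = Finsupp.domCongr
        (Equiv.addLeft (Multiplicative.toAdd j)) (Finsupp.domCongr
          (Equiv.addLeft (Multiplicative.toAdd k)) (Multiplicative.toAdd f))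
    ext i
    rw [Finsupp.domCongr_apply, Finsupp.equivMapDomain_apply, Finsupp.domCongr_apply,
      Finsupp.equivMapDomain_apply, Finsupp.domCongr_apply, Finsupp.equivMapDomain_apply]
    simp only [Equiv.addLeft_symm, Equiv.coe_addLeft]
    congr 1
    ring

/-- **The lamplighter group** `F ≀ ℤ`: the finitely supported functions from `ℤ` to `F`, extended by the
translations. -/
abbrev Lamp : Type := Multiplicative (ℤ →₀ F) ⋊[shift F] Multiplicative ℤ

variable {F}

theorem shift_apply (k : ℤ) (f : ℤ →₀ F) (i : ℤ) :
    (Multiplicative.toAdd (shift F (Multiplicative.ofAdd k) (Multiplicative.ofAdd f)) : ℤ →₀ F) i =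
      f (i - k) := by
  change (Finsupp.domCongr (Equiv.addLeft k) f : ℤ →₀ F) i = f (i - k)
  rw [Finsupp.domCongr_apply, Finsupp.equivMapDomain_apply]
  simp only [Equiv.addLeft_symm, Equiv.coe_addLeft]
  congr 1
  ring

theorem periodic_zero (f : ℤ →₀ F) (k : ℤ) (hk : k ≠ 0) (h : ∀ i, f (i - k) = f i) : f = 0 := by
  by_contra hf
  obtain ⟨i, hi⟩ := Finsupp.support_nonempty_iff.2 hf
  have h1 : ∀ n : ℕ, f (i - n * k) ≠ 0 := by
    intro n
    induction n with
    | zero =>
      rw [Nat.cast_zero, zero_mul, sub_zero]
      exact Finsupp.mem_support_iff.1 hi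
    | succ n ih =>
      have h2 : i - ((n + 1 : ℕ) : ℤ) * k = (i - n * k) - k := by push_cast; ring
      rw [h2, h]
      exact ih
  have h2 : Set.Infinite ((f.support : Finset ℤ) : Set ℤ) := by
    refine Set.infinite_of_injective_forall_mem (f := fun n : ℕ => i - n * k) ?_ ?_
    · intro a b hab
      have h3 : (a : ℤ) * k = b * k := by
        have : i - (a : ℤ) * k = i - b * k := hab
        linarith
      exact_mod_cast mul_right_cancel₀ hk h3
    · intro n
      exact Finsupp.mem_support_iff.2 (h1 n)
  exact h2 (Finset.finite_toSet _)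

/-- **lamplighter groups satisfy the condition** -/
theorem abCyc_lamp [Finite F] [Nontrivial F] : AbCyc (Lamp F) := by
  classical
  let t : Lamp F := SemidirectProduct.inr (Multiplicative.ofAdd 1)
  have ht : ∀ k : ℤ, t ^ k = SemidirectProduct.inr (Multiplicative.ofAdd k) := by
    intro k
    rw [← map_zpow, ← ofAdd_zsmul, smul_eq_mul, mul_one]
  let M : Subgroup (Lamp F) := SemidirectProduct.rightHom.ker
  have hM : ∀ g : Lamp F, g ∈ M ↔ g.right = 1 := fun _ => Iff.rfl
  have hMl : ∀ g ∈ M, g = SemidirectProduct.inl g.left := by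
    intro g hg
    apply SemidirectProduct.ext
    · rw [SemidirectProduct.left_inl]
    · rw [SemidirectProduct.right_inl]
      exact (hM g).1 hg
  have hcomm : ∀ x ∈ M, ∀ y ∈ M, x * y = y * x := by
    intro x hx y hy
    rw [hMl x hx, hMl y hy, ← map_mul, ← map_mul, mul_comm]
  -- conjugation
  have hconj : ∀ (k : ℤ) (f : ℤ →₀ F), t ^ k * SemidirectProduct.inl (Multiplicative.ofAdd f) *
      (t ^ k)⁻¹ = SemidirectProduct.inl (shift F (Multiplicative.ofAdd k) (Multiplicative.ofAdd f)) := by
    intro k f
    rw [ht, SemidirectProduct.inl_aut, ← map_inv]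
  -- elements commuting with a power of `t`
  have hreg : ∀ (k : ℤ) (g : Lamp F), k ≠ 0 → g ∈ M → t ^ k * g = g * t ^ k → g = 1 := by
    intro k g hk hg h
    obtain ⟨f, hf⟩ : ∃ f : ℤ →₀ F, g = SemidirectProduct.inl (Multiplicative.ofAdd f) :=
      ⟨Multiplicative.toAdd g.left, hMl g hg⟩
    have h1 := hconj k f
    rw [← hf, h, mul_inv_cancel_right, hf] at h1
    have h2 := SemidirectProduct.inl_injective h1
    have h3 : f = 0 := by
      apply periodic_zero f k hk
      intro i
      have h4 := congrArg (fun u : Multiplicative (ℤ →₀ F) =>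
        (Multiplicative.toAdd u : ℤ →₀ F) i) h2
      simp only [shift_apply] at h4
      exact h4.symm
    rw [hf, h3]
    rfl
  refine ⟨⊤, M, t, inferInstance, ?_, le_top, trivial, ?_, hcomm, ?_, ?_, ?_⟩
  · -- finitely generated
    have hfin : Fintype F := Fintype.ofFinite F
    refine ⟨insert t (Finset.univ.image (fun x : F =>
      (SemidirectProduct.inl (Multiplicative.ofAdd (Finsupp.single 0 x)) : Lamp F))), ?_⟩
    rw [eq_top_iff]
    rintro g -
    set N := Subgroup.closure ((insert t (Finset.univ.image (fun x : F =>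
      (SemidirectProduct.inl (Multiplicative.ofAdd (Finsupp.single 0 x)) : Lamp F))) :
        Finset (Lamp F)) : Set (Lamp F)) with hN
    have htN : t ∈ N := Subgroup.subset_closure (by
      rw [Finset.coe_insert]
      exact Set.mem_insert _ _)
    have h0 : ∀ x : F, (SemidirectProduct.inl (Multiplicative.ofAdd (Finsupp.single 0 x)) :
        Lamp F) ∈ N := fun x => Subgroup.subset_closure (by
      rw [Finset.coe_insert]
      refine Set.mem_insert_of_mem _ ?_
      rw [Finset.mem_coe, Finset.mem_image]
      exact ⟨x, Finset.mem_univ _, rfl⟩)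
    have h1 : ∀ f : ℤ →₀ F, (SemidirectProduct.inl (Multiplicative.ofAdd f) : Lamp F) ∈ N := by
      intro f
      induction f using Finsupp.induction_linear with
      | zero => exact one_mem _
      | add f g hf hg =>
        rw [ofAdd_add, map_mul]
        exact mul_mem hf hg
      | single i x =>
        have h2 := mul_mem (mul_mem (zpow_mem htN i) (h0 x)) (inv_mem (zpow_mem htN i))
        rw [hconj] at h2
        have h3 : shift F (Multiplicative.ofAdd i) (Multiplicative.ofAdd (Finsupp.single 0 x)) =
            Multiplicative.ofAdd (Finsupp.single i x) := by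
          apply Multiplicative.toAdd.injective
          ext j
          rw [shift_apply]
          change (Finsupp.single 0 x : ℤ →₀ F) (j - i) = (Finsupp.single i x : ℤ →₀ F) j
          rw [Finsupp.single_apply, Finsupp.single_apply]
          by_cases h : i = j
          · rw [if_pos h, if_pos (by omega)]
          · rw [if_neg h, if_neg (by omega)]
        rwa [h3] at h2
    have h2 : g = SemidirectProduct.inl g.left * t ^ (Multiplicative.toAdd g.right) := by
      rw [ht]
      exact (SemidirectProduct.inl_left_mul_inr_right g).symm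
    rw [h2]
    exact mul_mem (h1 _) (zpow_mem htN _)
  · intro g _ m hm
    exact (MonoidHom.normal_ker _).conj_mem m hm g
  · intro g _
    refine ⟨SemidirectProduct.inl g.left, rfl, Multiplicative.toAdd g.right, ?_⟩
    rw [ht]
    exact (SemidirectProduct.inl_left_mul_inr_right g).symm
  · refine ⟨∅, fun x hx => absurd hx (Finset.notMem_empty x), fun m hm => ?_⟩
    refine ⟨Nat.card F, Nat.card_pos, ?_⟩
    have h1 : m ^ Nat.card F = 1 := by
      rw [hMl m hm, ← map_pow]
      have h2 : m.left ^ Nat.card F = 1 := by
        apply Multiplicative.toAdd.injective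
        rw [toAdd_pow]
        ext i
        change Nat.card F • (Multiplicative.toAdd m.left : ℤ →₀ F) i = 0
        exact card_nsmul_eq_zero'
      rw [h2, map_one]
    rw [h1]
    exact one_mem _
  · rintro g - ⟨A, hA, h⟩
    obtain ⟨c, hc, htc⟩ := exists_pow_mem A hA t
    have htA := A.normalCore_le htc
    have hc' : (c : ℤ) ≠ 0 := by omega
    -- the exponent of `g` vanishes
    obtain ⟨k, hk⟩ : ∃ k : ℤ, g = SemidirectProduct.inl g.left * t ^ k :=
      ⟨Multiplicative.toAdd g.right, by
        rw [ht]
        exact (SemidirectProduct.inl_left_mul_inr_right g).symm⟩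
    have hinl : ∀ x : Multiplicative (ℤ →₀ F), (SemidirectProduct.inl x : Lamp F) ∈ M := fun _ => rfl
    by_cases hk0 : k = 0
    · rw [hk0, zpow_zero, mul_one] at hk
      refine hreg c g hc' (by rw [hk]; exact hinl _) ?_
      rw [zpow_natCast]
      exact (h _ htA).symm
    · exfalso
      obtain ⟨x, hx⟩ := exists_ne (0 : F)
      let m : Lamp F := SemidirectProduct.inl (Multiplicative.ofAdd (Finsupp.single 0 x))
      have hm1 : m ≠ 1 := by
        intro h0
        have h1 := SemidirectProduct.inl_injective (h0.trans (map_one _).symm)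
        have h2 : (Finsupp.single 0 x : ℤ →₀ F) = 0 := congrArg Multiplicative.toAdd h1
        exact hx (Finsupp.single_eq_zero.1 h2)
      have hmM : m ∈ M := hinl _
      obtain ⟨y, hy⟩ : ∃ y : Lamp F, y = t ^ c * m * (t ^ c)⁻¹ * m⁻¹ := ⟨_, rfl⟩
      have hyA : y ∈ A := by
        apply A.normalCore_le
        have h1 : y = t ^ c * (m * (t ^ c)⁻¹ * m⁻¹) := by rw [hy]; group
        rw [h1]
        exact mul_mem htc (Subgroup.Normal.conj_mem inferInstance _ (inv_mem htc) _)
      have hyM : y ∈ M := by
        rw [hy]
        exact mul_mem ((MonoidHom.normal_ker _).conj_mem m hmM _) (inv_mem hmM)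
      have h1 := h y hyA
      -- `y` commutes with `t ^ k`
      have h2 : t ^ k * y = y * t ^ k := by
        have h3 : t ^ k = (SemidirectProduct.inl g.left)⁻¹ * g := by
          rw [eq_inv_mul_iff_mul_eq]
          exact hk.symm
        rw [h3, mul_assoc, h1, ← mul_assoc, ← mul_assoc,
          hcomm _ (inv_mem (hinl g.left)) _ hyM]
      have h3 := hreg k y hk0 hyM h2
      apply hm1
      refine hreg c m hc' hmM ?_
      rw [zpow_natCast]
      have h4 : t ^ c * m * (t ^ c)⁻¹ * m⁻¹ = 1 := hy.symm.trans h3
      rw [mul_inv_eq_one, mul_inv_eq_iff_eq_mul] at h4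
      exact h4

end lamp

end Pool.Agent.Helper84.Cm
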