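import Pool.Agent.Helper84.Cm.N
import Pool.Graph.R_pool_sql_team_seeded_3997aac3.Results.MP_5d3e93_al.CyclicEdges

/-!
# Trees whose edge stabilizers are commensurable or have finite intersection
-/

set_option autoImplicit false

namespace Pool.Agent.Helper84.Cm

open Pool.Agent.Helper84.FJ Pool.Agent.Y462.SS Pool.Agent.Q152.WP Pool.Agent.Q91.FJ
open Pool.Agent.X201.FJ Pool.Agent.X201.FJ.AC
open Q182.Cyl Pool.Agent.Helper270.Tree
open scoped Pointwise

variable {C : ∀ (G : Type) [Group G], Prop}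

/-- finite-by-cyclic edge stabilizers -/
theorem chi_mem (hA : ClosedA C) {P Q V : Type} [Group P] [Group Q] [MulAction P V]
    {T : SimpleGraph V} (hT : TreeAct P T) (hst : ∀ v : V, C (MulAction.stabilizer P v))
    (π : P →* Q) (q : Q) (hπ : ∀ p, π p ∈ Subgroup.zpowers q)
    (hq : ∀ j : ℤ, q ^ j ≠ 1 → ∀ m n : ℤ, (q ^ j) ^ m = (q ^ j) ^ n → m = n)
    (hfin : ∀ v w, T.Adj v w → Finite (π.ker ⊓ Est P v w : Subgroup P)) : C P := by
  refine main2 hA hT ?_ ?_ hst
  · intro v w hvw
    have hf := hfin v w hvw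
    set X := Est P v w with hX
    -- a generator of the image
    obtain ⟨c, hc, hgen⟩ : ∃ c ∈ X, ∀ x ∈ X, ∃ j : ℤ, π x = (π c) ^ j := by
      let Y : Subgroup (Subgroup.zpowers q) := (X.map π).subgroupOf (Subgroup.zpowers q)
      obtain ⟨⟨⟨y, hyq⟩, hyY⟩, hy⟩ := (inferInstance : IsCyclic Y).exists_generator
      obtain ⟨c, hc, hcy⟩ := Subgroup.mem_subgroupOf.1 hyY
      refine ⟨c, hc, fun x hx => ?_⟩
      obtain ⟨j, hj⟩ := hy ⟨⟨π x, hπ x⟩, Subgroup.mem_subgroupOf.2 ⟨x, hx, rfl⟩⟩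
      refine ⟨j, ?_⟩
      have h1 := congrArg (fun z : Y => ((z : Subgroup.zpowers q) : Q)) hj
      have hcy' : π c = y := hcy
      rw [hcy']
      exact h1.symm
    refine ⟨c, hc, ?_⟩
    have h1 : Finite (X ⧸ (Subgroup.zpowers c).subgroupOf X) := by
      refine Finite.of_surjective (fun k : (π.ker ⊓ X : Subgroup P) =>
        ((⟨k.1, k.2.2⟩ : X) : X ⧸ (Subgroup.zpowers c).subgroupOf X)) ?_
      intro z
      induction z using QuotientGroup.induction_on with
      | H x =>
      obtain ⟨j, hj⟩ := hgen x x.2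
      refine ⟨⟨x * (c ^ j)⁻¹, ?_, X.mul_mem x.2 (X.inv_mem (X.zpow_mem hc j))⟩, ?_⟩
      · change π (x * (c ^ j)⁻¹) = 1
        rw [map_mul, map_inv, map_zpow, hj, mul_inv_cancel]
      · rw [QuotientGroup.eq, Subgroup.mem_subgroupOf]
        refine ⟨j, ?_⟩
        change c ^ j = ((x : P) * (c ^ j)⁻¹)⁻¹ * (x : P)
        group
    have h2 : ((Subgroup.zpowers c).subgroupOf X).FiniteIndex :=
      Subgroup.finiteIndex_of_finite_quotient
    exact h2.index_ne_zero
  · intro v w h g m n hvw hh hord hghm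
    have hf := hfin v w hvw
    have h1 : π h ≠ 1 := by
      intro h0
      have h2 : IsOfFinOrder (⟨h, h0, hh⟩ : (π.ker ⊓ Est P v w : Subgroup P)) :=
        isOfFinOrder_of_finite _
      obtain ⟨k, hk, hk1⟩ := isOfFinOrder_iff_pow_eq_one.1 h2
      exact hord k hk (congrArg Subtype.val hk1)
    obtain ⟨j, hj⟩ := hπ h
    obtain ⟨i, hi⟩ := hπ g
    have hj' : q ^ j = π h := hj
    have hi' : q ^ i = π g := hi
    have h2 := congrArg π hghm
    rw [map_mul, map_mul, map_inv, map_zpow, map_zpow, ← hj', ← hi'] at h2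
    have h3 : q ^ i * (q ^ j) ^ m * (q ^ i)⁻¹ = (q ^ j) ^ m := by
      rw [← zpow_mul, ← zpow_add, ← zpow_neg, ← zpow_add]
      congr 1
      ring
    rw [h3] at h2
    rw [hq j (by rw [hj']; exact h1) m n h2]

section comm

variable {Γ : Type} [Group Γ] (K : Subgroup Γ)

theorem isVA_cj' {g : Γ} (hg1 : (K.comap (MulAut.conj g).toMonoidHom).relIndex K ≠ 0)
    (hg2 : (K.comap (MulAut.conj g⁻¹).toMonoidHom).relIndex K ≠ 0) : IsVA (cj K g) := by
  let A : Subgroup K := (K.comap (MulAut.conj g).toMonoidHom).subgroupOf K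
  have hA : ∀ a : A, g * ((a : K) : Γ) * g⁻¹ ∈ K := fun a => a.2
  let φ : A →* K :=
    { toFun := fun a => ⟨g * ((a : K) : Γ) * g⁻¹, hA a⟩
      map_one' := by
        apply Subtype.ext
        show g * (1 : Γ) * g⁻¹ = 1
        group
      map_mul' := by
        intro a b
        apply Subtype.ext
        show g * (((a : K) : Γ) * ((b : K) : Γ)) * g⁻¹ =
          (g * ((a : K) : Γ) * g⁻¹) * (g * ((b : K) : Γ) * g⁻¹)
        group }
  refine ⟨A, φ, ⟨hg1⟩, ?_, ?_, fun a => cj_of K g a (hA a)⟩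
  · intro a b hab
    have h1 : g * ((a : K) : Γ) * g⁻¹ = g * ((b : K) : Γ) * g⁻¹ := congrArg Subtype.val hab
    have h2 := mul_left_cancel (mul_right_cancel h1)
    exact Subtype.ext (Subtype.ext h2)
  · have h1 : (K.comap (MulAut.conj g⁻¹).toMonoidHom).subgroupOf K ≤ φ.range := by
      intro y hy
      have h2 : g⁻¹ * (y : Γ) * g⁻¹⁻¹ ∈ K := hy
      rw [inv_inv] at h2
      refine ⟨⟨⟨g⁻¹ * y * g, h2⟩, ?_⟩, ?_⟩
      · show g * (g⁻¹ * y * g) * g⁻¹ ∈ K
        have h3 : g * (g⁻¹ * (y : Γ) * g) * g⁻¹ = y := by group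
        rw [h3]; exact y.2
      · apply Subtype.ext
        show g * (g⁻¹ * (y : Γ) * g) * g⁻¹ = y
        group
    have h2 : ((K.comap (MulAut.conj g⁻¹).toMonoidHom).subgroupOf K).FiniteIndex := ⟨hg2⟩
    exact Subgroup.finiteIndex_of_le h1

variable {K} in
/-- the homomorphism to the abstract commensurator -/
noncomputable def cmap {N : Subgroup Γ}
    (hN : ∀ g ∈ N, (K.comap (MulAut.conj g).toMonoidHom).relIndex K ≠ 0) : N →* AbsComm K where
  toFun g := AbsComm.mk (cj K g) (isVA_cj' K (hN g g.2) (hN (g : Γ)⁻¹ (inv_mem g.2)))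
  map_one' := by
    rw [AbsComm.one_def, AbsComm.mk_eq]
    refine ⟨⊤, inferInstance, fun a _ => ?_⟩
    have h1 : (1 : Γ) * a * (1 : Γ)⁻¹ = a := by group
    change cj K 1 a = a
    rw [cj_of K 1 a (by rw [h1]; exact a.2)]
    exact Subtype.ext h1
  map_mul' g h := by
    rw [AbsComm.mk_mul, AbsComm.mk_eq]
    refine ⟨(K.comap (MulAut.conj (h : Γ)).toMonoidHom).subgroupOf K ⊓
      (K.comap (MulAut.conj ((g : Γ) * h)).toMonoidHom).subgroupOf K, ?_, ?_⟩
    · have h1 : ((K.comap (MulAut.conj (h : Γ)).toMonoidHom).subgroupOf K).FiniteIndex :=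
        ⟨hN h h.2⟩
      have h2 : ((K.comap (MulAut.conj ((g : Γ) * h)).toMonoidHom).subgroupOf K).FiniteIndex :=
        ⟨hN _ (mul_mem g.2 h.2)⟩
      infer_instance
    · intro a ha
      have h1 : (h : Γ) * (a : Γ) * (h : Γ)⁻¹ ∈ K := ha.1
      have h2 : ((g : Γ) * h) * (a : Γ) * ((g : Γ) * h)⁻¹ ∈ K := ha.2
      have h3 : (g : Γ) * (h * (a : Γ) * (h : Γ)⁻¹) * (g : Γ)⁻¹ =
          ((g : Γ) * h) * (a : Γ) * ((g : Γ) * h)⁻¹ := by group
      change cj K ((g : Γ) * h) a = _
      rw [Function.comp_apply, cj_of K h a h1, cj_of K ((g : Γ) * h) a h2,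
        cj_of K g ⟨h * a * (h : Γ)⁻¹, h1⟩ (by rw [h3]; exact h2)]
      exact Subtype.ext h3.symm

variable {K} in
theorem cmap_eq_one {N : Subgroup Γ}
    (hN : ∀ g ∈ N, (K.comap (MulAut.conj g).toMonoidHom).relIndex K ≠ 0) (g : N)
    (hg : cmap hN g = 1) : ∃ A : Subgroup K, A.FiniteIndex ∧ ∀ a ∈ A, (g : Γ) * a = a * g := by
  obtain ⟨A, hA, h⟩ := AbsComm.mk_eq.1 hg
  refine ⟨A, hA, ?_⟩
  intro a ha
  have h1 : cj K g a = a := h a ha
  by_cases h2 : (g : Γ) * (a : Γ) * (g : Γ)⁻¹ ∈ K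
  · rw [cj_of K g a h2] at h1
    have h3 : (g : Γ) * (a : Γ) * (g : Γ)⁻¹ = a := congrArg Subtype.val h1
    exact mul_inv_eq_iff_eq_mul.1 h3
  · have h3 : cj K g a = 1 := dif_neg h2
    rw [h3] at h1
    exfalso
    apply h2
    rw [← h1]
    show (g : Γ) * (1 : Γ) * (g : Γ)⁻¹ ∈ K
    rw [mul_one, mul_inv_cancel]; exact one_mem _

end comm

/-- the condition on the edge stabilizers -/
def GoodE (C : ∀ (G : Type) [Group G], Prop) (E : Type) [Group E] : Prop :=
  C (AbsComm E) ∧ ∃ E₀ : Subgroup E, E₀.FiniteIndex ∧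
    ∀ g ∈ E₀, (∃ A : Subgroup E, A.FiniteIndex ∧ ∀ a ∈ A, g * a = a * g) → g = 1

/-- **trees** -/
theorem dich (hA : ClosedA C) (hE : ExtClosed C) {G V : Type} [Group G] [MulAction G V]
    {T : SimpleGraph V} (hT : TreeAct G T) (hcf : CorF G T)
    (hst : ∀ v : V, C (MulAction.stabilizer G v))
    (hedge : ∀ v w : V, T.Adj v w → Infinite (Est G v w) → GoodE C (Est G v w)) : C G := by
  refine main1 hA hT hcf hst (fun v₀ w₀ hvw hinf => ?_)
  have hgood := hedge v₀ w₀ hvw hinf
  set E := Est G v₀ w₀ with hEdef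
  obtain ⟨hCE, E₀, hE₀, hicc⟩ := hgood
  set N := Subgroup.Commensurable.commensurator E with hNdef
  have hC := hA.base.base
  have hN : ∀ g ∈ N, (E.comap (MulAut.conj g).toMonoidHom).relIndex E ≠ 0 := by
    intro g hg
    have h1 := (Subgroup.Commensurable.commensurator_mem_iff E g⁻¹).1 (inv_mem hg)
    have h2 : E.comap (MulAut.conj g).toMonoidHom = ConjAct.toConjAct g⁻¹ • E := by
      ext x
      rw [Subgroup.mem_pointwise_smul_iff_inv_smul_mem, ← ConjAct.toConjAct_inv, inv_inv,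
        ConjAct.toConjAct_smul]
      exact Iff.rfl
    rw [h2]
    exact h1.1
  -- the cylinder
  set S : Set V := cyl T E with hS
  have hSmul : ∀ (n : N) (s : V), s ∈ S → (n : G) • s ∈ S := by
    intro n s hs
    have h1 := smul_cyl hT (n : G) (v := v₀) (w := w₀)
    have h2 : cyl T (Est G ((n : G) • v₀) ((n : G) • w₀)) = cyl T E := by
      apply cyl_congr
      rw [Est_smul]
      exact (Subgroup.Commensurable.commensurator_mem_iff E (n : G)).1 n.2
    rw [h2] at h1
    rw [hS, ← h1]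
    exact ⟨s, hs, rfl⟩
  let act : MulAction N S :=
    { smul := fun n s => ⟨(n : G) • s.1, hSmul n s.1 s.2⟩
      one_smul := fun s => Subtype.ext (one_smul G s.1)
      mul_smul := fun a b s => Subtype.ext (mul_smul (a : G) (b : G) s.1) }
  have hact : ∀ (n : N) (s : S), ((n • s : S) : V) = (n : G) • (s : V) := fun _ _ => rfl
  have hfam := (fam_cyls hT hcf).conv S ⟨v₀, w₀, hvw, hinf, rfl⟩
  have hTS : (T.induce S).IsTree := by
    constructor
    · rw [SimpleGraph.connected_iff]
      refine ⟨?_, ⟨⟨v₀, self_mem_cyl hvw⟩⟩⟩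
      rintro ⟨v, hv⟩ ⟨w, hw⟩
      obtain ⟨q, h0, hn, hadj, hd, _⟩ := exists_geod hT.isTree v w
      have hfix : ∀ i ≤ T.dist v w, q i ∈ S := by
        intro i hi
        refine hfam v hv w hw (q i) ?_
        have := hd i hi
        omega
      have key : ∀ i (hi : i ≤ T.dist v w), (T.induce S).Reachable ⟨v, hv⟩ ⟨q i, hfix i hi⟩ := by
        intro i
        induction i with
        | zero =>
          intro hi
          have : (⟨v, hv⟩ : S) = ⟨q 0, hfix 0 hi⟩ := Subtype.ext h0.symm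
          rw [this]
        | succ i ih =>
          intro hi
          refine (ih (by omega)).trans ?_
          have h1 : (T.induce S).Adj ⟨q i, hfix i (by omega)⟩ ⟨q (i + 1), hfix (i + 1) hi⟩ :=
            hadj i (by omega)
          exact h1.reachable
      have h1 := key (T.dist v w) le_rfl
      have h2 : (⟨q (T.dist v w), hfix _ le_rfl⟩ : S) = ⟨w, hw⟩ := Subtype.ext hn
      rw [h2] at h1
      exact h1
    · exact hT.isTree.isAcyclic.induce _
  have hTA : ∀ P : Subgroup N, TreeAct P (T.induce S) := fun P =>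
    { isTree := hTS
      adj := fun g v w h => hT.adj ((g : N) : G) v.1 w.1 h
      noInv := fun g v w h h' => hT.noInv ((g : N) : G) v.1 w.1 h
        ⟨congrArg Subtype.val h'.1, congrArg Subtype.val h'.2⟩ }
  have hstP : ∀ (P : Subgroup N) (s : S), C (MulAction.stabilizer P s) := by
    intro P s
    refine hC.of_injective _ _ ((N.subtype.comp (P.subtype.comp
      (MulAction.stabilizer P s).subtype)).codRestrict (MulAction.stabilizer G (s : V)) ?_) ?_
      (hst s)
    · intro x
      exact congrArg Subtype.val x.2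
    · intro x y hxy
      have h1 := congrArg Subtype.val hxy
      exact Subtype.ext (Subtype.ext (Subtype.ext h1))
  let ψ : N →* AbsComm E := cmap hN
  -- finiteness
  have hfin : ∀ (P : Subgroup N) (s s' : S), (T.induce S).Adj s s' →
      Finite ((ψ.ker.subgroupOf P) ⊓ Est P s s' : Subgroup P) := by
    intro P s s' hadj
    have h1 : Subgroup.Commensurable E (Est G (s : V) (s' : V)) := by
      have hadj' : T.Adj (s : V) (s' : V) := hadj
      refine between hT hcf hinf s.2 s'.2 hadj' ?_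
      rw [SimpleGraph.dist_self, SimpleGraph.dist_self,
        SimpleGraph.dist_eq_one_iff_adj.2 hadj']
    have h2 : (E₀.map E.subtype).relIndex (Est G (s : V) (s' : V)) ≠ 0 := by
      refine Subgroup.relIndex_ne_zero_trans ?_ h1.1
      unfold Subgroup.relIndex
      rw [Subgroup.subgroupOf, Subgroup.comap_map_eq_self_of_injective E.subtype_injective]
      exact hE₀.index_ne_zero
    have h3 : Finite (Est G (s : V) (s' : V) ⧸
        (E₀.map E.subtype).subgroupOf (Est G (s : V) (s' : V))) := by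
      have : ((E₀.map E.subtype).subgroupOf (Est G (s : V) (s' : V))).FiniteIndex := ⟨h2⟩
      infer_instance
    have hmem : ∀ x : ((ψ.ker.subgroupOf P) ⊓ Est P s s' : Subgroup P),
        (((x : P) : N) : G) ∈ Est G (s : V) (s' : V) := fun x =>
      ⟨congrArg Subtype.val x.2.2.1, congrArg Subtype.val x.2.2.2⟩
    refine Finite.of_injective (fun x : ((ψ.ker.subgroupOf P) ⊓ Est P s s' : Subgroup P) =>
      ((⟨(((x : P) : N) : G), hmem x⟩ : Est G (s : V) (s' : V)) : Est G (s : V) (s' : V) ⧸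
        (E₀.map E.subtype).subgroupOf (Est G (s : V) (s' : V)))) ?_
    intro x y hxy
    have h4 := Subgroup.mem_subgroupOf.1 (QuotientGroup.eq.1 hxy)
    obtain ⟨z, hz, hzxy⟩ := h4
    -- `z = x⁻¹ y` is in the kernel
    have h5 : ψ (((x : P) : N)⁻¹ * ((y : P) : N)) = 1 := by
      have hx : ψ ((x : P) : N) = 1 := Subgroup.mem_subgroupOf.1 x.2.1
      have hy : ψ ((y : P) : N) = 1 := Subgroup.mem_subgroupOf.1 y.2.1
      rw [map_mul, map_inv, hx, hy, inv_one, one_mul]
    obtain ⟨A, hA', hcomm⟩ := cmap_eq_one hN _ h5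
    have hzv : (z : G) = (((x : P) : N) : G)⁻¹ * (((y : P) : N) : G) := hzxy
    have h6 : z = 1 := by
      refine hicc z hz ⟨A, hA', fun a ha => ?_⟩
      apply Subtype.ext
      have h7 := hcomm a ha
      rw [Subgroup.coe_mul, Subgroup.coe_inv, ← hzv] at h7
      exact h7
    rw [h6] at hzv
    have h7 : (((x : P) : N) : G) = (((y : P) : N) : G) := inv_mul_eq_one.1 hzv.symm
    exact Subtype.ext (Subtype.ext (Subtype.ext h7))
  -- the preimages of cyclic groups
  have hker : C ψ.rangeRestrict.ker := by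
    refine chi_mem (P := ψ.rangeRestrict.ker) hA (hTA _) (hstP _)
      (1 : ψ.rangeRestrict.ker →* Multiplicative ℤ) 1 (fun p => one_mem _)
      (fun j hj => absurd (one_zpow j) hj) ?_
    intro s s' hadj
    have h1 := hfin ψ.rangeRestrict.ker s s' hadj
    have hle : (1 : ψ.rangeRestrict.ker →* Multiplicative ℤ).ker ⊓ Est ψ.rangeRestrict.ker s s' ≤
        (ψ.ker.subgroupOf ψ.rangeRestrict.ker) ⊓ Est ψ.rangeRestrict.ker s s' := by
      intro x hx
      refine ⟨?_, hx.2⟩
      exact congrArg Subtype.val x.2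
    exact Finite.of_injective (Subgroup.inclusion hle) (Subgroup.inclusion_injective hle)
  refine hE N ψ.range ψ.rangeRestrict ψ.rangeRestrict_surjective
    (hC.of_injective _ _ ψ.range.subtype ψ.range.subtype_injective hCE) hker ?_
  intro q hq
  refine chi_mem (P := (Subgroup.zpowers q).comap ψ.rangeRestrict) hA (hTA _) (hstP _)
    (ψ.rangeRestrict.comp (Subgroup.subtype _)) q (fun p => p.2) ?_ ?_
  · intro j hj m n hmn
    have hj0 : j ≠ 0 := by
      intro h0
      rw [h0, zpow_zero] at hj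
      exact hj rfl
    rw [← zpow_mul, ← zpow_mul] at hmn
    have h1 := injective_zpow_iff_not_isOfFinOrder.2 hq hmn
    exact mul_left_cancel₀ hj0 h1
  · intro s s' hadj
    have h1 := hfin ((Subgroup.zpowers q).comap ψ.rangeRestrict) s s' hadj
    have hle : (ψ.rangeRestrict.comp ((Subgroup.zpowers q).comap ψ.rangeRestrict).subtype).ker ⊓
        Est ((Subgroup.zpowers q).comap ψ.rangeRestrict) s s' ≤
        (ψ.ker.subgroupOf ((Subgroup.zpowers q).comap ψ.rangeRestrict)) ⊓
          Est ((Subgroup.zpowers q).comap ψ.rangeRestrict) s s' := by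
      intro x hx
      refine ⟨?_, hx.2⟩
      have h2 : ψ.rangeRestrict (x : N) = 1 := hx.1
      exact congrArg Subtype.val h2
    exact Finite.of_injective (Subgroup.inclusion hle) (Subgroup.inclusion_injective hle)

end Pool.Agent.Helper84.Cm
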